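import Pool.Agent.Q69.CR.Prime

/-!
# Moderate deviations with approximate mean and variance
-/

set_option autoImplicit false
set_option linter.unusedSectionVars false

namespace Q69CR

/-- a moderate deviation bound for a linear function of the sum, normalised with approximate mean and variance -/
lemma approx_mdp (ε : ℝ) (hε : 0 < ε) : ∃ e η : ℝ, 0 < e ∧ 0 < η ∧ η ≤ 1 / 16 ∧ ∀ (Pr : ℝ → ℝ) (y₁ M W V c y D : ℝ), 0 < V → 0 < c →
    1 ≤ y₁ → Antitone Pr →
    (∀ z, y₁ ≤ z → z ≤ D → z ≤ 2 * y → Real.exp (-((1 + e) * (z ^ 2 / 2))) ≤ Pr (M + z * Real.sqrt W) ∧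
      Pr (M + z * Real.sqrt W) ≤ Real.exp (-((1 - e) * (z ^ 2 / 2)))) →
    |c ^ 2 * W - V| ≤ η * V → c * |M| ≤ η * Real.sqrt V → 2 * y₁ ≤ y → 2 * y ≤ D →
    Real.exp (-((1 + ε) * (y ^ 2 / 2))) ≤ Pr (y * Real.sqrt V / c) ∧
      Pr (y * Real.sqrt V / c) ≤ Real.exp (-((1 - ε) * (y ^ 2 / 2))) := by
  obtain ⟨e, he⟩ : ∃ e, e = min ε 1 := ⟨_, rfl⟩
  have he0 : 0 < e := by rw [he]; positivity
  have he1 : e ≤ 1 := by rw [he]; exact min_le_right _ _
  have heε : e ≤ ε := by rw [he]; exact min_le_left _ _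
  obtain ⟨η, hη⟩ : ∃ η, η = e / 16 := ⟨_, rfl⟩
  have hη0 : 0 < η := by rw [hη]; positivity
  have hη1 : η ≤ 1 / 16 := by rw [hη]; linarith
  refine ⟨e / 4, η, by positivity, hη0, hη1, ?_⟩
  intro Pr y₁ M W V c y D hV hc hy₁ hanti hPr hW hM hy hyD
  have hy1 : 1 ≤ y := by linarith
  have hsV : 0 < Real.sqrt V := Real.sqrt_pos.2 hV
  have hVV : Real.sqrt V ^ 2 = V := Real.sq_sqrt hV.le
  have hW' := abs_le.1 hW
  have hηV : η * V ≤ 1 / 16 * V := mul_le_mul_of_nonneg_right hη1 hV.le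
  have hW0 : 0 < W := by
    have h1 : 0 < c ^ 2 * W := by linarith [hW'.1]
    exact pos_of_mul_pos_right h1 (sq_nonneg c)
  have hsW : 0 < Real.sqrt W := Real.sqrt_pos.2 hW0
  have hcs : c * Real.sqrt W = Real.sqrt (c ^ 2 * W) := by
    rw [Real.sqrt_mul (sq_nonneg c), Real.sqrt_sq hc.le]
  have hs1 : (1 - η) * Real.sqrt V ≤ c * Real.sqrt W := by
    rw [hcs]
    refine Real.le_sqrt_of_sq_le ?_
    rw [mul_pow, hVV]
    have h6 := mul_le_mul_of_nonneg_right (n7 hη0 hη1) hV.le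
    linarith [hW'.1]
  have hs2 : c * Real.sqrt W ≤ (1 + η) * Real.sqrt V := by
    rw [hcs, Real.sqrt_le_left (by positivity), mul_pow, hVV]
    have h6 := mul_le_mul_of_nonneg_right (n8 hη0) hV.le
    linarith [hW'.2]
  have hys : 0 < y * Real.sqrt V := by positivity
  have hMy : c * |M| ≤ η * (y * Real.sqrt V) := by
    refine hM.trans ?_
    have : η * Real.sqrt V * 1 ≤ η * Real.sqrt V * y := mul_le_mul_of_nonneg_left hy1 (by positivity)
    linarith
  have hM1 : c * M ≤ η * (y * Real.sqrt V) := (mul_le_mul_of_nonneg_left (le_abs_self M) hc.le).trans hMy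
  have hM2 : -(η * (y * Real.sqrt V)) ≤ c * M := by
    have := mul_le_mul_of_nonneg_left (neg_abs_le M) hc.le
    linarith
  obtain ⟨w, hw⟩ : ∃ w, w = η * y := ⟨_, rfl⟩
  have hw0 : 0 < w := by rw [hw]; positivity
  have hw1 : w ≤ 1 / 16 * y := by
    rw [hw]
    exact mul_le_mul_of_nonneg_right hη1 (by linarith)
  constructor
  · obtain ⟨z, hz⟩ : ∃ z, z = (1 + 3 * η) * y := ⟨_, rfl⟩
    have hzw : z = y + 3 * w := by rw [hz, hw]; ring
    have hz1 : y₁ ≤ z := by rw [hzw]; linarith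
    have hz2 : z ≤ 2 * y := by rw [hzw]; linarith
    have hz0 : 0 < z := by linarith
    refine le_trans ?_ ((hPr z hz1 (by linarith) hz2).1.trans (hanti ?_))
    · refine Real.exp_le_exp.2 ?_
      have h5 : z ^ 2 ≤ (1 + e / 2) * y ^ 2 := by
        rw [hz, mul_pow]
        refine mul_le_mul_of_nonneg_right ?_ (sq_nonneg y)
        rw [hη]
        exact n1 he0 he1
      have h6 : (1 + e / 4) * (1 + e / 2) ≤ 1 + ε := (n2 he0 he1).trans (by linarith)
      have h7 : (1 + e / 4) * z ^ 2 ≤ (1 + e / 4) * ((1 + e / 2) * y ^ 2) := mul_le_mul_of_nonneg_left h5 (by linarith)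
      have h8 : (1 + e / 4) * (1 + e / 2) * y ^ 2 ≤ (1 + ε) * y ^ 2 := mul_le_mul_of_nonneg_right h6 (sq_nonneg y)
      linarith
    · rw [div_le_iff₀ hc]
      have h5 : z * ((1 - η) * Real.sqrt V) ≤ z * (c * Real.sqrt W) := mul_le_mul_of_nonneg_left hs1 hz0.le
      have h7 : z * ((1 - η) * Real.sqrt V) = (1 + 3 * η) * (1 - η) * (y * Real.sqrt V) := by rw [hz]; ring
      have h8 : (1 + η) * (y * Real.sqrt V) ≤ (1 + 3 * η) * (1 - η) * (y * Real.sqrt V) :=
        mul_le_mul_of_nonneg_right (n3 hη0 hη1) hys.le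
      linarith
  · obtain ⟨z, hz⟩ : ∃ z, z = (1 - 2 * η) * y := ⟨_, rfl⟩
    have hzw : z = y - 2 * w := by rw [hz, hw]; ring
    have hz1 : y₁ ≤ z := by rw [hzw]; linarith
    have hz2 : z ≤ 2 * y := by rw [hzw]; linarith
    have hz0 : 0 < z := by linarith
    refine le_trans (hanti ?_) ((hPr z hz1 (by linarith) hz2).2.trans ?_)
    · rw [le_div_iff₀ hc]
      have h5 : z * (c * Real.sqrt W) ≤ z * ((1 + η) * Real.sqrt V) := mul_le_mul_of_nonneg_left hs2 hz0.le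
      have h7 : z * ((1 + η) * Real.sqrt V) = (1 - 2 * η) * (1 + η) * (y * Real.sqrt V) := by rw [hz]; ring
      have h8 : (1 - 2 * η) * (1 + η) * (y * Real.sqrt V) ≤ (1 - η) * (y * Real.sqrt V) :=
        mul_le_mul_of_nonneg_right (n4 hη0) hys.le
      linarith
    · refine Real.exp_le_exp.2 ?_
      have h5 : (1 - e / 4) * y ^ 2 ≤ z ^ 2 := by
        rw [hz, mul_pow]
        refine mul_le_mul_of_nonneg_right ?_ (sq_nonneg y)
        rw [hη]
        exact n5 e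
      have h6 : 1 - ε ≤ (1 - e / 4) * (1 - e / 4) := le_trans (by linarith) (n6 he0)
      have h7 : (1 - e / 4) * ((1 - e / 4) * y ^ 2) ≤ (1 - e / 4) * z ^ 2 := mul_le_mul_of_nonneg_left h5 (by linarith)
      have h8 : (1 - ε) * y ^ 2 ≤ (1 - e / 4) * (1 - e / 4) * y ^ 2 := mul_le_mul_of_nonneg_right h6 (sq_nonneg y)
      linarith

end Q69CR
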