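import Pool.Agent.Q69.CR.Model

/-!
# Upper and lower bounds for the tails over boxes
-/

set_option autoImplicit false
set_option linter.unusedSectionVars false

namespace Q69CR

open Finset
open Q282LT
open Q282.BP (bx mem_bx card_bx bx_mean mean_mul_period)
open Pool.Agent.TH894.NE (box mem_box card_box Per mean mean_mul mean_mono mean_add mean_const mean_prod)

open Classical in
/-- the proportion of the points of the box for which the sum has the property `P` -/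
noncomputable def pr {d : ℕ} (L : Fin d → ℕ) (I : Finset ℕ) (F : ℕ → (Fin d → ℕ) → ℝ) (P : ℝ → Prop) : ℝ :=
  (((bx L).filter fun n => P (∑ a ∈ I, F a n)).card : ℝ) / ∏ i, (L i : ℝ)

lemma exists_pow (x : ℝ) : ∃ b : ℕ, x ≤ 2 ^ b := by
  obtain ⟨b, hb⟩ := exists_nat_ge x
  refine ⟨b, hb.trans ?_⟩
  exact_mod_cast (Nat.lt_two_pow_self (n := b)).le

lemma exp_neg_eight : Real.exp (-8) ≤ 1 / 256 := by
  have h1 : (2 : ℝ) ≤ Real.exp 1 := by
    have := Real.add_one_le_exp (1 : ℝ)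
    linarith
  have h2 : (256 : ℝ) ≤ Real.exp 8 := by
    calc (256 : ℝ) = 2 ^ 8 := by norm_num
      _ ≤ Real.exp 1 ^ 8 := pow_le_pow_left₀ (by norm_num) h1 8
      _ = Real.exp 8 := by
          rw [← Real.exp_nat_mul]
          norm_num
  rw [Real.exp_neg, ← one_div]
  exact one_div_le_one_div_of_le (by norm_num) h2

/-- the numbers which occur in the estimates -/
lemma consts (T : ℝ) (hT : 0 < T) : ∃ K K₁ : ℝ, 0 < K ∧ 0 < K₁ ∧ ∀ v : ℝ, 1 ≤ v → ∃ k : ℕ,
    K₁ * v ≤ k ∧ (9 * Real.exp (2 * (3 * T)) + 4 * Real.exp (2 * (3 * T)) ^ 2 + 8) * v ≤ k ∧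
    ∀ Y : ℕ, 2 ≤ Y → ∀ d : ℕ, d * (Y : ℝ) ^ (2 * k + 2) ≤ (d + 1) * (Y : ℝ) ^ (K * v) ∧
      ∀ t m R : ℝ, 0 < t → t ≤ T → 0 ≤ m → m ≤ Real.exp (2 * (3 * T)) * (4 * Y) * t → 16 ≤ R * t ^ 2 →
        2 * d / ((d + 1) * (Y : ℝ) ^ (K * v)) * ((1 + (2 * (Y : ℝ) ^ 2 + m) ^ 2 / R) * A k (t * (2 * (Y : ℝ) ^ 2))) ≤ 1 / 8 ∧
        2 * d / ((d + 1) * (Y : ℝ) ^ (K * v)) * A k (t * (2 * (Y : ℝ) ^ 2)) ≤ 1 / 8 := by
  obtain ⟨C, hC⟩ : ∃ C, C = Real.exp (2 * (3 * T)) := ⟨_, rfl⟩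
  have hC1 : 1 ≤ C := by
    rw [hC]
    exact Real.one_le_exp (by linarith)
  obtain ⟨b, hb⟩ := exists_pow (1 + T)
  obtain ⟨b', hb'⟩ := exists_pow (1 + (2 + 4 * C * T) ^ 2 * T ^ 2)
  obtain ⟨K₁, hK₁⟩ : ∃ K₁, K₁ = 9 * C + 4 * C ^ 2 + 8 := ⟨_, rfl⟩
  have hK₁0 : 0 < K₁ := by rw [hK₁]; positivity
  refine ⟨b' + 8 + 2 * (b + 2) * (K₁ + 1), K₁, by positivity, hK₁0, fun v hv => ?_⟩
  rw [← hC, ← hK₁]
  obtain ⟨k, hk⟩ : ∃ k : ℕ, k = ⌈K₁ * v⌉₊ := ⟨_, rfl⟩
  have hk1 : K₁ * v ≤ k := by rw [hk]; exact Nat.le_ceil _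
  have hk2 : (k : ℝ) ≤ K₁ * v + 1 := by rw [hk]; exact (Nat.ceil_lt_add_one (by positivity)).le
  refine ⟨k, hk1, hk1, fun Y hY d => ?_⟩
  have hYr : (2 : ℝ) ≤ Y := by exact_mod_cast hY
  have hn : ((b' + 4 + (b + 2) * (2 * k) + 4 : ℕ) : ℝ) ≤ (b' + 8 + 2 * (b + 2) * (K₁ + 1)) * v := by
    push_cast
    have h1 : ((b : ℝ) + 2) * (2 * k) ≤ (b + 2) * (2 * (K₁ * v + 1)) := by
      refine mul_le_mul_of_nonneg_left ?_ (by positivity)
      linarith
    have h2 : (b : ℝ) * 1 ≤ b * v := mul_le_mul_of_nonneg_left hv (by positivity)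
    have h3 : (b' : ℝ) * 1 ≤ b' * v := mul_le_mul_of_nonneg_left hv (by positivity)
    nlinarith
  have hX : (Y : ℝ) ^ (b' + 4 + (b + 2) * (2 * k) + 4) ≤ (Y : ℝ) ^ ((b' + 8 + 2 * (b + 2) * (K₁ + 1)) * v) := by
    rw [← Real.rpow_natCast]
    exact Real.rpow_le_rpow_of_exponent_le (by linarith) hn
  obtain ⟨X, hXX⟩ : ∃ X, X = (Y : ℝ) ^ ((b' + 8 + 2 * (b + 2) * (K₁ + 1)) * v) := ⟨_, rfl⟩
  rw [← hXX] at hX ⊢
  have hX0 : 0 < X := lt_of_lt_of_le (by positivity) hX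
  constructor
  · have h1 : (Y : ℝ) ^ (2 * k + 2) ≤ X := by
      refine le_trans (pow_le_pow_right₀ (by linarith) ?_) hX
      nlinarith
    have h2 : (0 : ℝ) ≤ d := Nat.cast_nonneg d
    nlinarith
  · intro t m R ht0 ht hm0 hm hR
    have hR0 : 0 < R := by
      by_contra h
      push Not at h
      have : R * t ^ 2 ≤ 0 := mul_nonpos_of_nonpos_of_nonneg h (sq_nonneg t)
      linarith
    have hA : A k (t * (2 * (Y : ℝ) ^ 2)) ≤ (Y : ℝ) ^ ((b + 2) * (2 * k)) := by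
      unfold A
      have h1 : t * (2 * (Y : ℝ) ^ 2) / 2 = t * (Y : ℝ) ^ 2 := by ring
      rw [h1]
      have h2 := E_le_pow k (w := t * (Y : ℝ) ^ 2) (by positivity)
      have h3 : 1 + t * (Y : ℝ) ^ 2 ≤ (Y : ℝ) ^ (b + 2) := by
        have h4 : (1 : ℝ) ≤ (Y : ℝ) ^ 2 := one_le_pow₀ (by linarith)
        have h5 : (2 : ℝ) ^ b ≤ (Y : ℝ) ^ b := pow_le_pow_left₀ (by norm_num) hYr b
        rw [pow_add]
        calc 1 + t * (Y : ℝ) ^ 2 ≤ (1 + T) * (Y : ℝ) ^ 2 := by nlinarith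
          _ ≤ (Y : ℝ) ^ b * (Y : ℝ) ^ 2 := mul_le_mul_of_nonneg_right (hb.trans h5) (by positivity)
      calc E k (t * (Y : ℝ) ^ 2) ^ 2 ≤ ((1 + t * (Y : ℝ) ^ 2) ^ k) ^ 2 :=
            pow_le_pow_left₀ (E_nonneg (by positivity)) h2 2
        _ ≤ (((Y : ℝ) ^ (b + 2)) ^ k) ^ 2 :=
            pow_le_pow_left₀ (by positivity) (pow_le_pow_left₀ (by positivity) h3 k) 2
        _ = (Y : ℝ) ^ ((b + 2) * (2 * k)) := by
            rw [← pow_mul, ← pow_mul]
            congr 1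
            ring
    have hW : 1 + (2 * (Y : ℝ) ^ 2 + m) ^ 2 / R ≤ (Y : ℝ) ^ (b' + 4) := by
      have h1 : m ≤ 4 * C * T * (Y : ℝ) ^ 2 := by
        have h2 : (Y : ℝ) ≤ (Y : ℝ) ^ 2 := by nlinarith
        calc m ≤ C * (4 * Y) * t := hm
          _ ≤ C * (4 * (Y : ℝ) ^ 2) * T := by
              refine mul_le_mul (mul_le_mul_of_nonneg_left (by linarith) (by linarith)) ht ht0.le (by positivity)
          _ = _ := by ring
      have h2 : (2 * (Y : ℝ) ^ 2 + m) ^ 2 ≤ ((2 + 4 * C * T) * (Y : ℝ) ^ 2) ^ 2 := by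
        refine pow_le_pow_left₀ (by positivity) ?_ 2
        linarith
      have h3 : (2 * (Y : ℝ) ^ 2 + m) ^ 2 / R ≤ (2 + 4 * C * T) ^ 2 * T ^ 2 * (Y : ℝ) ^ 4 := by
        rw [div_le_iff₀ hR0]
        have h4 : 1 ≤ R * T ^ 2 := by
          have : R * t ^ 2 ≤ R * T ^ 2 := mul_le_mul_of_nonneg_left (pow_le_pow_left₀ ht0.le ht 2) hR0.le
          linarith
        calc (2 * (Y : ℝ) ^ 2 + m) ^ 2 ≤ ((2 + 4 * C * T) * (Y : ℝ) ^ 2) ^ 2 * 1 := by rw [mul_one]; exact h2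
          _ ≤ ((2 + 4 * C * T) * (Y : ℝ) ^ 2) ^ 2 * (R * T ^ 2) := mul_le_mul_of_nonneg_left h4 (sq_nonneg _)
          _ = _ := by ring
      have h4 : (1 : ℝ) ≤ (Y : ℝ) ^ 4 := one_le_pow₀ (by linarith)
      have h5 : (2 : ℝ) ^ b' ≤ (Y : ℝ) ^ b' := pow_le_pow_left₀ (by norm_num) hYr b'
      rw [pow_add]
      calc 1 + (2 * (Y : ℝ) ^ 2 + m) ^ 2 / R ≤ (1 + (2 + 4 * C * T) ^ 2 * T ^ 2) * (Y : ℝ) ^ 4 := by nlinarith
        _ ≤ (Y : ℝ) ^ b' * (Y : ℝ) ^ 4 := mul_le_mul_of_nonneg_right (hb'.trans h5) (by positivity)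
    have hW1 : 1 ≤ 1 + (2 * (Y : ℝ) ^ 2 + m) ^ 2 / R := by
      have : 0 ≤ (2 * (Y : ℝ) ^ 2 + m) ^ 2 / R := by positivity
      linarith
    have hη : 2 * d / ((d + 1) * X) ≤ 2 / X := by
      rw [div_le_div_iff₀ (by positivity) hX0]
      have h2 : (0 : ℝ) ≤ d := Nat.cast_nonneg d
      nlinarith
    have hη0 : 0 ≤ 2 * d / ((d + 1) * X) := by positivity
    have hmain : 2 * d / ((d + 1) * X) * ((1 + (2 * (Y : ℝ) ^ 2 + m) ^ 2 / R) * A k (t * (2 * (Y : ℝ) ^ 2))) ≤ 1 / 8 := by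
      have h16 : (16 : ℝ) ≤ (Y : ℝ) ^ 4 := by
        calc (16 : ℝ) = 2 ^ 4 := by norm_num
          _ ≤ (Y : ℝ) ^ 4 := pow_le_pow_left₀ (by norm_num) hYr 4
      calc 2 * d / ((d + 1) * X) * ((1 + (2 * (Y : ℝ) ^ 2 + m) ^ 2 / R) * A k (t * (2 * (Y : ℝ) ^ 2))) ≤
            2 / X * ((Y : ℝ) ^ (b' + 4) * (Y : ℝ) ^ ((b + 2) * (2 * k))) := by
            refine mul_le_mul hη (mul_le_mul hW hA (A_nonneg _ _) (by positivity)) (mul_nonneg (by linarith) (A_nonneg _ _)) (by positivity)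
        _ = 2 * (Y : ℝ) ^ (b' + 4 + (b + 2) * (2 * k)) / X := by
            rw [pow_add _ (b' + 4)]
            ring
        _ ≤ 1 / 8 := by
            rw [div_le_iff₀ hX0]
            have h5 : 16 * (Y : ℝ) ^ (b' + 4 + (b + 2) * (2 * k)) ≤ (Y : ℝ) ^ (b' + 4 + (b + 2) * (2 * k) + 4) := by
              rw [pow_add _ (b' + 4 + (b + 2) * (2 * k)), mul_comm]
              exact mul_le_mul_of_nonneg_left h16 (by positivity)
            linarith
    refine ⟨hmain, le_trans ?_ hmain⟩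
    refine mul_le_mul_of_nonneg_left ?_ hη0
    exact le_mul_of_one_le_left (A_nonneg _ _) hW1

/-- **Upper and lower bounds.** -/
theorem base (T : ℝ) (hT : 0 < T) : ∃ K v₀ : ℝ, 0 < K ∧ 1 ≤ v₀ ∧ ∀ (d : ℕ) (I : Finset ℕ) (q : ℕ → ℕ) (F : ℕ → (Fin d → ℕ) → ℝ),
    Sys d I q F → ∀ t : ℝ, 0 < t → t ≤ T → v₀ ≤ t ^ 2 * Vr d I q F →
      ∀ Y : ℕ, 2 ≤ Y → (∀ a ∈ I, q a ≤ Y) → I.card ≤ Y → ∀ L : Fin d → ℕ,
        (∀ i, (d + 1) * (Y : ℝ) ^ (K * (t ^ 2 * Vr d I q F)) ≤ L i) →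
      pr L I F (fun s => mu1 d I q F t ≤ s) ≤ 4 * Real.exp (Psi d I q F t - t * mu1 d I q F t) ∧
      1 / 2 * Real.exp (Psi d I q F t - t * mu1 d I q F t -
          Real.sqrt (16 * Real.exp (Real.exp (2 * (3 * T))) * (t ^ 2 * Vr d I q F))) ≤
        pr L I F (fun s => mu1 d I q F t - Real.sqrt (16 * Real.exp (Real.exp (2 * (3 * T))) * Vr d I q F) ≤ s) := by
  classical
  obtain ⟨K, K₁, hK, hK₁, hc⟩ := consts T hT
  obtain ⟨C, hC⟩ : ∃ C, C = Real.exp (2 * (3 * T)) := ⟨_, rfl⟩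
  have hC1 : 1 ≤ C := by
    rw [hC]
    exact Real.one_le_exp (by linarith)
  obtain ⟨c, hcc⟩ : ∃ c, c = Real.exp (-(4 * (3 * T))) := ⟨_, rfl⟩
  have hc0 : 0 < c := by rw [hcc]; exact Real.exp_pos _
  have hc1 : c ≤ 1 := by
    rw [hcc]
    exact Real.exp_le_one_iff.2 (by linarith)
  obtain ⟨A₁, hA₁⟩ : ∃ A₁, A₁ = 16 * Real.exp C := ⟨_, rfl⟩
  have hA16 : 16 ≤ A₁ := by
    rw [hA₁]
    have : 1 ≤ Real.exp C := Real.one_le_exp (by linarith)
    linarith
  have hv₀ : 1 ≤ A₁ / c ^ 2 := by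
    rw [one_le_div (by positivity)]
    nlinarith
  refine ⟨K, A₁ / c ^ 2, hK, hv₀, ?_⟩
  intro d I q F S t ht0 ht hvv Y hY2 hqY hIY L hL
  rw [← hC, ← hA₁]
  obtain ⟨V, hV⟩ : ∃ V, V = Vr d I q F := ⟨_, rfl⟩
  obtain ⟨v, hv⟩ : ∃ v, v = t ^ 2 * V := ⟨_, rfl⟩
  rw [← hV] at hvv hL ⊢
  rw [← hv] at hvv hL ⊢
  have hv1 : 1 ≤ v := hv₀.trans hvv
  have hV0 : 0 < V := by
    by_contra h
    push Not at h
    have : t ^ 2 * V ≤ 0 := mul_nonpos_of_nonneg_of_nonpos (sq_nonneg t) h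
    linarith
  obtain ⟨k, hk1, hk2, hk3⟩ := hc v hv1
  obtain ⟨hcT, hcE⟩ := hk3 Y hY2 d
  rw [← hC] at hk2 hcE
  have hYr : (2 : ℝ) ≤ Y := by exact_mod_cast hY2
  obtain ⟨X, hX⟩ : ∃ X, X = (d + 1) * (Y : ℝ) ^ (K * v) := ⟨_, rfl⟩
  rw [← hX] at hL hcT hcE
  have hX0 : 0 < X := by rw [hX]; positivity
  have hLpos : ∀ i, (0 : ℝ) < L i := fun i => hX0.trans_le (hL i)
  have hN0 : 0 < ∏ i, (L i : ℝ) := prod_pos fun i _ => hLpos i
  have hgood := good_one (L := L) (I := I) (q := q) (F := F) (2 * k + 2) S.hq S.hF S.hb Y (by omega) hqY hIY X hX0 hL hcT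
  obtain ⟨m, hm⟩ : ∃ m, m = mu1 d I q F t := ⟨_, rfl⟩
  obtain ⟨R, hR⟩ : ∃ R, R = A₁ * V := ⟨_, rfl⟩
  have hincr := incr (m := mu1 d I q F) (s := mu2 d I q F) (T := 3 * T) (c := c * V) (C := C * V)
    (mu1_deriv S.hq S.h0) (fun u hu => by rw [hcc, hV]; exact (S.mu2_bounds u hu).1)
    (fun u hu => by rw [hC, hV]; exact (S.mu2_bounds u hu).2) (x := 0) (y := t) (by linarith) ht0.le (by linarith)
  rw [mu1_zero S.h0, ← hm, sub_zero, sub_zero] at hincr
  have hm0 : 0 ≤ m := le_trans (by positivity) hincr.1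
  have hV4 : V ≤ 4 * Y := by
    rw [hV]
    refine S.V_le.trans ?_
    have : (I.card : ℝ) ≤ Y := by exact_mod_cast hIY
    linarith
  have hmY : m ≤ C * (4 * Y) * t := by
    refine hincr.2.trans (mul_le_mul_of_nonneg_right (mul_le_mul_of_nonneg_left hV4 (by linarith)) ht0.le)
  have hR16 : 16 ≤ R * t ^ 2 := by
    have : R * t ^ 2 = A₁ * v := by rw [hR, hv]; ring
    rw [this]
    nlinarith
  have hR0 : 0 < R := by rw [hR]; positivity
  obtain ⟨hE1, hE2⟩ := hcE t m R ht0 ht hm0 hmY hR16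
  have htm : t * m ≤ C * v := by
    calc t * m ≤ t * (C * V * t) := mul_le_mul_of_nonneg_left hincr.2 ht0.le
      _ = C * v := by rw [hv]; ring
  have hΨ1 : 1 ≤ Real.exp (Psi d I q F t) := by
    have h1 := rate_bounds (P := Psi d I q F) (m := mu1 d I q F) (s := mu2 d I q F) (T := 3 * T) (c := 0) (C := C * V)
      (Psi_deriv S.hq S.h0) (mu1_deriv S.hq S.h0) (Psi_zero S.hq)
      (fun u hu => le_trans (mul_nonneg (Real.exp_pos _).le S.V_nonneg) (S.mu2_bounds u hu).1)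
      (fun u hu => by rw [hC, hV]; exact (S.mu2_bounds u hu).2) (t := t) ht0.le (by linarith)
    rw [← S.exp t]
    have h2 : Em d I q F (fun s => 1 + t * s) ≤ Em d I q F (fun s => Real.exp (t * s)) := by
      refine Em_mono fun s => ?_
      have := Real.add_one_le_exp (t * s)
      linarith
    have h3 : Em d I q F (fun s => 1 + t * s) = 1 := by
      have hQ : 1 ≤ ∏ a ∈ I, q a := Nat.one_le_iff_ne_zero.2 (prod_ne_zero_iff.2 fun a ha => by
        have := S.hq a ha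
        omega)
      rw [Em_add (fun _ => 1) (fun s => t * s), Em_mul]
      unfold Em
      rw [mean_const d _ hQ, mean_sum']
      have h4 : ∑ a ∈ I, mean d (∏ a ∈ I, q a) (F a) = 0 := by
        refine sum_eq_zero fun a ha => ?_
        have h5 : (∏ a ∈ I, q a) = (∏ b ∈ I.erase a, q b) * q a := by rw [mul_comm, mul_prod_erase _ _ ha]
        rw [h5, mul_comm, mean_mul_period (S.hq a ha) _ (Nat.pos_of_ne_zero (prod_ne_zero_iff.2 fun b hb => by
          have := S.hq b (mem_of_mem_erase hb)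
          omega)) _ (S.hF a ha), S.h0 a ha]
      rw [h4, mul_zero, add_zero]
    linarith
  -- the average of the polynomial
  have hkA : 4 * Real.exp (Real.exp (2 * (3 * T)) * Vr d I q F * (2 * t) ^ 2 - (k + 1)) ≤ 1 / 8 := by
    rw [← hC, ← hV]
    have h1 : C * V * (2 * t) ^ 2 - (k + 1) ≤ -8 := by
      have : C * V * (2 * t) ^ 2 = 4 * C * v := by rw [hv]; ring
      rw [this]
      nlinarith
    have h2 := (Real.exp_le_exp.2 h1).trans exp_neg_eight
    linarith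
  have hkW : (8 + 4 * (Real.exp (2 * (3 * T))) ^ 2 * (t ^ 2 * Vr d I q F)) *
        Real.exp (Real.exp (2 * (3 * T)) * Vr d I q F * (3 * t) ^ 2 - (k + 1)) ≤ 1 / 8 := by
    rw [← hC, ← hV, ← hv]
    have h1 : C * V * (3 * t) ^ 2 - (k + 1) ≤ -(4 * C ^ 2 * v) + -8 := by
      have : C * V * (3 * t) ^ 2 = 9 * C * v := by rw [hv]; ring
      rw [this]
      nlinarith
    have h2 := Real.exp_le_exp.2 h1
    rw [Real.exp_add] at h2
    have h3 : 8 + 4 * C ^ 2 * v ≤ 8 * Real.exp (4 * C ^ 2 * v) := by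
      have := Real.add_one_le_exp (4 * C ^ 2 * v)
      have h4 : 0 ≤ 4 * C ^ 2 * v := by positivity
      linarith
    calc (8 + 4 * C ^ 2 * v) * Real.exp (C * V * (3 * t) ^ 2 - (k + 1)) ≤
          8 * Real.exp (4 * C ^ 2 * v) * (Real.exp (-(4 * C ^ 2 * v)) * Real.exp (-8)) :=
          mul_le_mul h3 h2 (Real.exp_pos _).le (by positivity)
      _ = 8 * Real.exp (-8) := by
          have h5 : Real.exp (4 * C ^ 2 * v) * Real.exp (-(4 * C ^ 2 * v)) = 1 := by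
            rw [← Real.exp_add, add_neg_cancel, Real.exp_zero]
          linear_combination 8 * Real.exp (-8) * h5
      _ ≤ 1 / 8 := by
          have := exp_neg_eight
          linarith
  constructor
  · -- the upper bound
    have h1 := S.A_le (T := 3 * T) k ht0.le (by linarith)
    have h2 := good_A (t := t) (by positivity) (by positivity) hgood k ht0.le 0 (by omega)
    simp only [pow_zero, one_mul, mul_one] at h2
    have h3 : |Del L I q F (fun s => A k (t * s))| ≤ 1 / 8 := h2.trans hE2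
    have h4 : (∑ n ∈ bx L, A k (t * ∑ a ∈ I, F a n)) / (∏ i, (L i : ℝ)) ≤ 5 / 4 * Real.exp (Psi d I q F t) := by
      have h5 : (∑ n ∈ bx L, A k (t * ∑ a ∈ I, F a n)) / (∏ i, (L i : ℝ)) =
        Del L I q F (fun s => A k (t * s)) + Em d I q F (fun s => A k (t * s)) := by
        unfold Del Em
        ring
      rw [h5]
      linarith [(abs_le.1 h3).2]
    have h5 : 1 / 2 * Real.exp (t * m) ≤ A k (t * m) := by
      have h6 := A_close k (t * m)
      have htm0 : 0 ≤ t * m := mul_nonneg ht0.le hm0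
      rw [abs_of_nonneg htm0] at h6
      have h7 : 2 * Real.exp (2 * (t * m) - (k + 1)) ≤ 1 / 2 * Real.exp (t * m) := by
        have h8 : 2 * (t * m) - (k + 1) ≤ t * m + -8 := by nlinarith
        have h9 := Real.exp_le_exp.2 h8
        rw [Real.exp_add] at h9
        have h10 := exp_neg_eight
        have h11 : Real.exp (t * m) * Real.exp (-8) ≤ Real.exp (t * m) * (1 / 256) :=
          mul_le_mul_of_nonneg_left h10 (Real.exp_pos _).le
        linarith [Real.exp_pos (t * m)]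
      linarith [(abs_le.1 h6).1]
    have h6 : (((bx L).filter fun n => m ≤ ∑ a ∈ I, F a n).card : ℝ) * A k (t * m) ≤ ∑ n ∈ bx L, A k (t * ∑ a ∈ I, F a n) := by
      calc (((bx L).filter fun n => m ≤ ∑ a ∈ I, F a n).card : ℝ) * A k (t * m) =
            ∑ n ∈ (bx L).filter (fun n => m ≤ ∑ a ∈ I, F a n), A k (t * m) := by rw [sum_const, nsmul_eq_mul]
        _ ≤ ∑ n ∈ (bx L).filter (fun n => m ≤ ∑ a ∈ I, F a n), A k (t * ∑ a ∈ I, F a n) := by
            refine sum_le_sum fun n hn => ?_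
            rw [mem_filter] at hn
            exact A_mono (mul_nonneg ht0.le hm0) (mul_le_mul_of_nonneg_left hn.2 ht0.le)
        _ ≤ _ := sum_le_sum_of_subset_of_nonneg (filter_subset _ _) fun n _ _ => A_nonneg _ _
    have h7 : pr L I F (fun s => m ≤ s) * A k (t * m) ≤ 5 / 4 * Real.exp (Psi d I q F t) := by
      refine le_trans ?_ h4
      unfold pr
      rw [div_mul_eq_mul_div]
      exact div_le_div_of_nonneg_right h6 hN0.le
    have hpr0 : 0 ≤ pr L I F (fun s => m ≤ s) := by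
      unfold pr
      positivity
    have h8 : pr L I F (fun s => m ≤ s) * (1 / 2 * Real.exp (t * m)) ≤ 5 / 4 * Real.exp (Psi d I q F t) :=
      (mul_le_mul_of_nonneg_left h5 hpr0).trans h7
    rw [← hm, sub_eq_add_neg, Real.exp_add, Real.exp_neg, ← mul_assoc, ← div_eq_mul_inv, le_div_iff₀ (Real.exp_pos _)]
    linarith [Real.exp_pos (Psi d I q F t)]
  · -- the lower bound
    have h1 := S.window (T := 3 * T) (R := R) k ht0 (by linarith) (by rw [← hV, ← hv]; exact hv1) (by rw [hR, hA₁, hC, hV])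
    have h2 := good_window (t := t) (by positivity) (by positivity) hgood k ht0.le hm0 hR0 0 (by omega)
    simp only [pow_zero, one_mul, mul_one] at h2
    have h3 : |Del L I q F (fun s => (1 - (s - m) ^ 2 / R) * A k (t * s))| ≤ 1 / 8 := h2.trans hE1
    have h4 : 1 / 2 * Real.exp (Psi d I q F t) ≤
        (∑ n ∈ bx L, (1 - ((∑ a ∈ I, F a n) - m) ^ 2 / R) * A k (t * ∑ a ∈ I, F a n)) / (∏ i, (L i : ℝ)) := by
      have h5 : (∑ n ∈ bx L, (1 - ((∑ a ∈ I, F a n) - m) ^ 2 / R) * A k (t * ∑ a ∈ I, F a n)) / (∏ i, (L i : ℝ)) =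
        Del L I q F (fun s => (1 - (s - m) ^ 2 / R) * A k (t * s)) + Em d I q F (fun s => (1 - (s - m) ^ 2 / R) * A k (t * s)) := by
        unfold Del Em
        ring
      rw [← hm] at h1
      rw [h5]
      linarith [(abs_le.1 h3).1]
    have hsR : 0 ≤ Real.sqrt R := Real.sqrt_nonneg _
    have hmR : Real.sqrt R ≤ m := by
      refine le_trans ?_ hincr.1
      rw [Real.sqrt_le_left (by positivity), hR]
      have h5 : A₁ ≤ c ^ 2 * v := by
        rw [div_le_iff₀ (by positivity)] at hvv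
        linarith
      calc A₁ * V ≤ c ^ 2 * v * V := mul_le_mul_of_nonneg_right h5 hV0.le
        _ = (c * V * t) ^ 2 := by rw [hv]; ring
    have h6 : ∑ n ∈ bx L, (1 - ((∑ a ∈ I, F a n) - m) ^ 2 / R) * A k (t * ∑ a ∈ I, F a n) ≤
        (((bx L).filter fun n => m - Real.sqrt R ≤ ∑ a ∈ I, F a n).card : ℝ) * Real.exp (t * (m + Real.sqrt R)) := by
      calc ∑ n ∈ bx L, (1 - ((∑ a ∈ I, F a n) - m) ^ 2 / R) * A k (t * ∑ a ∈ I, F a n) ≤
            ∑ n ∈ bx L, if m - Real.sqrt R ≤ ∑ a ∈ I, F a n then Real.exp (t * (m + Real.sqrt R)) else 0 := by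
            refine sum_le_sum fun n _ => ?_
            obtain ⟨s, hs⟩ : ∃ s, s = ∑ a ∈ I, F a n := ⟨_, rfl⟩
            rw [← hs]
            have hbig : Real.sqrt R ≤ |s - m| → (1 - (s - m) ^ 2 / R) * A k (t * s) ≤ 0 := by
              intro h
              refine mul_nonpos_of_nonpos_of_nonneg ?_ (A_nonneg _ _)
              have h7 : R ≤ (s - m) ^ 2 := by
                rw [← sq_abs]
                calc R = Real.sqrt R ^ 2 := (Real.sq_sqrt hR0.le).symm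
                  _ ≤ _ := pow_le_pow_left₀ hsR h 2
              have h8 : 1 ≤ (s - m) ^ 2 / R := (one_le_div hR0).2 h7
              linarith
            by_cases h : m - Real.sqrt R ≤ s
            · rw [if_pos h]
              by_cases h' : s ≤ m + Real.sqrt R
              · have hs0 : 0 ≤ s := by linarith
                have h7 : 1 - (s - m) ^ 2 / R ≤ 1 := by
                  have : 0 ≤ (s - m) ^ 2 / R := by positivity
                  linarith
                calc (1 - (s - m) ^ 2 / R) * A k (t * s) ≤ 1 * A k (t * s) := mul_le_mul_of_nonneg_right h7 (A_nonneg _ _)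
                  _ ≤ Real.exp (t * s) := by
                      rw [one_mul]
                      exact A_le_exp (mul_nonneg ht0.le hs0)
                  _ ≤ _ := Real.exp_le_exp.2 (mul_le_mul_of_nonneg_left h' ht0.le)
              · refine (hbig ?_).trans (Real.exp_pos _).le
                rw [abs_of_nonneg (by linarith)]
                linarith
            · rw [if_neg h]
              refine hbig ?_
              rw [abs_of_nonpos (by linarith)]
              linarith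
        _ = _ := by rw [← sum_filter, sum_const, nsmul_eq_mul]
    have h7 : 1 / 2 * Real.exp (Psi d I q F t) ≤ pr L I F (fun s => m - Real.sqrt R ≤ s) * Real.exp (t * (m + Real.sqrt R)) := by
      refine h4.trans ?_
      unfold pr
      rw [div_mul_eq_mul_div]
      exact div_le_div_of_nonneg_right h6 hN0.le
    have h8 : Real.sqrt (A₁ * v) = t * Real.sqrt R := by
      have : A₁ * v = t ^ 2 * R := by rw [hv, hR]; ring
      rw [this, Real.sqrt_mul (sq_nonneg t), Real.sqrt_sq ht0.le]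
    rw [← hm, h8, ← hR]
    have h9 : Psi d I q F t - t * m - t * Real.sqrt R = Psi d I q F t + -(t * (m + Real.sqrt R)) := by ring
    rw [h9, Real.exp_add, Real.exp_neg, ← mul_assoc, ← div_eq_mul_inv, div_le_iff₀ (Real.exp_pos _)]
    exact h7

end Q69CR
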