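import Pool.Agent.Q69.CR.Z

/-!
# Cramér's theorem for counting functions, moderate deviations in both tails
-/

set_option autoImplicit false
set_option linter.unusedSectionVars false

namespace Q69CR

open Finset
open Q282LT (va zbox zprop zbox_card avg ZPer mean_shift)

/-- the tilted probability -/
noncomputable def bth (p t : ℝ) : ℝ := p * Real.exp t / (1 - p + p * Real.exp t)

/-- the rate -/
noncomputable def brt (p t : ℝ) : ℝ := t * bth p t - Real.log (1 - p + p * Real.exp t)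

lemma bden_pos {p : ℝ} (h0 : 0 ≤ p) (h1 : p ≤ 1) (t : ℝ) : 0 < 1 - p + p * Real.exp t := by
  rcases h0.eq_or_lt with h | h
  · rw [← h]
    norm_num
  · have := mul_pos h (Real.exp_pos t)
    linarith

lemma avg_g {d q : ℕ} (hq : 1 ≤ q) {f : (Fin d → ℤ) → ℝ} (hf : ∀ ν, f ν = 0 ∨ f ν = 1) (g : ℝ → ℝ) :
    avg d q (fun ν => g (f ν)) = (1 - avg d q f) * g 0 + avg d q f * g 1 := by
  have h1 : ∀ ν, g (f ν) = g 0 + f ν * (g 1 - g 0) := by
    intro ν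
    rcases hf ν with h | h
    · rw [h]
      ring
    · rw [h]
      ring
  have hc : ((Fintype.piFinset fun _ : Fin d => range q).card : ℝ) = (q : ℝ) ^ d := by
    rw [Fintype.card_piFinset]
    simp
  have hq0 : ((q : ℝ) ^ d) ≠ 0 := by
    have : (0 : ℝ) < q := by exact_mod_cast hq
    positivity
  unfold avg
  simp only [h1]
  rw [sum_add_distrib, sum_const, nsmul_eq_mul, hc, ← sum_mul]
  field_simp
  ring

lemma avg_bd {d q : ℕ} (hq : 1 ≤ q) {f : (Fin d → ℤ) → ℝ} (hf : ∀ ν, f ν = 0 ∨ f ν = 1) :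
    0 ≤ avg d q f ∧ avg d q f ≤ 1 := by
  have hc : ((Fintype.piFinset fun _ : Fin d => range q).card : ℝ) = (q : ℝ) ^ d := by
    rw [Fintype.card_piFinset]
    simp
  have hq0 : 0 < ((q : ℝ) ^ d) := by
    have : (0 : ℝ) < q := by exact_mod_cast hq
    positivity
  unfold avg
  constructor
  · refine div_nonneg (sum_nonneg fun ν _ => ?_) hq0.le
    rcases hf (fun i => (ν i : ℤ)) with h | h <;> rw [h]
    norm_num
  · rw [div_le_one hq0, ← hc]
    have h1 : ∑ ν ∈ Fintype.piFinset fun _ : Fin d => range q, f (fun i => (ν i : ℤ)) ≤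
        ∑ _ν ∈ Fintype.piFinset fun _ : Fin d => range q, (1 : ℝ) := by
      refine sum_le_sum fun ν _ => ?_
      rcases hf (fun i => (ν i : ℤ)) with h | h <;> rw [h]
      norm_num
    rw [sum_const, nsmul_eq_mul, mul_one] at h1
    exact h1

lemma avg_neg {d q : ℕ} (f : (Fin d → ℤ) → ℝ) : avg d q (fun ν => -f ν) = -avg d q f := by
  unfold avg
  rw [sum_neg_distrib, neg_div]

section one

variable {d q : ℕ} {f : (Fin d → ℤ) → ℝ}

lemma lmg_up (hq : 1 ≤ q) (hf : ∀ ν, f ν = 0 ∨ f ν = 1) (t : ℝ) :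
    lmg d q f t = -(t * avg d q f) + Real.log (1 - avg d q f + avg d q f * Real.exp t) := by
  obtain ⟨h0, h1⟩ := avg_bd (d := d) hq hf
  unfold lmg
  rw [avg_g hq hf (fun z => Real.exp (t * (z - avg d q f)))]
  have e : (1 - avg d q f) * Real.exp (t * (0 - avg d q f)) + avg d q f * Real.exp (t * (1 - avg d q f)) =
      Real.exp (-(t * avg d q f)) * (1 - avg d q f + avg d q f * Real.exp t) := by
    have e1 : t * (1 - avg d q f) = -(t * avg d q f) + t := by ring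
    have e2 : t * (0 - avg d q f) = -(t * avg d q f) := by ring
    rw [e1, e2, Real.exp_add]
    ring
  rw [e, Real.log_mul (Real.exp_pos _).ne' (bden_pos h0 h1 t).ne', Real.log_exp]

lemma tme_up (hq : 1 ≤ q) (hf : ∀ ν, f ν = 0 ∨ f ν = 1) (t : ℝ) : tme d q f t = bth (avg d q f) t - avg d q f := by
  obtain ⟨h0, h1⟩ := avg_bd (d := d) hq hf
  have hD := bden_pos h0 h1 t
  unfold tme
  rw [avg_g hq hf (fun z => Real.exp (t * (z - avg d q f))),
    avg_g hq hf (fun z => (z - avg d q f) * Real.exp (t * (z - avg d q f)))]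
  have e1 : t * (1 - avg d q f) = -(t * avg d q f) + t := by ring
  have e2 : t * (0 - avg d q f) = -(t * avg d q f) := by ring
  rw [e1, e2, Real.exp_add]
  obtain ⟨E, hE⟩ : ∃ E, E = Real.exp (-(t * avg d q f)) := ⟨_, rfl⟩
  have hE0 : E ≠ 0 := by
    rw [hE]
    exact (Real.exp_pos _).ne'
  obtain ⟨P, hP⟩ : ∃ P, P = avg d q f := ⟨_, rfl⟩
  unfold bth
  rw [← hE, ← hP]
  rw [← hP] at hD
  have hD2 : (1 - P) * E + P * (E * Real.exp t) = E * (1 - P + P * Real.exp t) := by ring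
  rw [hD2]
  field_simp
  ring

lemma lmg_lo (hq : 1 ≤ q) (hf : ∀ ν, f ν = 0 ∨ f ν = 1) (t : ℝ) :
    lmg d q (fun ν => -f ν) t = t * avg d q f + Real.log (1 - avg d q f + avg d q f * Real.exp (-t)) := by
  obtain ⟨h0, h1⟩ := avg_bd (d := d) hq hf
  unfold lmg
  rw [avg_neg, avg_g hq hf (fun z => Real.exp (t * (-z - -avg d q f)))]
  have e : (1 - avg d q f) * Real.exp (t * (-0 - -avg d q f)) + avg d q f * Real.exp (t * (-1 - -avg d q f)) =
      Real.exp (t * avg d q f) * (1 - avg d q f + avg d q f * Real.exp (-t)) := by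
    have e1 : t * (-1 - -avg d q f) = t * avg d q f + -t := by ring
    have e2 : t * (-0 - -avg d q f) = t * avg d q f := by ring
    rw [e1, e2, Real.exp_add]
    ring
  rw [e, Real.log_mul (Real.exp_pos _).ne' (bden_pos h0 h1 (-t)).ne', Real.log_exp]

lemma tme_lo (hq : 1 ≤ q) (hf : ∀ ν, f ν = 0 ∨ f ν = 1) (t : ℝ) :
    tme d q (fun ν => -f ν) t = avg d q f - bth (avg d q f) (-t) := by
  obtain ⟨h0, h1⟩ := avg_bd (d := d) hq hf
  have hD := bden_pos h0 h1 (-t)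
  unfold tme
  rw [avg_neg, avg_g hq hf (fun z => Real.exp (t * (-z - -avg d q f))),
    avg_g hq hf (fun z => (-z - -avg d q f) * Real.exp (t * (-z - -avg d q f)))]
  have e1 : t * (-1 - -avg d q f) = t * avg d q f + -t := by ring
  have e2 : t * (-0 - -avg d q f) = t * avg d q f := by ring
  rw [e1, e2, Real.exp_add]
  obtain ⟨E, hE⟩ : ∃ E, E = Real.exp (t * avg d q f) := ⟨_, rfl⟩
  have hE0 : E ≠ 0 := by
    rw [hE]
    exact (Real.exp_pos _).ne'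
  obtain ⟨P, hP⟩ : ∃ P, P = avg d q f := ⟨_, rfl⟩
  unfold bth
  rw [← hE, ← hP]
  rw [← hP] at hD
  have hD2 : (1 - P) * E + P * (E * Real.exp (-t)) = E * (1 - P + P * Real.exp (-t)) := by ring
  rw [hD2]
  field_simp
  ring

lemma sq_avg (hq : 1 ≤ q) (hf : ∀ ν, f ν = 0 ∨ f ν = 1) : avg d q (fun ν => f ν ^ 2) = avg d q f := by
  rw [avg_g hq hf (fun z => z ^ 2)]
  ring

end one

/-- **Cramér's theorem for counting functions**, both tails. -/
theorem cramer_b (T ε : ℝ) (hT : 0 < T) (hε : 0 < ε) : ∃ K v₀ : ℝ, 0 < K ∧ 1 ≤ v₀ ∧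
    ∀ (d : ℕ) (I : Finset ℕ) (q : ℕ → ℕ) (f : ℕ → (Fin d → ℤ) → ℝ), (∀ b ∈ I, 1 ≤ q b) →
      (∀ a ∈ I, ∀ b ∈ I, a ≠ b → Nat.Coprime (q a) (q b)) → (∀ b ∈ I, ZPer (q b) (f b)) → (∀ b ∈ I, ∀ ν, f b ν = 0 ∨ f b ν = 1) →
      ∀ P : ℕ → ℝ, (∀ b ∈ I, avg d (q b) (f b) = P b) → ∀ V : ℝ, V = ∑ b ∈ I, P b * (1 - P b) →
      ∀ t : ℝ, 0 < t → t ≤ T → v₀ ≤ t ^ 2 * V →
      ∀ Y : ℕ, 2 ≤ Y → (∀ a ∈ I, q a ≤ Y) → I.card ≤ Y → ∀ (m : Fin d → ℤ) (L : Fin d → ℕ),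
        (∀ i, (d + 1) * (Y : ℝ) ^ (K * (t ^ 2 * V)) ≤ L i) →
      (Real.exp (-((1 + ε) * ∑ b ∈ I, brt (P b) t)) ≤ zprop m L (fun ν => ∑ b ∈ I, bth (P b) t ≤ ∑ b ∈ I, f b ν) ∧
        zprop m L (fun ν => ∑ b ∈ I, bth (P b) t ≤ ∑ b ∈ I, f b ν) ≤ Real.exp (-((1 - ε) * ∑ b ∈ I, brt (P b) t))) ∧
      (Real.exp (-((1 + ε) * ∑ b ∈ I, brt (P b) (-t))) ≤ zprop m L (fun ν => ∑ b ∈ I, f b ν ≤ ∑ b ∈ I, bth (P b) (-t)) ∧
        zprop m L (fun ν => ∑ b ∈ I, f b ν ≤ ∑ b ∈ I, bth (P b) (-t)) ≤ Real.exp (-((1 - ε) * ∑ b ∈ I, brt (P b) (-t)))) := by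
  obtain ⟨K, v₀, hK, hv₀, h⟩ := cramer_z T ε hT hε
  refine ⟨K, v₀, hK, hv₀, ?_⟩
  intro d I q f hq hco hf h01 P hP V hV t ht0 ht hv Y hY2 hqY hIY m L hL
  have hfn : ∀ b ∈ I, ZPer (q b) (fun ν => -f b ν) := by
    intro b hb ν ν' hνν
    show -f b ν = -f b ν'
    rw [hf b hb ν ν' hνν]
  have hab : ∀ b ∈ I, ∀ ν, |f b ν| ≤ 1 := by
    intro b hb ν
    rcases h01 b hb ν with h1 | h1 <;> rw [h1] <;> norm_num
  constructor
  · have h1 := h d I q f hq hco hf hab V (by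
      rw [hV]
      refine sum_congr rfl fun b hb => ?_
      rw [sq_avg (hq b hb) (h01 b hb), hP b hb]
      ring) t ht0 ht hv Y hY2 hqY hIY m L hL
    have e1 : ∑ b ∈ I, avg d (q b) (f b) + ∑ b ∈ I, tme d (q b) (f b) t = ∑ b ∈ I, bth (P b) t := by
      rw [← sum_add_distrib]
      refine sum_congr rfl fun b hb => ?_
      rw [tme_up (hq b hb) (h01 b hb), hP b hb]
      ring
    have e2 : t * (∑ b ∈ I, tme d (q b) (f b) t) - ∑ b ∈ I, lmg d (q b) (f b) t = ∑ b ∈ I, brt (P b) t := by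
      rw [mul_sum, ← sum_sub_distrib]
      refine sum_congr rfl fun b hb => ?_
      rw [tme_up (hq b hb) (h01 b hb), lmg_up (hq b hb) (h01 b hb), hP b hb]
      unfold brt
      ring
    rw [e1, e2] at h1
    exact h1
  · have h1 := h d I q (fun b ν => -f b ν) hq hco hfn (fun b hb ν => by rw [abs_neg]; exact hab b hb ν) V (by
      rw [hV]
      refine sum_congr rfl fun b hb => ?_
      have e0 : (fun ν => (-f b ν) ^ 2) = fun ν => f b ν ^ 2 := by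
        funext ν
        ring
      show P b * (1 - P b) = avg d (q b) (fun ν => (-f b ν) ^ 2) - avg d (q b) (fun ν => -f b ν) ^ 2
      rw [e0, avg_neg, sq_avg (hq b hb) (h01 b hb), hP b hb]
      ring) t ht0 ht hv Y hY2 hqY hIY m L hL
    have e1 : ∑ b ∈ I, avg d (q b) (fun ν => -f b ν) + ∑ b ∈ I, tme d (q b) (fun ν => -f b ν) t = -∑ b ∈ I, bth (P b) (-t) := by
      rw [← sum_add_distrib, ← sum_neg_distrib]
      refine sum_congr rfl fun b hb => ?_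
      rw [tme_lo (hq b hb) (h01 b hb), avg_neg, hP b hb]
      ring
    have e2 : t * (∑ b ∈ I, tme d (q b) (fun ν => -f b ν) t) - ∑ b ∈ I, lmg d (q b) (fun ν => -f b ν) t = ∑ b ∈ I, brt (P b) (-t) := by
      rw [mul_sum, ← sum_sub_distrib]
      refine sum_congr rfl fun b hb => ?_
      rw [tme_lo (hq b hb) (h01 b hb), lmg_lo (hq b hb) (h01 b hb), hP b hb]
      unfold brt
      ring
    have e3 : (fun ν => -∑ b ∈ I, bth (P b) (-t) ≤ ∑ b ∈ I, -f b ν) = fun ν => ∑ b ∈ I, f b ν ≤ ∑ b ∈ I, bth (P b) (-t) := by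
      funext ν
      rw [sum_neg_distrib, neg_le_neg_iff]
    rw [e1, e2, e3] at h1
    exact h1

/-- **Moderate deviations over boxes of integers**, both tails. -/
theorem mdp_two (ε : ℝ) (hε : 0 < ε) : ∃ K y₀ δ : ℝ, 0 < K ∧ 1 ≤ y₀ ∧ 0 < δ ∧
    ∀ (d : ℕ) (I : Finset ℕ) (q : ℕ → ℕ) (f : ℕ → (Fin d → ℤ) → ℝ), (∀ b ∈ I, 1 ≤ q b) →
      (∀ a ∈ I, ∀ b ∈ I, a ≠ b → Nat.Coprime (q a) (q b)) → (∀ b ∈ I, ZPer (q b) (f b)) → (∀ b ∈ I, ∀ ν, |f b ν| ≤ 1) →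
      ∀ M V : ℝ, M = ∑ b ∈ I, avg d (q b) (f b) → V = ∑ b ∈ I, (avg d (q b) (fun ν => f b ν ^ 2) - avg d (q b) (f b) ^ 2) →
      ∀ y : ℝ, y₀ ≤ y → y ≤ δ * Real.sqrt V →
      ∀ Y : ℕ, 2 ≤ Y → (∀ a ∈ I, q a ≤ Y) → I.card ≤ Y → ∀ (m : Fin d → ℤ) (L : Fin d → ℕ),
        (∀ i, (d + 1) * (Y : ℝ) ^ (K * y ^ 2) ≤ L i) →
      (Real.exp (-((1 + ε) * (y ^ 2 / 2))) ≤ zprop m L (fun ν => M + y * Real.sqrt V ≤ ∑ b ∈ I, f b ν) ∧
        zprop m L (fun ν => M + y * Real.sqrt V ≤ ∑ b ∈ I, f b ν) ≤ Real.exp (-((1 - ε) * (y ^ 2 / 2)))) ∧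
      (Real.exp (-((1 + ε) * (y ^ 2 / 2))) ≤ zprop m L (fun ν => ∑ b ∈ I, f b ν ≤ M - y * Real.sqrt V) ∧
        zprop m L (fun ν => ∑ b ∈ I, f b ν ≤ M - y * Real.sqrt V) ≤ Real.exp (-((1 - ε) * (y ^ 2 / 2)))) := by
  obtain ⟨K, y₀, δ, hK, hy₀, hδ, h⟩ := mdp_z ε hε
  refine ⟨K, y₀, δ, hK, hy₀, hδ, ?_⟩
  intro d I q f hq hco hf hb M V hM hV y hy hyV Y hY2 hqY hIY m L hL
  constructor
  · have h1 := h d I q f hq hco hf hb V hV y hy hyV Y hY2 hqY hIY m L hL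
    rw [← hM] at h1
    exact h1
  · have h1 := h d I q (fun b ν => -f b ν) hq hco (fun b hb' ν ν' hνν => by
      show -f b ν = -f b ν'
      rw [hf b hb' ν ν' hνν]) (fun b hb' ν => by rw [abs_neg]; exact hb b hb' ν) V (by
      rw [hV]
      refine sum_congr rfl fun b _ => ?_
      have e0 : (fun ν => (-f b ν) ^ 2) = fun ν => f b ν ^ 2 := by
        funext ν
        ring
      show _ = avg d (q b) (fun ν => (-f b ν) ^ 2) - avg d (q b) (fun ν => -f b ν) ^ 2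
      rw [e0, avg_neg]
      ring) y hy hyV Y hY2 hqY hIY m L hL
    have e1 : ∑ b ∈ I, avg d (q b) (fun ν => -f b ν) = -M := by
      rw [hM, ← sum_neg_distrib]
      exact sum_congr rfl fun b _ => avg_neg _
    have e3 : (fun ν => -M + y * Real.sqrt V ≤ ∑ b ∈ I, -f b ν) = fun ν => ∑ b ∈ I, f b ν ≤ M - y * Real.sqrt V := by
      funext ν
      rw [sum_neg_distrib]
      refine propext ?_
      constructor <;> intro h <;> linarith
    rw [e1, e3] at h1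
    exact h1

end Q69CR
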