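import Pool.Agent.Q69.CR.Base

/-!
# Cramér's theorem and moderate deviations over boxes
-/

set_option autoImplicit false
set_option linter.unusedSectionVars false

namespace Q69CR

open Finset
open Q282LT
open Q282.BP (bx mem_bx card_bx bx_mean mean_mul_period)
open Pool.Agent.TH894.NE (box mem_box card_box Per mean mean_mul mean_mono mean_add mean_const mean_prod)

lemma pr_mono {d : ℕ} {L : Fin d → ℕ} {I : Finset ℕ} {F : ℕ → (Fin d → ℕ) → ℝ} {P P' : ℝ → Prop} (h : ∀ s, P s → P' s) :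
    pr L I F P ≤ pr L I F P' := by
  classical
  unfold pr
  refine div_le_div_of_nonneg_right ?_ (prod_nonneg fun i _ => Nat.cast_nonneg _)
  have : ((bx L).filter fun n => P (∑ a ∈ I, F a n)) ⊆ (bx L).filter fun n => P' (∑ a ∈ I, F a n) := by
    intro n hn
    rw [mem_filter] at hn ⊢
    exact ⟨hn.1, h _ hn.2⟩
  exact_mod_cast card_le_card this

/-- **Cramér's theorem over boxes**, upper tail. -/
theorem cramer (T ε : ℝ) (hT : 0 < T) (hε : 0 < ε) : ∃ K v₀ : ℝ, 0 < K ∧ 1 ≤ v₀ ∧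
    ∀ (d : ℕ) (I : Finset ℕ) (q : ℕ → ℕ) (F : ℕ → (Fin d → ℕ) → ℝ),
    Sys d I q F → ∀ t : ℝ, 0 < t → t ≤ T → v₀ ≤ t ^ 2 * Vr d I q F →
      ∀ Y : ℕ, 2 ≤ Y → (∀ a ∈ I, q a ≤ Y) → I.card ≤ Y → ∀ L : Fin d → ℕ,
        (∀ i, (d + 1) * (Y : ℝ) ^ (K * (t ^ 2 * Vr d I q F)) ≤ L i) →
      Real.exp (-((1 + ε) * (t * mu1 d I q F t - Psi d I q F t))) ≤ pr L I F (fun s => mu1 d I q F t ≤ s) ∧
      pr L I F (fun s => mu1 d I q F t ≤ s) ≤ Real.exp (-((1 - ε) * (t * mu1 d I q F t - Psi d I q F t))) := by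
  obtain ⟨K, v₀, hK, hv₀, hbase⟩ := base (2 * T) (by linarith)
  obtain ⟨C, hC⟩ : ∃ C, C = Real.exp (2 * (2 * T)) := ⟨_, rfl⟩
  have hC1 : 1 ≤ C := by
    rw [hC]
    exact Real.one_le_exp (by linarith)
  obtain ⟨c, hcc⟩ : ∃ c, c = Real.exp (-(4 * (2 * T))) := ⟨_, rfl⟩
  have hc0 : 0 < c := by rw [hcc]; exact Real.exp_pos _
  obtain ⟨A₁, hA₁⟩ : ∃ A₁, A₁ = 16 * Real.exp (Real.exp (2 * (3 * (2 * T)))) := ⟨_, rfl⟩
  have hA0 : 0 < A₁ := by rw [hA₁]; positivity
  rw [← hA₁] at hbase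
  obtain ⟨θ, hθ⟩ : ∃ θ, θ = min 1 (ε * c / (16 * C)) := ⟨_, rfl⟩
  have hθ0 : 0 < θ := by rw [hθ]; positivity
  have hθ1 : θ ≤ 1 := by rw [hθ]; exact min_le_left _ _
  have hθ2 : 2 * C * θ ≤ ε * c / 8 := by
    have h1 : θ ≤ ε * c / (16 * C) := by rw [hθ]; exact min_le_right _ _
    rw [le_div_iff₀ (by positivity)] at h1
    linarith
  refine ⟨4 * K, max v₀ (max (8 / (ε * c)) (max (A₁ / (c * θ) ^ 2) (256 * A₁ / (ε * c) ^ 2))), by positivity,
    hv₀.trans (le_max_left _ _), ?_⟩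
  intro d I q F S t ht0 ht hvv Y hY2 hqY hIY L hL
  obtain ⟨V, hV⟩ : ∃ V, V = Vr d I q F := ⟨_, rfl⟩
  obtain ⟨v, hv⟩ : ∃ v, v = t ^ 2 * V := ⟨_, rfl⟩
  rw [← hV, ← hv] at hvv hL
  have hv1 : v₀ ≤ v := (le_max_left _ _).trans hvv
  have hv2 : 8 / (ε * c) ≤ v := (le_max_left _ _).trans ((le_max_right _ _).trans hvv)
  have hv3 : A₁ / (c * θ) ^ 2 ≤ v := (le_max_left _ _).trans ((le_max_right _ _).trans ((le_max_right _ _).trans hvv))
  have hv4 : 256 * A₁ / (ε * c) ^ 2 ≤ v := (le_max_right _ _).trans ((le_max_right _ _).trans ((le_max_right _ _).trans hvv))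
  rw [div_le_iff₀ (by positivity)] at hv2 hv3 hv4
  have hv0 : 1 ≤ v := hv₀.trans hv1
  have hV0 : 0 < V := by
    by_contra h
    push Not at h
    have : t ^ 2 * V ≤ 0 := mul_nonpos_of_nonneg_of_nonpos (sq_nonneg t) h
    linarith
  have hYr : (1 : ℝ) ≤ Y := by
    have : (2 : ℝ) ≤ Y := by exact_mod_cast hY2
    linarith
  have hlow : ∀ u : ℝ, |u| ≤ 2 * T → c * V ≤ mu2 d I q F u := fun u hu => by rw [hcc, hV]; exact (S.mu2_bounds u hu).1
  have hupp : ∀ u : ℝ, |u| ≤ 2 * T → mu2 d I q F u ≤ C * V := fun u hu => by rw [hC, hV]; exact (S.mu2_bounds u hu).2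
  have hrate := (rate_bounds (P := Psi d I q F) (m := mu1 d I q F) (s := mu2 d I q F) (T := 2 * T)
    (Psi_deriv S.hq S.h0) (mu1_deriv S.hq S.h0) (Psi_zero S.hq) hlow hupp ht0.le (by linarith)).1
  obtain ⟨J, hJ⟩ : ∃ J, J = t * mu1 d I q F t - Psi d I q F t := ⟨_, rfl⟩
  rw [← hJ] at hrate ⊢
  have hJv : c * v / 2 ≤ J := by
    refine le_trans (le_of_eq ?_) hrate
    rw [hv]
    ring
  have hεJ : ε * c * v / 2 ≤ ε * J := by
    have := mul_le_mul_of_nonneg_left hJv hε.le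
    linarith
  have he1 : (2 : ℝ) ≤ Real.exp 1 := by
    have := Real.add_one_le_exp (1 : ℝ)
    linarith
  constructor
  · -- the lower bound
    obtain ⟨t', ht'⟩ : ∃ t', t' = (1 + θ) * t := ⟨_, rfl⟩
    have ht'0 : 0 < t' := by rw [ht']; positivity
    have htt' : t ≤ t' := by rw [ht']; nlinarith
    have ht'T : t' ≤ 2 * T := by rw [ht']; nlinarith
    have hv' : t' ^ 2 * V = (1 + θ) ^ 2 * v := by rw [ht', hv]; ring
    have hv'4 : t' ^ 2 * V ≤ 4 * v := by
      rw [hv']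
      have : (1 + θ) ^ 2 ≤ 4 := by nlinarith
      nlinarith
    have hv'1 : v₀ ≤ t' ^ 2 * V := by
      rw [hv']
      have : 1 ≤ (1 + θ) ^ 2 := by nlinarith
      nlinarith
    have h1 := (hbase d I q F S t' ht'0 ht'T (by rw [← hV]; exact hv'1) Y hY2 hqY hIY L (fun i => by
      refine le_trans (mul_le_mul_of_nonneg_left (Real.rpow_le_rpow_of_exponent_le hYr ?_) (by positivity)) (hL i)
      rw [← hV]
      nlinarith)).2
    rw [← hV] at h1
    have h2 := incr (m := mu1 d I q F) (s := mu2 d I q F) (mu1_deriv S.hq S.h0) hlow hupp (x := t) (y := t') (by linarith) htt' ht'T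
    have h3 := rate_incr (P := Psi d I q F) (m := mu1 d I q F) (s := mu2 d I q F) (Psi_deriv S.hq S.h0) (mu1_deriv S.hq S.h0)
      (by positivity : 0 ≤ C * V) hupp ht0.le htt' ht'T
    rw [← hJ] at h3
    have h4 : Real.sqrt (A₁ * V) ≤ mu1 d I q F t' - mu1 d I q F t := by
      refine le_trans ?_ h2.1
      rw [Real.sqrt_le_left (mul_nonneg (by positivity) (by linarith))]
      have h5 : c * V * (t' - t) = (c * θ) * (V * t) := by rw [ht']; ring
      rw [h5]
      calc A₁ * V ≤ v * (c * θ) ^ 2 * V := mul_le_mul_of_nonneg_right hv3 hV0.le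
        _ = (c * θ * (V * t)) ^ 2 := by rw [hv]; ring
    have h5 : pr L I F (fun s => mu1 d I q F t' - Real.sqrt (A₁ * V) ≤ s) ≤ pr L I F (fun s => mu1 d I q F t ≤ s) :=
      pr_mono fun s hs => by linarith
    have h6 : Real.sqrt (A₁ * (t' ^ 2 * V)) ≤ ε * c / 8 * v := by
      rw [Real.sqrt_le_left (by positivity)]
      calc A₁ * (t' ^ 2 * V) ≤ A₁ * (4 * v) := mul_le_mul_of_nonneg_left hv'4 hA0.le
        _ = 256 * A₁ * v / 64 := by ring
        _ ≤ (v * (ε * c) ^ 2) * v / 64 := by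
            refine div_le_div_of_nonneg_right (mul_le_mul_of_nonneg_right hv4 (by linarith)) (by norm_num)
        _ = (ε * c / 8 * v) ^ 2 := by ring
    have h7 : C * V * t' * (t' - t) ≤ ε * c / 8 * v := by
      have h8 : C * V * t' * (t' - t) = C * θ * (1 + θ) * v := by rw [ht', hv]; ring
      rw [h8]
      have h9 : C * θ * (1 + θ) ≤ 2 * C * θ := by
        have : 0 ≤ C * θ := by positivity
        nlinarith
      calc C * θ * (1 + θ) * v ≤ 2 * C * θ * v := mul_le_mul_of_nonneg_right h9 (by linarith)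
        _ ≤ _ := mul_le_mul_of_nonneg_right hθ2 (by linarith)
    refine le_trans ?_ (h1.trans h5)
    have h8 : Real.exp (-1) ≤ 1 / 2 := by
      rw [Real.exp_neg, ← one_div]
      exact one_div_le_one_div_of_le (by norm_num) he1
    calc Real.exp (-((1 + ε) * J)) ≤
          Real.exp (-1 + (Psi d I q F t' - t' * mu1 d I q F t' - Real.sqrt (A₁ * (t' ^ 2 * V)))) := by
          refine Real.exp_le_exp.2 ?_
          obtain ⟨w, hw⟩ : ∃ w, w = ε * c * v := ⟨_, rfl⟩
          have e1 : ε * c / 8 * v = w / 8 := by rw [hw]; ring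
          have e2 : v * (ε * c) = w := by rw [hw]; ring
          rw [e1] at h6 h7
          rw [e2] at hv2
          rw [← hw] at hεJ
          have e3 : (1 + ε) * J = J + ε * J := by ring
          rw [e3]
          linarith
      _ ≤ _ := by
          rw [Real.exp_add]
          exact mul_le_mul_of_nonneg_right h8 (Real.exp_pos _).le
  · -- the upper bound
    have h1 := (hbase d I q F S t ht0 (by linarith) (by rw [← hV, ← hv]; exact hv1) Y hY2 hqY hIY L (fun i => by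
      refine le_trans (mul_le_mul_of_nonneg_left (Real.rpow_le_rpow_of_exponent_le hYr ?_) (by positivity)) (hL i)
      rw [← hV, ← hv]
      nlinarith)).1
    refine h1.trans ?_
    have h2 : (4 : ℝ) ≤ Real.exp 2 := by
      calc (4 : ℝ) = 2 ^ 2 := by norm_num
        _ ≤ Real.exp 1 ^ 2 := pow_le_pow_left₀ (by norm_num) he1 2
        _ = Real.exp 2 := by
            rw [← Real.exp_nat_mul]
            norm_num
    calc 4 * Real.exp (Psi d I q F t - t * mu1 d I q F t) ≤ Real.exp 2 * Real.exp (Psi d I q F t - t * mu1 d I q F t) :=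
          mul_le_mul_of_nonneg_right h2 (Real.exp_pos _).le
      _ ≤ _ := by
          rw [← Real.exp_add]
          refine Real.exp_le_exp.2 ?_
          nlinarith

/-- **Moderate deviations over boxes**, upper tail. -/
theorem mdp (ε : ℝ) (hε : 0 < ε) : ∃ K y₀ δ : ℝ, 0 < K ∧ 1 ≤ y₀ ∧ 0 < δ ∧
    ∀ (d : ℕ) (I : Finset ℕ) (q : ℕ → ℕ) (F : ℕ → (Fin d → ℕ) → ℝ),
    Sys d I q F → ∀ y : ℝ, y₀ ≤ y → y ≤ δ * Real.sqrt (Vr d I q F) →
      ∀ Y : ℕ, 2 ≤ Y → (∀ a ∈ I, q a ≤ Y) → I.card ≤ Y → ∀ L : Fin d → ℕ,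
        (∀ i, (d + 1) * (Y : ℝ) ^ (K * y ^ 2) ≤ L i) →
      Real.exp (-((1 + ε) * (y ^ 2 / 2))) ≤ pr L I F (fun s => y * Real.sqrt (Vr d I q F) ≤ s) ∧
      pr L I F (fun s => y * Real.sqrt (Vr d I q F) ≤ s) ≤ Real.exp (-((1 - ε) * (y ^ 2 / 2))) := by
  obtain ⟨e, he⟩ : ∃ e, e = min ε 1 := ⟨_, rfl⟩
  have he0 : 0 < e := by rw [he]; positivity
  have he1 : e ≤ 1 := by rw [he]; exact min_le_right _ _
  have heε : e ≤ ε := by rw [he]; exact min_le_left _ _
  obtain ⟨T, hT⟩ : ∃ T, T = Real.log (1 + e / 4) / 10 := ⟨_, rfl⟩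
  have hT0 : 0 < T := by
    rw [hT]
    have : 0 < Real.log (1 + e / 4) := Real.log_pos (by linarith)
    positivity
  obtain ⟨C, hC⟩ : ∃ C, C = Real.exp (2 * T) := ⟨_, rfl⟩
  obtain ⟨c, hc⟩ : ∃ c, c = Real.exp (-(4 * T)) := ⟨_, rfl⟩
  have hC1 : 1 ≤ C := by rw [hC]; exact Real.one_le_exp (by linarith)
  have hc0 : 0 < c := by rw [hc]; exact Real.exp_pos _
  have hc1 : c ≤ 1 := by rw [hc]; exact Real.exp_le_one_iff.2 (by linarith)
  have hCc : C / c ^ 2 ≤ 1 + e / 4 := by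
    have h1 : C / c ^ 2 = Real.exp (10 * T) := by
      rw [hC, hc, ← Real.exp_nat_mul, ← Real.exp_sub]
      congr 1
      push_cast
      ring
    rw [h1, hT, mul_div_cancel₀ _ (by norm_num : (10 : ℝ) ≠ 0), Real.exp_log (by linarith)]
  have hcC : 1 - e / 4 ≤ c / C ^ 2 := by
    have h1 : c / C ^ 2 = Real.exp (-(8 * T)) := by
      rw [hC, hc, ← Real.exp_nat_mul, ← Real.exp_sub]
      congr 1
      push_cast
      ring
    have h2 : Real.exp (8 * T) ≤ 1 + e / 4 := by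
      calc Real.exp (8 * T) ≤ Real.exp (10 * T) := Real.exp_le_exp.2 (by linarith)
        _ = 1 + e / 4 := by
            rw [hT, mul_div_cancel₀ _ (by norm_num : (10 : ℝ) ≠ 0), Real.exp_log (by linarith)]
    rw [h1, Real.exp_neg, ← one_div, le_div_iff₀ (Real.exp_pos _)]
    calc (1 - e / 4) * Real.exp (8 * T) ≤ (1 - e / 4) * (1 + e / 4) := mul_le_mul_of_nonneg_left h2 (by linarith)
      _ ≤ 1 := by nlinarith
  obtain ⟨K, v₀, hK, hv₀, hcr⟩ := cramer T (e / 4) hT0 (by linarith)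
  refine ⟨K / c ^ 2, C * v₀, c * T, by positivity, by nlinarith, by positivity, ?_⟩
  intro d I q F S y hy hyV Y hY2 hqY hIY L hL
  obtain ⟨V, hV⟩ : ∃ V, V = Vr d I q F := ⟨_, rfl⟩
  rw [← hV] at hyV ⊢
  have hy1 : 1 ≤ y := le_trans (by nlinarith) hy
  have hsV : 0 < Real.sqrt V := by
    by_contra h
    push Not at h
    have : c * T * Real.sqrt V ≤ 0 := mul_nonpos_of_nonneg_of_nonpos (by positivity) h
    linarith
  have hV0 : 0 < V := Real.sqrt_pos.1 hsV
  have hVV : Real.sqrt V ^ 2 = V := Real.sq_sqrt hV0.le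
  have hYr : (1 : ℝ) ≤ Y := by
    have : (2 : ℝ) ≤ Y := by exact_mod_cast hY2
    linarith
  have hlow : ∀ u : ℝ, |u| ≤ T → c * V ≤ mu2 d I q F u := fun u hu => by rw [hc, hV]; exact (S.mu2_bounds u hu).1
  have hupp : ∀ u : ℝ, |u| ≤ T → mu2 d I q F u ≤ C * V := fun u hu => by rw [hC, hV]; exact (S.mu2_bounds u hu).2
  have hyy : v₀ ≤ y ^ 2 / C ^ 2 := by
    rw [le_div_iff₀ (by positivity)]
    have h1 : (C * v₀) ^ 2 ≤ y ^ 2 := pow_le_pow_left₀ (by positivity) hy 2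
    nlinarith [sq_nonneg C]
  constructor
  · obtain ⟨t, ht⟩ : ∃ t, t = y / (c * Real.sqrt V) := ⟨_, rfl⟩
    have ht0 : 0 < t := by rw [ht]; positivity
    have htT : t ≤ T := by
      rw [ht, div_le_iff₀ (by positivity)]
      linarith
    have htV : t ^ 2 * V = y ^ 2 / c ^ 2 := by
      rw [ht, div_pow, mul_pow, hVV]
      field_simp
    have hv : v₀ ≤ t ^ 2 * V := by
      rw [htV]
      refine hyy.trans (div_le_div_of_nonneg_left (sq_nonneg y) (by positivity) ?_)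
      nlinarith
    have h1 := (hcr d I q F S t ht0 htT (by rw [← hV]; exact hv) Y hY2 hqY hIY L (fun i => by
      refine le_trans (le_of_eq ?_) (hL i)
      rw [← hV, htV]
      congr 2
      ring)).1
    have h2 := (incr (m := mu1 d I q F) (s := mu2 d I q F) (mu1_deriv S.hq S.h0) hlow hupp (x := 0) (y := t)
      (by linarith) ht0.le htT).1
    rw [mu1_zero S.h0, sub_zero, sub_zero] at h2
    have h3 : c * V * t = y * Real.sqrt V := by
      calc c * V * t = c * Real.sqrt V ^ 2 * (y / (c * Real.sqrt V)) := by rw [hVV, ht]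
        _ = y * Real.sqrt V := by field_simp
    have h4 := (rate_bounds (P := Psi d I q F) (m := mu1 d I q F) (s := mu2 d I q F) (T := T)
      (Psi_deriv S.hq S.h0) (mu1_deriv S.hq S.h0) (Psi_zero S.hq) hlow hupp ht0.le htT).2
    have h5 : C * V * t ^ 2 / 2 ≤ (1 + e / 4) * (y ^ 2 / 2) := by
      have h6 : C * V * t ^ 2 / 2 = C / c ^ 2 * (y ^ 2 / 2) := by
        have : C * V * t ^ 2 / 2 = C * (t ^ 2 * V) / 2 := by ring
        rw [this, htV]
        ring
      rw [h6]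
      exact mul_le_mul_of_nonneg_right hCc (by positivity)
    refine le_trans ?_ (h1.trans (pr_mono fun s hs => by linarith))
    refine Real.exp_le_exp.2 ?_
    obtain ⟨J, hJ⟩ : ∃ J, J = t * mu1 d I q F t - Psi d I q F t := ⟨_, rfl⟩
    rw [← hJ] at h4 ⊢
    obtain ⟨z, hz⟩ : ∃ z, z = y ^ 2 / 2 := ⟨_, rfl⟩
    have hz0 : 0 ≤ z := by rw [hz]; positivity
    rw [← hz] at h5 ⊢
    have h6 : (1 + e / 4) * J ≤ (1 + e / 4) * ((1 + e / 4) * z) := mul_le_mul_of_nonneg_left (h4.trans h5) (by linarith)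
    have h7 : (1 + e / 4) * ((1 + e / 4) * z) ≤ (1 + ε) * z := by
      rw [← mul_assoc]
      refine mul_le_mul_of_nonneg_right ?_ hz0
      nlinarith
    linarith
  · obtain ⟨t, ht⟩ : ∃ t, t = y / (C * Real.sqrt V) := ⟨_, rfl⟩
    have ht0 : 0 < t := by rw [ht]; positivity
    have htT : t ≤ T := by
      rw [ht, div_le_iff₀ (by positivity)]
      have h1 : c * T * Real.sqrt V ≤ T * (C * Real.sqrt V) := by
        have h2 : c * (T * Real.sqrt V) ≤ C * (T * Real.sqrt V) := mul_le_mul_of_nonneg_right (by linarith) (by positivity)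
        linarith
      linarith
    have htV : t ^ 2 * V = y ^ 2 / C ^ 2 := by
      rw [ht, div_pow, mul_pow, hVV]
      field_simp
    have h1 := (hcr d I q F S t ht0 htT (by rw [← hV, htV]; exact hyy) Y hY2 hqY hIY L (fun i => by
      refine le_trans (mul_le_mul_of_nonneg_left (Real.rpow_le_rpow_of_exponent_le hYr ?_) (by positivity)) (hL i)
      rw [← hV, htV]
      have h2 : y ^ 2 / C ^ 2 ≤ y ^ 2 / c ^ 2 := div_le_div_of_nonneg_left (sq_nonneg y) (by positivity) (by nlinarith)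
      calc K * (y ^ 2 / C ^ 2) ≤ K * (y ^ 2 / c ^ 2) := mul_le_mul_of_nonneg_left h2 hK.le
        _ = K / c ^ 2 * y ^ 2 := by ring)).2
    have h2 := (incr (m := mu1 d I q F) (s := mu2 d I q F) (mu1_deriv S.hq S.h0) hlow hupp (x := 0) (y := t)
      (by linarith) ht0.le htT).2
    rw [mu1_zero S.h0, sub_zero, sub_zero] at h2
    have h3 : C * V * t = y * Real.sqrt V := by
      have hC0 : 0 < C := by linarith
      calc C * V * t = C * Real.sqrt V ^ 2 * (y / (C * Real.sqrt V)) := by rw [hVV, ht]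
        _ = y * Real.sqrt V := by field_simp
    have h4 := (rate_bounds (P := Psi d I q F) (m := mu1 d I q F) (s := mu2 d I q F) (T := T)
      (Psi_deriv S.hq S.h0) (mu1_deriv S.hq S.h0) (Psi_zero S.hq) hlow hupp ht0.le htT).1
    have h5 : (1 - e / 4) * (y ^ 2 / 2) ≤ c * V * t ^ 2 / 2 := by
      have h6 : c * V * t ^ 2 / 2 = c / C ^ 2 * (y ^ 2 / 2) := by
        have : c * V * t ^ 2 / 2 = c * (t ^ 2 * V) / 2 := by ring
        rw [this, htV]
        ring
      rw [h6]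
      exact mul_le_mul_of_nonneg_right hcC (by positivity)
    refine le_trans (pr_mono fun s hs => by linarith) (h1.trans ?_)
    refine Real.exp_le_exp.2 ?_
    obtain ⟨J, hJ⟩ : ∃ J, J = t * mu1 d I q F t - Psi d I q F t := ⟨_, rfl⟩
    rw [← hJ] at h4 ⊢
    obtain ⟨z, hz⟩ : ∃ z, z = y ^ 2 / 2 := ⟨_, rfl⟩
    have hz0 : 0 ≤ z := by rw [hz]; positivity
    rw [← hz] at h5 ⊢
    have h6 : (1 - e / 4) * ((1 - e / 4) * z) ≤ (1 - e / 4) * J := mul_le_mul_of_nonneg_left (h5.trans h4) (by linarith)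
    have h7 : (1 - ε) * z ≤ (1 - e / 4) * ((1 - e / 4) * z) := by
      rw [← mul_assoc]
      refine mul_le_mul_of_nonneg_right ?_ hz0
      nlinarith
    linarith

end Q69CR
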