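import Mathlib

/-!
# Truncated exponential series
-/

set_option autoImplicit false

namespace Q69CR

open Finset

/-- the truncated exponential series -/
noncomputable def E (k : ℕ) (w : ℝ) : ℝ := ∑ j ∈ range (k + 1), w ^ j / (j.factorial : ℝ)

lemma tail_le (w : ℝ) (hw : 0 ≤ w) (n : ℕ) : Real.exp w - ∑ j ∈ range n, w ^ j / (j.factorial : ℝ) ≤ Real.exp (3 * w - n) := by
  have hs : ∀ x : ℝ, HasSum (fun j : ℕ => x ^ j / (j.factorial : ℝ)) (Real.exp x) := by
    intro x
    have h := NormedSpace.expSeries_div_hasSum_exp x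
    rwa [← Real.exp_eq_exp_ℝ] at h
  have h1 : Real.exp w - ∑ j ∈ range n, w ^ j / (j.factorial : ℝ) = ∑' j : ℕ, w ^ (j + n) / ((j + n).factorial : ℝ) := by
    rw [← (hs w).tsum_eq, ← (hs w).summable.sum_add_tsum_nat_add n]
    ring
  have h2 : Real.exp (3 * w) - ∑ j ∈ range n, (3 * w) ^ j / (j.factorial : ℝ) =
      ∑' j : ℕ, (3 * w) ^ (j + n) / ((j + n).factorial : ℝ) := by
    rw [← (hs (3 * w)).tsum_eq, ← (hs (3 * w)).summable.sum_add_tsum_nat_add n]
    ring
  have hs1 : Summable fun j : ℕ => w ^ (j + n) / ((j + n).factorial : ℝ) := (summable_nat_add_iff n).2 (hs w).summable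
  have hs2 : Summable fun j : ℕ => (3 * w) ^ (j + n) / ((j + n).factorial : ℝ) :=
    (summable_nat_add_iff n).2 (hs (3 * w)).summable
  have he : Real.exp 1 < 3 := by
    have := Real.exp_one_lt_d9
    linarith
  have h3 : ∀ j : ℕ, w ^ (j + n) / ((j + n).factorial : ℝ) ≤ Real.exp (-n) * ((3 * w) ^ (j + n) / ((j + n).factorial : ℝ)) := by
    intro j
    rw [← mul_div_assoc]
    refine div_le_div_of_nonneg_right ?_ (by positivity)
    rw [mul_pow, ← mul_assoc]
    have h4 : (1 : ℝ) ≤ Real.exp (-n) * 3 ^ (j + n) := by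
      have h5 : Real.exp n ≤ 3 ^ (j + n) := by
        calc Real.exp n = Real.exp 1 ^ n := by rw [← Real.exp_nat_mul, mul_one]
          _ ≤ 3 ^ n := pow_le_pow_left₀ (Real.exp_pos _).le he.le n
          _ ≤ 3 ^ (j + n) := pow_le_pow_right₀ (by norm_num) (by omega)
      calc (1 : ℝ) = Real.exp (-n) * Real.exp n := by rw [← Real.exp_add, neg_add_cancel, Real.exp_zero]
        _ ≤ _ := mul_le_mul_of_nonneg_left h5 (Real.exp_pos _).le
    nlinarith [pow_nonneg hw (j + n)]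
  have h4 := hs1.tsum_le_tsum h3 (hs2.mul_left _)
  rw [tsum_mul_left, ← h2] at h4
  rw [h1]
  refine h4.trans ?_
  rw [sub_eq_add_neg (3 * w), Real.exp_add, mul_comm (Real.exp (3 * w))]
  refine mul_le_mul_of_nonneg_left ?_ (Real.exp_pos _).le
  have : 0 ≤ ∑ j ∈ range n, (3 * w) ^ j / (j.factorial : ℝ) := sum_nonneg fun j _ => by positivity
  linarith

lemma E_nonneg {k : ℕ} {w : ℝ} (hw : 0 ≤ w) : 0 ≤ E k w := sum_nonneg fun j _ => by positivity

lemma E_mono {k : ℕ} {w w' : ℝ} (hw : 0 ≤ w) (h : w ≤ w') : E k w ≤ E k w' := by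
  unfold E
  refine sum_le_sum fun j _ => ?_
  exact div_le_div_of_nonneg_right (pow_le_pow_left₀ hw h j) (by positivity)

lemma E_abs_le' (k : ℕ) (w : ℝ) : |E k w| ≤ E k |w| := by
  unfold E
  refine (abs_sum_le_sum_abs _ _).trans (le_of_eq (sum_congr rfl fun j _ => ?_))
  rw [abs_div, abs_pow, abs_of_pos (by positivity : (0 : ℝ) < (j.factorial : ℝ))]

lemma E_le_exp (k : ℕ) {w : ℝ} (hw : 0 ≤ w) : E k w ≤ Real.exp w := by
  unfold E
  exact Real.sum_le_exp_of_nonneg hw (k + 1)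

lemma E_abs_le (k : ℕ) (w : ℝ) : |E k w| ≤ Real.exp |w| := (E_abs_le' k w).trans (E_le_exp k (abs_nonneg _))

lemma E_close (k : ℕ) (w : ℝ) : |E k w - Real.exp w| ≤ Real.exp (3 * |w| - (k + 1)) := by
  have h1 := Complex.norm_exp_sub_sum_le_exp_norm_sub_sum (w : ℂ) (k + 1)
  have h2 : (Complex.exp w - ∑ m ∈ range (k + 1), (w : ℂ) ^ m / (m.factorial : ℂ)) = ((Real.exp w - E k w : ℝ) : ℂ) := by
    unfold E
    push_cast
    rfl
  rw [h2, Complex.norm_real, Complex.norm_real, Real.norm_eq_abs, Real.norm_eq_abs, abs_sub_comm] at h1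
  refine h1.trans ?_
  have h3 := tail_le |w| (abs_nonneg _) (k + 1)
  push_cast at h3
  exact h3

lemma E_le_pow (k : ℕ) {w : ℝ} (hw : 0 ≤ w) : E k w ≤ (1 + w) ^ k := by
  unfold E
  rw [add_comm 1 w, add_pow]
  refine sum_le_sum fun j hj => ?_
  rw [mem_range] at hj
  rw [one_pow, mul_one]
  have h1 : (1 : ℝ) ≤ (k.choose j : ℝ) := by
    have : 0 < k.choose j := Nat.choose_pos (by omega)
    exact_mod_cast this
  have h2 : (1 : ℝ) ≤ (j.factorial : ℝ) := by
    have : 0 < j.factorial := Nat.factorial_pos j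
    exact_mod_cast this
  have h3 : 0 ≤ w ^ j := pow_nonneg hw j
  calc w ^ j / (j.factorial : ℝ) ≤ w ^ j := div_le_self h3 h2
    _ ≤ w ^ j * (k.choose j : ℝ) := le_mul_of_one_le_right h3 h1

/-- a nonnegative polynomial which is close to the exponential function -/
noncomputable def A (k : ℕ) (z : ℝ) : ℝ := E k (z / 2) ^ 2

lemma A_nonneg (k : ℕ) (z : ℝ) : 0 ≤ A k z := sq_nonneg _

lemma A_mono {k : ℕ} {z z' : ℝ} (hz : 0 ≤ z) (h : z ≤ z') : A k z ≤ A k z' :=
  pow_le_pow_left₀ (E_nonneg (by linarith)) (E_mono (by linarith) (by linarith)) 2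

lemma A_le_exp {k : ℕ} {z : ℝ} (hz : 0 ≤ z) : A k z ≤ Real.exp z := by
  unfold A
  have h1 : E k (z / 2) ≤ Real.exp (z / 2) := E_le_exp k (by linarith)
  calc E k (z / 2) ^ 2 ≤ Real.exp (z / 2) ^ 2 := pow_le_pow_left₀ (E_nonneg (by linarith)) h1 2
    _ = Real.exp z := by
        rw [← Real.exp_nat_mul]
        congr 1
        push_cast
        ring

lemma A_close (k : ℕ) (z : ℝ) : |A k z - Real.exp z| ≤ 2 * Real.exp (2 * |z| - (k + 1)) := by
  have h1 := E_close k (z / 2)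
  have h2 : Real.exp z = Real.exp (z / 2) ^ 2 := by
    rw [← Real.exp_nat_mul]
    congr 1
    push_cast
    ring
  have h3 : |z / 2| = |z| / 2 := by rw [abs_div, abs_of_pos (by norm_num : (0 : ℝ) < 2)]
  have h4 : |E k (z / 2) + Real.exp (z / 2)| ≤ 2 * Real.exp (|z| / 2) := by
    refine (abs_add_le _ _).trans ?_
    have h5 := E_abs_le k (z / 2)
    have h6 : |Real.exp (z / 2)| ≤ Real.exp (|z| / 2) := by
      rw [abs_of_pos (Real.exp_pos _), ← h3]
      exact Real.exp_le_exp.2 (le_abs_self _)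
    rw [h3] at h5
    linarith
  unfold A
  have h5 : E k (z / 2) ^ 2 - Real.exp z = (E k (z / 2) - Real.exp (z / 2)) * (E k (z / 2) + Real.exp (z / 2)) := by
    rw [h2]
    ring
  rw [h5, abs_mul]
  calc |E k (z / 2) - Real.exp (z / 2)| * |E k (z / 2) + Real.exp (z / 2)| ≤
        Real.exp (3 * |z / 2| - (k + 1)) * (2 * Real.exp (|z| / 2)) :=
        mul_le_mul h1 h4 (abs_nonneg _) (Real.exp_pos _).le
    _ = 2 * Real.exp (2 * |z| - (k + 1)) := by
        rw [h3, mul_left_comm, ← Real.exp_add]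
        congr 2
        ring

end Q69CR
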