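import Pool.Agent.Q69.CR.Tilt
import Pool.Agent.Q69.CR.Trunc

/-!
# Averages of polynomials of a sum over a box and in the model
-/

set_option autoImplicit false
set_option linter.unusedSectionVars false

namespace Q69CR

open Finset
open Q282LT
open Q282.BP (bx mem_bx card_bx bx_mean mean_mul_period)
open Pool.Agent.TH894.NE (box mem_box card_box Per mean mean_mul mean_mono mean_add mean_const mean_prod)

/-- the average over a box minus the average in the model -/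
noncomputable def Del {d : ℕ} (L : Fin d → ℕ) (I : Finset ℕ) (q : ℕ → ℕ) (F : ℕ → (Fin d → ℕ) → ℝ) (g : ℝ → ℝ) : ℝ :=
  (∑ n ∈ bx L, g (∑ a ∈ I, F a n)) / (∏ i, (L i : ℝ)) - mean d (∏ a ∈ I, q a) (fun n => g (∑ a ∈ I, F a n))

variable {d : ℕ} {L : Fin d → ℕ} {I : Finset ℕ} {q : ℕ → ℕ} {F : ℕ → (Fin d → ℕ) → ℝ}

lemma Del_mul (c : ℝ) (g : ℝ → ℝ) : Del L I q F (fun s => c * g s) = c * Del L I q F g := by
  unfold Del
  rw [mean_mul, ← mul_sum]
  ring

lemma Del_sum {κ : Type*} (s : Finset κ) (g : κ → ℝ → ℝ) :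
    Del L I q F (fun x => ∑ i ∈ s, g i x) = ∑ i ∈ s, Del L I q F (g i) := by
  unfold Del
  rw [mean_sum', sum_comm, sum_div, ← sum_sub_distrib]

/-- the polynomial `g` of degree at most `n` has the size at most `N` -/
def Good (L : Fin d → ℕ) (I : Finset ℕ) (q : ℕ → ℕ) (F : ℕ → (Fin d → ℕ) → ℝ) (K : ℕ) (η z : ℝ) (g : ℝ → ℝ) (n : ℕ) (N : ℝ) : Prop :=
  ∀ i : ℕ, i + n ≤ K → |Del L I q F (fun s => s ^ i * g s)| ≤ η * z ^ i * N

lemma Good.mul {K : ℕ} {η z : ℝ} {g : ℝ → ℝ} {n : ℕ} {N : ℝ} (h : Good L I q F K η z g n N) (c : ℕ → ℝ) (k : ℕ) :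
    Good L I q F K η z (fun s => (∑ j ∈ range (k + 1), c j * s ^ j) * g s) (n + k) ((∑ j ∈ range (k + 1), |c j| * z ^ j) * N) := by
  intro i hi
  have h1 : (fun s : ℝ => s ^ i * ((∑ j ∈ range (k + 1), c j * s ^ j) * g s)) =
      fun s => ∑ j ∈ range (k + 1), c j * (s ^ (i + j) * g s) := by
    funext s
    rw [sum_mul, mul_sum]
    refine sum_congr rfl fun j _ => ?_
    rw [pow_add]
    ring
  rw [h1, Del_sum]
  refine (abs_sum_le_sum_abs _ _).trans ?_
  have h2 : η * z ^ i * ((∑ j ∈ range (k + 1), |c j| * z ^ j) * N) = ∑ j ∈ range (k + 1), |c j| * (η * z ^ (i + j) * N) := by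
    rw [sum_mul, mul_sum]
    refine sum_congr rfl fun j _ => ?_
    rw [pow_add]
    ring
  rw [h2]
  refine sum_le_sum fun j hj => ?_
  rw [mem_range] at hj
  rw [Del_mul, abs_mul]
  exact mul_le_mul_of_nonneg_left (h (i + j) (by omega)) (abs_nonneg _)

/-- powers over boxes with long sides -/
lemma good_one (K : ℕ) (hq : ∀ a ∈ I, 1 ≤ q a) (hF : ∀ a ∈ I, Per (q a) (F a)) (hb : ∀ a ∈ I, ∀ n, |F a n| ≤ 2)
    (Y : ℕ) (hY1 : 1 ≤ Y) (hY : ∀ a ∈ I, q a ≤ Y) (hI : I.card ≤ Y) (T : ℝ) (hT0 : 0 < T) (hL : ∀ i, T ≤ L i)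
    (hT : d * (Y : ℝ) ^ K ≤ T) : Good L I q F K (2 * d / T) (2 * (Y : ℝ) ^ 2) (fun _ => 1) 0 1 := by
  intro i hi
  have hYr : (1 : ℝ) ≤ Y := by exact_mod_cast hY1
  have hT' : d * (Y : ℝ) ^ i ≤ T :=
    le_trans (mul_le_mul_of_nonneg_left (pow_le_pow_right₀ hYr (by omega)) (by positivity)) hT
  have h1 := box_mom i 2 (by norm_num) I q F hq hF hb Y hY T hT0 L hL hT'
  have hL0 : ∀ i, (0 : ℝ) < L i := fun i => hT0.trans_le (hL i)
  have hP0 : 0 < ∏ i, (L i : ℝ) := prod_pos fun i _ => hL0 i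
  have h2 : Del L I q F (fun s => s ^ i * 1) = (∑ n ∈ bx L, (∑ a ∈ I, F a n) ^ i - (∏ i, (L i : ℝ)) * mk d I q F i) / ∏ i, (L i : ℝ) := by
    unfold Del Q282LT.mk
    simp only [mul_one]
    rw [sub_div, mul_div_cancel_left₀ _ hP0.ne']
  rw [h2, abs_div, abs_of_pos hP0, div_le_iff₀ hP0]
  refine h1.trans ?_
  have h3 : ((I.card : ℝ) * 2) ^ i ≤ ((Y : ℝ) * 2) ^ i := by
    refine pow_le_pow_left₀ (by positivity) ?_ i
    have : (I.card : ℝ) ≤ Y := by exact_mod_cast hI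
    linarith
  calc (∏ i, (L i : ℝ)) * (((I.card : ℝ) * 2) ^ i * (2 * (d * (Y : ℝ) ^ i / T))) ≤
        (∏ i, (L i : ℝ)) * (((Y : ℝ) * 2) ^ i * (2 * (d * (Y : ℝ) ^ i / T))) := by
          refine mul_le_mul_of_nonneg_left (mul_le_mul_of_nonneg_right h3 (by positivity)) hP0.le
    _ = 2 * d / T * (2 * (Y : ℝ) ^ 2) ^ i * 1 * ∏ i, (L i : ℝ) := by
          rw [mul_pow, mul_pow, ← pow_mul, mul_comm 2 i, pow_mul]
          ring

/-- the coefficients of the truncated exponential series at `t s / 2` -/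
lemma E_coef (k : ℕ) (t s : ℝ) : E k (t * s / 2) = ∑ j ∈ range (k + 1), ((t / 2) ^ j / (j.factorial : ℝ)) * s ^ j := by
  unfold E
  refine sum_congr rfl fun j _ => ?_
  rw [show t * s / 2 = (t / 2) * s by ring, mul_pow]
  ring

lemma good_A {K : ℕ} {η z : ℝ} (hη : 0 ≤ η) (hz : 0 ≤ z) (h : Good L I q F K η z (fun _ => 1) 0 1) (k : ℕ) {t : ℝ} (ht : 0 ≤ t) :
    Good L I q F K η z (fun s => A k (t * s)) (2 * k) (A k (t * z)) := by
  have h1 := (h.mul (fun j => (t / 2) ^ j / (j.factorial : ℝ)) k).mul (fun j => (t / 2) ^ j / (j.factorial : ℝ)) k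
  have e1 : (fun s : ℝ => (∑ j ∈ range (k + 1), ((t / 2) ^ j / (j.factorial : ℝ)) * s ^ j) *
      ((∑ j ∈ range (k + 1), ((t / 2) ^ j / (j.factorial : ℝ)) * s ^ j) * 1)) = fun s => A k (t * s) := by
    funext s
    rw [← E_coef]
    unfold A
    ring
  have e2 : (∑ j ∈ range (k + 1), |(t / 2) ^ j / (j.factorial : ℝ)| * z ^ j) = E k (t * z / 2) := by
    rw [E_coef]
    refine sum_congr rfl fun j _ => ?_
    rw [abs_of_nonneg (by positivity)]
  have h2 : Good L I q F K η z (fun s => A k (t * s)) (0 + k + k)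
      ((∑ j ∈ range (k + 1), |(t / 2) ^ j / (j.factorial : ℝ)| * z ^ j) *
        ((∑ j ∈ range (k + 1), |(t / 2) ^ j / (j.factorial : ℝ)| * z ^ j) * 1)) := by
    rw [← e1]
    exact h1
  rw [e2] at h2
  have e3 : E k (t * z / 2) * (E k (t * z / 2) * 1) = A k (t * z) := by
    unfold A
    ring
  rw [e3] at h2
  intro i hi
  exact h2 i (by omega)

/-- with the factor which restricts to a window -/
lemma good_window {K : ℕ} {η z : ℝ} (hη : 0 ≤ η) (hz : 0 ≤ z) (h : Good L I q F K η z (fun _ => 1) 0 1) (k : ℕ) {t m R : ℝ} (ht : 0 ≤ t)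
    (hm : 0 ≤ m) (hR : 0 < R) :
    Good L I q F K η z (fun s => (1 - (s - m) ^ 2 / R) * A k (t * s)) (2 * k + 2) ((1 + (z + m) ^ 2 / R) * A k (t * z)) := by
  have h1 := (good_A hη hz h k ht).mul (fun j => if j = 0 then 1 - m ^ 2 / R else if j = 1 then 2 * m / R else -(1 / R)) 2
  have e1 : (fun s : ℝ => (∑ j ∈ range (2 + 1), (if j = 0 then 1 - m ^ 2 / R else if j = 1 then 2 * m / R else -(1 / R)) * s ^ j) *
      A k (t * s)) = fun s => (1 - (s - m) ^ 2 / R) * A k (t * s) := by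
    funext s
    rw [sum_range_succ, sum_range_succ, sum_range_succ, sum_range_zero]
    norm_num
    left
    ring
  rw [e1] at h1
  intro i hi
  refine (h1 i hi).trans ?_
  have hz' : 0 ≤ η * z ^ i := mul_nonneg hη (pow_nonneg hz i)
  refine mul_le_mul_of_nonneg_left (mul_le_mul_of_nonneg_right ?_ (A_nonneg _ _)) hz'
  rw [sum_range_succ, sum_range_succ, sum_range_succ, sum_range_zero]
  have e2 : |1 - m ^ 2 / R| ≤ 1 + m ^ 2 / R := by
    have : 0 ≤ m ^ 2 / R := by positivity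
    rw [abs_le]
    constructor <;> linarith
  have e3 : |2 * m / R| = 2 * m / R := abs_of_nonneg (by positivity)
  have e4 : |-(1 / R)| = 1 / R := by rw [abs_neg, abs_of_pos (by positivity)]
  norm_num
  rw [e3]
  have e5 : |R|⁻¹ = R⁻¹ := by rw [abs_of_pos hR]
  rw [e5]
  have e6 : (z + m) ^ 2 / R = z ^ 2 * R⁻¹ + 2 * m / R * z + m ^ 2 / R := by
    field_simp
    ring
  rw [e6]
  linarith

end Q69CR
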