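import Pool.Agent.Q69.CR.Cramer
import Pool.Agent.Q282.LT.PoisZ

/-!
# Cramér's theorem and moderate deviations over boxes of integers
-/

set_option autoImplicit false
set_option linter.unusedSectionVars false

namespace Q69CR

open Finset
open Q282LT (va zbox zprop zbox_card avg ZPer mean_shift)
open Q282.BP (bx mem_bx card_bx)
open Pool.Agent.TH894.NE (box mem_box card_box Per mean mean_mul mean_mono mean_add mean_const mean_prod)

/-- the logarithm of the exponential moment of the centred function -/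
noncomputable def lmg (d q : ℕ) (f : (Fin d → ℤ) → ℝ) (t : ℝ) : ℝ :=
  Real.log (avg d q fun ν => Real.exp (t * (f ν - avg d q f)))

/-- the mean of the centred function under the tilted law -/
noncomputable def tme (d q : ℕ) (f : (Fin d → ℤ) → ℝ) (t : ℝ) : ℝ :=
  (avg d q fun ν => (f ν - avg d q f) * Real.exp (t * (f ν - avg d q f))) / avg d q fun ν => Real.exp (t * (f ν - avg d q f))

section main

variable {d : ℕ} {I : Finset ℕ} {q : ℕ → ℕ} {f : ℕ → (Fin d → ℤ) → ℝ} {F : ℕ → (Fin d → ℕ) → ℝ} {m : Fin d → ℤ}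

lemma zsys (hq : ∀ b ∈ I, 1 ≤ q b) (hco : ∀ a ∈ I, ∀ b ∈ I, a ≠ b → Nat.Coprime (q a) (q b)) (hf : ∀ b ∈ I, ZPer (q b) (f b))
    (hb : ∀ b ∈ I, ∀ ν, |f b ν| ≤ 1) (hF : F = fun b n => f b (fun i => m i + n i) - avg d (q b) (f b)) : Sys d I q F := by
  have hshift : ∀ b ∈ I, mean d (q b) (fun n => f b (fun i => m i + n i)) = avg d (q b) (f b) :=
    fun b hb' => mean_shift (hq b hb') (hf b hb') m
  have havg : ∀ b ∈ I, |avg d (q b) (f b)| ≤ 1 := by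
    intro b hb'
    rw [← hshift b hb', abs_le]
    constructor
    · have := mean_mono (d := d) (q := q b) (F := fun _ => -1) (G := fun n => f b (fun i => m i + n i))
        (fun n => (abs_le.1 (hb b hb' _)).1)
      rwa [mean_const d (q b) (hq b hb')] at this
    · have := mean_mono (d := d) (q := q b) (F := fun n => f b (fun i => m i + n i)) (G := fun _ => 1)
        (fun n => (abs_le.1 (hb b hb' _)).2)
      rwa [mean_const d (q b) (hq b hb')] at this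
  refine ⟨hq, hco, fun b hb' n => ?_, fun b hb' => ?_, fun b hb' n => ?_⟩
  · rw [hF]
    show f b (fun i => m i + n i) - avg d (q b) (f b) = f b (fun i => m i + ((n i % q b : ℕ) : ℤ)) - avg d (q b) (f b)
    exact congrArg (fun z : ℝ => z - avg d (q b) (f b)) ((hf b hb').per m n)
  · rw [hF]
    have h2 : (fun n : Fin d → ℕ => f b (fun i => m i + n i) - avg d (q b) (f b)) =
      fun n => f b (fun i => m i + n i) + - avg d (q b) (f b) := by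
      funext n
      ring
    show mean d (q b) (fun n : Fin d → ℕ => f b (fun i => m i + n i) - avg d (q b) (f b)) = 0
    rw [h2, mean_add, hshift b hb', mean_const d (q b) (hq b hb')]
    ring
  · rw [hF]
    have h1 := hb b hb' (fun i => m i + n i)
    have h2 := havg b hb'
    exact (abs_sub _ _).trans (by linarith)

lemma Vr_z (hq : ∀ b ∈ I, 1 ≤ q b) (hf : ∀ b ∈ I, ZPer (q b) (f b))
    (hF : F = fun b n => f b (fun i => m i + n i) - avg d (q b) (f b)) :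
    Vr d I q F = ∑ b ∈ I, (avg d (q b) (fun ν => f b ν ^ 2) - avg d (q b) (f b) ^ 2) := by
  unfold Vr
  refine sum_congr rfl fun b hb => ?_
  have hsq : ZPer (q b) (fun ν => f b ν ^ 2) := by
    intro ν ν' hνν
    show f b ν ^ 2 = f b ν' ^ 2
    rw [hf b hb ν ν' hνν]
  unfold va
  rw [hF]
  have h2 : (fun n : Fin d → ℕ => (f b (fun i => m i + n i) - avg d (q b) (f b)) ^ 2) =
    fun n => f b (fun i => m i + n i) ^ 2 + (- (2 * avg d (q b) (f b)) * f b (fun i => m i + n i) + avg d (q b) (f b) ^ 2) := by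
    funext n
    ring
  show mean d (q b) (fun n : Fin d → ℕ => (f b (fun i => m i + n i) - avg d (q b) (f b)) ^ 2) = _
  rw [h2, mean_add, mean_add, mean_mul, mean_const d (q b) (hq b hb), mean_shift (hq b hb) (hf b hb),
    mean_shift (f := fun ν => f b ν ^ 2) (hq b hb) hsq]
  ring

lemma ph_z (hq : ∀ b ∈ I, 1 ≤ q b) (hf : ∀ b ∈ I, ZPer (q b) (f b))
    (hF : F = fun b n => f b (fun i => m i + n i) - avg d (q b) (f b)) (j : ℕ) (t : ℝ) (b : ℕ) (hb : b ∈ I) :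
    ph d (q b) (F b) j t = avg d (q b) fun ν => (f b ν - avg d (q b) (f b)) ^ j * Real.exp (t * (f b ν - avg d (q b) (f b))) := by
  have h1 : ZPer (q b) (fun ν => (f b ν - avg d (q b) (f b)) ^ j * Real.exp (t * (f b ν - avg d (q b) (f b)))) := by
    intro ν ν' hνν
    show (f b ν - avg d (q b) (f b)) ^ j * Real.exp (t * (f b ν - avg d (q b) (f b))) =
      (f b ν' - avg d (q b) (f b)) ^ j * Real.exp (t * (f b ν' - avg d (q b) (f b)))
    rw [hf b hb ν ν' hνν]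
  rw [← mean_shift (hq b hb) h1 m]
  unfold ph
  rw [hF]

lemma Psi_z (hq : ∀ b ∈ I, 1 ≤ q b) (hf : ∀ b ∈ I, ZPer (q b) (f b))
    (hF : F = fun b n => f b (fun i => m i + n i) - avg d (q b) (f b)) (t : ℝ) :
    Psi d I q F t = ∑ b ∈ I, lmg d (q b) (f b) t := by
  unfold Psi lmg
  refine sum_congr rfl fun b hb => ?_
  rw [ph_z hq hf hF 0 t b hb]
  simp only [pow_zero, one_mul]

lemma mu1_z (hq : ∀ b ∈ I, 1 ≤ q b) (hf : ∀ b ∈ I, ZPer (q b) (f b))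
    (hF : F = fun b n => f b (fun i => m i + n i) - avg d (q b) (f b)) (t : ℝ) :
    mu1 d I q F t = ∑ b ∈ I, tme d (q b) (f b) t := by
  unfold mu1 tme
  refine sum_congr rfl fun b hb => ?_
  rw [ph_z hq hf hF 0 t b hb, ph_z hq hf hF 1 t b hb]
  simp only [pow_zero, one_mul, pow_one]

lemma pr_z (hF : F = fun b n => f b (fun i => m i + n i) - avg d (q b) (f b)) (L : Fin d → ℕ) (c : ℝ) :
    pr L I F (fun s => c ≤ s) = zprop m L (fun ν => ∑ b ∈ I, avg d (q b) (f b) + c ≤ ∑ b ∈ I, f b ν) := by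
  classical
  unfold pr zprop
  rw [zbox_card]
  congr 2
  refine congrArg Finset.card (filter_congr fun n _ => ?_)
  rw [hF]
  show c ≤ ∑ b ∈ I, (f b (fun i => m i + n i) - avg d (q b) (f b)) ↔ _
  rw [sum_sub_distrib]
  constructor <;> intro h <;> linarith

end main

/-- **Cramér's theorem over boxes of integers.** -/
theorem cramer_z (T ε : ℝ) (hT : 0 < T) (hε : 0 < ε) : ∃ K v₀ : ℝ, 0 < K ∧ 1 ≤ v₀ ∧
    ∀ (d : ℕ) (I : Finset ℕ) (q : ℕ → ℕ) (f : ℕ → (Fin d → ℤ) → ℝ), (∀ b ∈ I, 1 ≤ q b) →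
      (∀ a ∈ I, ∀ b ∈ I, a ≠ b → Nat.Coprime (q a) (q b)) → (∀ b ∈ I, ZPer (q b) (f b)) → (∀ b ∈ I, ∀ ν, |f b ν| ≤ 1) →
      ∀ V : ℝ, V = ∑ b ∈ I, (avg d (q b) (fun ν => f b ν ^ 2) - avg d (q b) (f b) ^ 2) →
      ∀ t : ℝ, 0 < t → t ≤ T → v₀ ≤ t ^ 2 * V →
      ∀ Y : ℕ, 2 ≤ Y → (∀ a ∈ I, q a ≤ Y) → I.card ≤ Y → ∀ (m : Fin d → ℤ) (L : Fin d → ℕ),
        (∀ i, (d + 1) * (Y : ℝ) ^ (K * (t ^ 2 * V)) ≤ L i) →
      Real.exp (-((1 + ε) * (t * (∑ b ∈ I, tme d (q b) (f b) t) - ∑ b ∈ I, lmg d (q b) (f b) t))) ≤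
        zprop m L (fun ν => ∑ b ∈ I, avg d (q b) (f b) + ∑ b ∈ I, tme d (q b) (f b) t ≤ ∑ b ∈ I, f b ν) ∧
      zprop m L (fun ν => ∑ b ∈ I, avg d (q b) (f b) + ∑ b ∈ I, tme d (q b) (f b) t ≤ ∑ b ∈ I, f b ν) ≤
        Real.exp (-((1 - ε) * (t * (∑ b ∈ I, tme d (q b) (f b) t) - ∑ b ∈ I, lmg d (q b) (f b) t))) := by
  obtain ⟨K, v₀, hK, hv₀, h⟩ := cramer T ε hT hε
  refine ⟨K, v₀, hK, hv₀, ?_⟩
  intro d I q f hq hco hf hb V hV t ht0 ht hv Y hY2 hqY hIY m L hL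
  obtain ⟨F, hF⟩ : ∃ F : ℕ → (Fin d → ℕ) → ℝ, F = fun b n => f b (fun i => m i + n i) - avg d (q b) (f b) := ⟨_, rfl⟩
  have S := zsys hq hco hf hb hF
  have hVr : Vr d I q F = V := (Vr_z hq hf hF).trans hV.symm
  have h1 := h d I q F S t ht0 ht (by rw [hVr]; exact hv) Y hY2 hqY hIY L (by rw [hVr]; exact hL)
  rw [Psi_z hq hf hF, mu1_z hq hf hF, pr_z hF] at h1
  exact h1

/-- **Moderate deviations over boxes of integers.** -/
theorem mdp_z (ε : ℝ) (hε : 0 < ε) : ∃ K y₀ δ : ℝ, 0 < K ∧ 1 ≤ y₀ ∧ 0 < δ ∧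
    ∀ (d : ℕ) (I : Finset ℕ) (q : ℕ → ℕ) (f : ℕ → (Fin d → ℤ) → ℝ), (∀ b ∈ I, 1 ≤ q b) →
      (∀ a ∈ I, ∀ b ∈ I, a ≠ b → Nat.Coprime (q a) (q b)) → (∀ b ∈ I, ZPer (q b) (f b)) → (∀ b ∈ I, ∀ ν, |f b ν| ≤ 1) →
      ∀ V : ℝ, V = ∑ b ∈ I, (avg d (q b) (fun ν => f b ν ^ 2) - avg d (q b) (f b) ^ 2) →
      ∀ y : ℝ, y₀ ≤ y → y ≤ δ * Real.sqrt V →
      ∀ Y : ℕ, 2 ≤ Y → (∀ a ∈ I, q a ≤ Y) → I.card ≤ Y → ∀ (m : Fin d → ℤ) (L : Fin d → ℕ),
        (∀ i, (d + 1) * (Y : ℝ) ^ (K * y ^ 2) ≤ L i) →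
      Real.exp (-((1 + ε) * (y ^ 2 / 2))) ≤
        zprop m L (fun ν => ∑ b ∈ I, avg d (q b) (f b) + y * Real.sqrt V ≤ ∑ b ∈ I, f b ν) ∧
      zprop m L (fun ν => ∑ b ∈ I, avg d (q b) (f b) + y * Real.sqrt V ≤ ∑ b ∈ I, f b ν) ≤
        Real.exp (-((1 - ε) * (y ^ 2 / 2))) := by
  obtain ⟨K, y₀, δ, hK, hy₀, hδ, h⟩ := mdp ε hε
  refine ⟨K, y₀, δ, hK, hy₀, hδ, ?_⟩
  intro d I q f hq hco hf hb V hV y hy hyV Y hY2 hqY hIY m L hL
  obtain ⟨F, hF⟩ : ∃ F : ℕ → (Fin d → ℕ) → ℝ, F = fun b n => f b (fun i => m i + n i) - avg d (q b) (f b) := ⟨_, rfl⟩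
  have S := zsys hq hco hf hb hF
  have hVr : Vr d I q F = V := (Vr_z hq hf hF).trans hV.symm
  have h1 := h d I q F S y hy (by rw [hVr]; exact hyV) Y hY2 hqY hIY L hL
  rw [hVr, pr_z hF] at h1
  exact h1

end Q69CR
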