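import Pool.Agent.Q69.CR.Appr
import Pool.Agent.Q69.CR.Z
import Pool.Agent.Q282.LT.KlLaw

/-!
# Mean and variance of the summands of the first two Weyl sums of the Kloosterman angles
-/

set_option autoImplicit false
set_option linter.unusedSectionVars false

namespace Q69CR

open Finset
open Q282LT (va zbox zprop zbox_card avg ZPer mean_shift avg_one zbox_one)
open Q282LT.KL (term total term_abs term_congr mean_term sq_term p_gt)

/-- the normalised summand -/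
noncomputable def kf (u v : ℕ → ℝ) (p : ℕ) (ν : Fin 1 → ℤ) : ℝ := term u v (ν 0) p / 5

lemma kf_avg (u v : ℕ → ℝ) (p : ℕ) (hp : p.Prime) : avg 1 p (kf u v p) = -(v p / p) / 5 := by
  have : Fact p.Prime := ⟨hp⟩
  have h1 := avg_one p (fun a => term u v a p / 5)
  have h0 : avg 1 p (kf u v p) = avg 1 p (fun ν => term u v (ν 0) p / 5) := rfl
  rw [h0, h1, ← sum_div, div_right_comm, mean_term]

lemma kf_avg_sq (u v : ℕ → ℝ) (p : ℕ) : avg 1 p (fun ν => kf u v p ν ^ 2) =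
    (∑ a ∈ range p, term u v (a : ℤ) p ^ 2) / (p : ℝ) / 25 := by
  have h1 := avg_one p (fun a => (term u v a p / 5) ^ 2)
  have h0 : avg 1 p (fun ν => kf u v p ν ^ 2) = avg 1 p (fun ν => (term u v (ν 0) p / 5) ^ 2) := rfl
  rw [h0, h1]
  have h2 : ∑ a ∈ range p, (term u v (a : ℤ) p / 5) ^ 2 = (∑ a ∈ range p, term u v (a : ℤ) p ^ 2) / 25 := by
    rw [sum_div]
    refine sum_congr rfl fun a _ => ?_
    ring
  rw [h2, div_right_comm]

/-- the variance -/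
lemma kf_var (δ : ℝ) (hδ : 0 < δ) : ∃ P : ℕ, (1 : ℝ) ≤ P ∧ 12 / Real.sqrt P ≤ δ / 2 ∧ ∀ u v : ℕ → ℝ, (∀ p, |u p| ≤ 1) →
    (∀ p, |v p| ≤ 1) → ∀ I : Finset ℕ, (∀ p ∈ I, p.Prime) → ∀ V : ℝ, V = ∑ p ∈ I, (u p ^ 2 + v p ^ 2) → 50 * (P : ℝ) ≤ δ * V →
    |(5 : ℝ) ^ 2 * (∑ p ∈ I, (avg 1 p (fun ν => kf u v p ν ^ 2) - avg 1 p (kf u v p) ^ 2)) - V| ≤ δ * V := by
  obtain ⟨P, hP⟩ := exists_nat_ge ((24 / δ) ^ 2 + 1)
  have hP1 : (1 : ℝ) ≤ P := by
    have : 0 ≤ (24 / δ) ^ 2 := sq_nonneg _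
    linarith
  have hP0 : (0 : ℝ) < P := by linarith
  have hsP : 24 / δ ≤ Real.sqrt P := Real.le_sqrt_of_sq_le (by linarith)
  have hsP0 : 0 < Real.sqrt P := Real.sqrt_pos.2 hP0
  have hsP1 : 12 / Real.sqrt P ≤ δ / 2 := by
    rw [div_le_iff₀ hsP0]
    have h1 := mul_le_mul_of_nonneg_left hsP hδ.le
    have h2 : δ * (24 / δ) = 24 := by field_simp
    rw [h2] at h1
    linarith
  refine ⟨P, hP1, hsP1, ?_⟩
  intro u v hu hv I hIp V hVd hVP
  have hterm : ∀ p ∈ I, 0 ≤ u p ^ 2 + v p ^ 2 ∧ u p ^ 2 + v p ^ 2 ≤ 2 := by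
    intro p _
    have h1 : u p ^ 2 ≤ 1 := by
      rw [← sq_abs]
      exact pow_le_one₀ (abs_nonneg _) (hu p)
    have h2 : v p ^ 2 ≤ 1 := by
      rw [← sq_abs]
      exact pow_le_one₀ (abs_nonneg _) (hv p)
    constructor
    · positivity
    · linarith
  have e1 : (5 : ℝ) ^ 2 * (∑ p ∈ I, (avg 1 p (fun ν => kf u v p ν ^ 2) - avg 1 p (kf u v p) ^ 2)) - V =
      ∑ p ∈ I, ((5 : ℝ) ^ 2 * (avg 1 p (fun ν => kf u v p ν ^ 2) - avg 1 p (kf u v p) ^ 2) - (u p ^ 2 + v p ^ 2)) := by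
    rw [hVd, mul_sum, ← sum_sub_distrib]
  rw [e1]
  refine (abs_sum_le_sum_abs _ _).trans ?_
  have h1 : ∀ p ∈ I, |(5 : ℝ) ^ 2 * (avg 1 p (fun ν => kf u v p ν ^ 2) - avg 1 p (kf u v p) ^ 2) - (u p ^ 2 + v p ^ 2)| ≤
      (if p ≤ P then 24 else 0) + δ / 2 * (u p ^ 2 + v p ^ 2) := by
    intro p hp
    have : Fact p.Prime := ⟨hIp p hp⟩
    have hp2 := p_gt p
    have h2 := sq_term u v p
    rw [kf_avg u v p (hIp p hp), kf_avg_sq u v p]
    have h3 : (5 : ℝ) ^ 2 * ((∑ a ∈ range p, term u v (a : ℤ) p ^ 2) / (p : ℝ) / 25 - (-(v p / p) / 5) ^ 2) - (u p ^ 2 + v p ^ 2) =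
        (∑ a ∈ range p, term u v (a : ℤ) p ^ 2) / (p : ℝ) - (v p / p) ^ 2 - (u p ^ 2 + v p ^ 2) := by ring
    rw [h3]
    refine h2.trans ?_
    obtain ⟨t0, t1⟩ := hterm p hp
    have hsp : 1 ≤ Real.sqrt p := Real.one_le_sqrt.2 (by linarith)
    by_cases hpP : p ≤ P
    · rw [if_pos hpP]
      have h4 : 12 * (u p ^ 2 + v p ^ 2) / Real.sqrt p ≤ 12 * (u p ^ 2 + v p ^ 2) := div_le_self (by positivity) hsp
      have h5 : 0 ≤ δ / 2 * (u p ^ 2 + v p ^ 2) := by positivity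
      linarith
    · rw [if_neg hpP]
      push Not at hpP
      have h4 : Real.sqrt P ≤ Real.sqrt p := Real.sqrt_le_sqrt (by exact_mod_cast hpP.le)
      have h5 : 12 / Real.sqrt p ≤ δ / 2 := (div_le_div_of_nonneg_left (by norm_num) hsP0 h4).trans hsP1
      calc 12 * (u p ^ 2 + v p ^ 2) / Real.sqrt p = 12 / Real.sqrt p * (u p ^ 2 + v p ^ 2) := by ring
        _ ≤ δ / 2 * (u p ^ 2 + v p ^ 2) := mul_le_mul_of_nonneg_right h5 t0
        _ = _ := by ring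
  refine (sum_le_sum h1).trans ?_
  rw [sum_add_distrib, ← mul_sum, ← hVd]
  have h2 : ∑ p ∈ I, (if p ≤ P then (24 : ℝ) else 0) ≤ 24 * P := by
    rw [← sum_filter, sum_const, nsmul_eq_mul, mul_comm]
    refine mul_le_mul_of_nonneg_left ?_ (by norm_num)
    have h3 : (I.filter fun p => p ≤ P).card ≤ (Icc 1 P).card := by
      refine card_le_card fun p hp => ?_
      rw [mem_filter] at hp
      rw [mem_Icc]
      exact ⟨(hIp p hp.1).one_lt.le, hp.2⟩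
    rw [Nat.card_Icc, Nat.add_sub_cancel] at h3
    exact_mod_cast h3
  linarith

/-- the mean -/
lemma kf_mean {δ : ℝ} (hδ : 0 < δ) {P : ℕ} (hP1 : (1 : ℝ) ≤ P) (hsP1 : 12 / Real.sqrt P ≤ δ / 2) {u v : ℕ → ℝ}
    (hv : ∀ p, |v p| ≤ 1) {I : Finset ℕ} (hIp : ∀ p ∈ I, p.Prime) {x : ℕ} (hIx : ∀ p ∈ I, p ≤ x)
    {V : ℝ} (hVd : V = ∑ p ∈ I, (u p ^ 2 + v p ^ 2)) (hsVP : 50 * (P : ℝ) ≤ δ * Real.sqrt V) :
    5 * |∑ p ∈ I, avg 1 p (kf u v p)| ≤ δ * Real.sqrt V := by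
  have hP0 : (0 : ℝ) < P := by linarith
  have hsP0 : 0 < Real.sqrt P := Real.sqrt_pos.2 hP0
  have hsP2 : 1 / Real.sqrt P ≤ δ / 2 := by
    refine le_trans ?_ hsP1
    exact div_le_div_of_nonneg_right (by norm_num) hsP0.le
  have h1 : 5 * |∑ p ∈ I, avg 1 p (kf u v p)| ≤ ∑ p ∈ I, |v p| / p := by
    have h2 : (5 : ℝ) * |∑ p ∈ I, avg 1 p (kf u v p)| = |∑ p ∈ I, -(v p / p)| := by
      rw [← abs_of_pos (by norm_num : (0 : ℝ) < 5), ← abs_mul, mul_sum]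
      congr 1
      refine sum_congr rfl fun p hp => ?_
      rw [kf_avg u v p (hIp p hp)]
      ring
    rw [h2]
    refine (abs_sum_le_sum_abs _ _).trans (sum_le_sum fun p _ => ?_)
    rw [abs_neg, abs_div, abs_of_nonneg (Nat.cast_nonneg p : (0 : ℝ) ≤ p)]
  have h3 : ∑ p ∈ I, |v p| / p = ∑ p ∈ I.filter (fun p => p ≤ P), |v p| / p + ∑ p ∈ I.filter (fun p => ¬ p ≤ P), |v p| / p :=
    (sum_filter_add_sum_filter_not I (fun p => p ≤ P) _).symm
  have h4 : ∑ p ∈ I.filter (fun p => p ≤ P), |v p| / p ≤ P := by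
    have h5 : ∀ p ∈ I.filter (fun p => p ≤ P), |v p| / p ≤ 1 := by
      intro p hp
      rw [mem_filter] at hp
      have : (1 : ℝ) ≤ p := by exact_mod_cast (hIp p hp.1).one_lt.le
      rw [div_le_one (by linarith)]
      exact (hv p).trans this
    refine (sum_le_sum h5).trans ?_
    rw [sum_const, nsmul_eq_mul, mul_one]
    have h6 : (I.filter fun p => p ≤ P).card ≤ (Icc 1 P).card := by
      refine card_le_card fun p hp => ?_
      rw [mem_filter] at hp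
      rw [mem_Icc]
      exact ⟨(hIp p hp.1).one_lt.le, hp.2⟩
    rw [Nat.card_Icc, Nat.add_sub_cancel] at h6
    exact_mod_cast h6
  have h5 : ∑ p ∈ I.filter (fun p => ¬ p ≤ P), |v p| / p ≤ Real.sqrt V * (1 / Real.sqrt P) := by
    have h6 : ∑ p ∈ I.filter (fun p => ¬ p ≤ P), |v p| * (1 / p) ≤
        Real.sqrt (∑ p ∈ I.filter (fun p => ¬ p ≤ P), |v p| ^ 2) * Real.sqrt (∑ p ∈ I.filter (fun p => ¬ p ≤ P), (1 / (p : ℝ)) ^ 2) :=
      Real.sum_mul_le_sqrt_mul_sqrt _ _ _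
    have h7 : ∑ p ∈ I.filter (fun p => ¬ p ≤ P), |v p| / p = ∑ p ∈ I.filter (fun p => ¬ p ≤ P), |v p| * (1 / p) :=
      sum_congr rfl fun p _ => by ring
    rw [h7]
    refine h6.trans (mul_le_mul (Real.sqrt_le_sqrt ?_) ?_ (Real.sqrt_nonneg _) (Real.sqrt_nonneg _))
    · rw [hVd]
      calc ∑ p ∈ I.filter (fun p => ¬ p ≤ P), |v p| ^ 2 ≤ ∑ p ∈ I, |v p| ^ 2 :=
            sum_le_sum_of_subset_of_nonneg (filter_subset _ _) fun p _ _ => sq_nonneg _
        _ ≤ _ := sum_le_sum fun p _ => by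
            rw [sq_abs]
            have := sq_nonneg (u p)
            linarith
    · have h8 : 1 / Real.sqrt P = Real.sqrt ((P : ℝ)⁻¹) := by
        rw [Real.sqrt_inv, one_div]
      rw [h8]
      refine Real.sqrt_le_sqrt ?_
      rcases le_or_gt P x with hPx | hPx
      · have hP0' : P ≠ 0 := by
          intro h
          rw [h] at hP0
          simp at hP0
        have h9 := sum_Ioc_inv_sq_le_sub (α := ℝ) hP0' hPx
        have h10 : ∑ p ∈ I.filter (fun p => ¬ p ≤ P), (1 / (p : ℝ)) ^ 2 ≤ ∑ i ∈ Ioc P x, ((i : ℝ) ^ 2)⁻¹ := by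
          have h11 : I.filter (fun p => ¬ p ≤ P) ⊆ Ioc P x := by
            intro p hp
            rw [mem_filter] at hp
            rw [mem_Ioc]
            exact ⟨not_le.1 hp.2, hIx p hp.1⟩
          refine le_trans (le_of_eq ?_) (sum_le_sum_of_subset_of_nonneg h11 fun i _ _ => by positivity)
          refine sum_congr rfl fun p _ => ?_
          rw [one_div, inv_pow]
        have h12 : (0 : ℝ) ≤ (x : ℝ)⁻¹ := by positivity
        linarith
      · have h11 : I.filter (fun p => ¬ p ≤ P) = ∅ := by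
          rw [filter_eq_empty_iff]
          intro p hp
          have := hIx p hp
          push Not
          omega
        rw [h11, sum_empty]
        positivity
  have h6 : Real.sqrt V * (1 / Real.sqrt P) ≤ Real.sqrt V * (δ / 2) := mul_le_mul_of_nonneg_left hsP2 (Real.sqrt_nonneg V)
  rw [h3] at h1
  linarith

end Q69CR
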