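import Pool.Agent.Q69.CR.Kf

/-!
# Moderate deviations of the first two Weyl sums of the Kloosterman angles
-/

set_option autoImplicit false
set_option linter.unusedSectionVars false

namespace Q69CR

open Finset
open Q282LT (va zbox zprop zbox_card avg ZPer mean_shift avg_one zbox_one)
open Q282LT.KL (term total term_abs term_congr mean_term sq_term p_gt)

open Classical in
lemma zprop_one (M : ℤ) (N : ℕ) (P : ℤ → Prop) :
    zprop (fun _ : Fin 1 => M) (fun _ : Fin 1 => N) (fun ν => P (ν 0)) = (((Ico M (M + N)).filter P).card : ℝ) / (N : ℝ) := by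
  unfold zprop
  rw [Fin.prod_univ_one, ← zbox_one M N P]

open Classical in
/-- the proportion -/
noncomputable def kp (u v : ℕ → ℝ) (x : ℕ) (M : ℤ) (N : ℕ) (c : ℝ) : ℝ :=
  (((Ico M (M + N)).filter fun a => c ≤ total u v x a).card : ℝ) / (N : ℝ)

lemma kp_anti (u v : ℕ → ℝ) (x : ℕ) (M : ℤ) (N : ℕ) : Antitone (kp u v x M N) := by
  intro c c' hcc
  unfold kp
  refine div_le_div_of_nonneg_right ?_ (Nat.cast_nonneg N)
  exact_mod_cast card_le_card (monotone_filter_right _ fun a _ ha => hcc.trans ha)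

lemma kp_eq (u v : ℕ → ℝ) (x : ℕ) (M : ℤ) (N : ℕ) (c : ℝ) :
    zprop (fun _ : Fin 1 => M) (fun _ : Fin 1 => N) (fun ν => c ≤ ∑ p ∈ (range (x + 1)).filter Nat.Prime, kf u v p ν) =
      kp u v x M N (5 * c) := by
  have h1 : (fun ν : Fin 1 → ℤ => c ≤ ∑ p ∈ (range (x + 1)).filter Nat.Prime, kf u v p ν) =
      fun ν => (fun a : ℤ => 5 * c ≤ total u v x a) (ν 0) := by
    funext ν
    show (c ≤ ∑ p ∈ (range (x + 1)).filter Nat.Prime, kf u v p ν) = (5 * c ≤ total u v x (ν 0))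
    have h2 : ∑ p ∈ (range (x + 1)).filter Nat.Prime, kf u v p ν = total u v x (ν 0) / 5 := by
      unfold total kf
      rw [sum_div]
    rw [h2, le_div_iff₀ (by norm_num : (0 : ℝ) < 5), mul_comm c 5]
  rw [h1, zprop_one M N (fun a : ℤ => 5 * c ≤ total u v x a)]
  rfl

lemma kf_per (u v : ℕ → ℝ) (p : ℕ) : ZPer p (kf u v p) := by
  intro ν ν' hνν
  unfold kf
  rw [term_congr u v p (hνν 0)]

lemma kf_abs (u v : ℕ → ℝ) (hu : ∀ p, |u p| ≤ 1) (hv : ∀ p, |v p| ≤ 1) (p : ℕ) (hp : p.Prime) (ν : Fin 1 → ℤ) :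
    |kf u v p ν| ≤ 1 := by
  have : Fact p.Prime := ⟨hp⟩
  unfold kf
  rw [abs_div, abs_of_pos (by norm_num : (0 : ℝ) < 5), div_le_one (by norm_num)]
  exact term_abs u v hu hv _ p

/-- **Moderate deviations of the first two Weyl sums.** -/
theorem kl_mdp (ε : ℝ) (hε : 0 < ε) : ∃ K y₀ δ : ℝ, 0 < K ∧ 1 ≤ y₀ ∧ 0 < δ ∧
    ∀ u v : ℕ → ℝ, (∀ p, |u p| ≤ 1) → (∀ p, |v p| ≤ 1) → ∀ (x : ℕ) (V : ℝ),
      V = ∑ p ∈ (range (x + 1)).filter Nat.Prime, (u p ^ 2 + v p ^ 2) →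
      ∀ y : ℝ, y₀ ≤ y → y ≤ δ * Real.sqrt V → ∀ (M : ℤ) (N : ℕ), (x : ℝ) ^ (K * y ^ 2) ≤ N →
      Real.exp (-((1 + ε) * (y ^ 2 / 2))) ≤ kp u v x M N (y * Real.sqrt V) ∧
      kp u v x M N (y * Real.sqrt V) ≤ Real.exp (-((1 - ε) * (y ^ 2 / 2))) := by
  classical
  obtain ⟨e, η, he, hη, hη1, happ⟩ := approx_mdp ε hε
  obtain ⟨K₀, y₁, δ₁, hK₀, hy₁, hδ₁, hmdp⟩ := mdp_z e he
  obtain ⟨P, hP1, hsP1, hvar⟩ := kf_var η hη
  have hP0 : (0 : ℝ) < P := by linarith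
  obtain ⟨δ, hδ⟩ : ∃ δ, δ = δ₁ / 20 := ⟨_, rfl⟩
  have hδ0 : 0 < δ := by rw [hδ]; positivity
  obtain ⟨y₂, hy₂⟩ : ∃ y₂, y₂ = δ * (50 * P / η + 1) := ⟨_, rfl⟩
  have hy₂0 : 0 < y₂ := by rw [hy₂]; positivity
  refine ⟨4 * K₀ + 1, max (2 * y₁) y₂, δ, by positivity, by
    refine le_trans ?_ (le_max_left _ _)
    linarith, hδ0, ?_⟩
  intro u v hu hv x V hVd y hy hyV M N hN
  obtain ⟨I, hI⟩ : ∃ I : Finset ℕ, I = (range (x + 1)).filter Nat.Prime := ⟨_, rfl⟩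
  rw [← hI] at hVd
  have hIp : ∀ p ∈ I, p.Prime := by
    intro p hp
    rw [hI, mem_filter] at hp
    exact hp.2
  have hIx : ∀ p ∈ I, p ≤ x := by
    intro p hp
    rw [hI, mem_filter, mem_range] at hp
    omega
  have hyy : 2 * y₁ ≤ y := (le_max_left _ _).trans hy
  have hy1 : 1 ≤ y := by linarith
  have hsq : 50 * (P : ℝ) / η + 1 ≤ Real.sqrt V := by
    have h1 : y₂ ≤ δ * Real.sqrt V := ((le_max_right _ _).trans hy).trans hyV
    rw [hy₂] at h1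
    exact le_of_mul_le_mul_left h1 hδ0
  have hPη : 0 < 50 * (P : ℝ) / η := by positivity
  have hsV1 : 1 ≤ Real.sqrt V := by linarith
  have hsV0 : 0 < Real.sqrt V := by linarith
  have hV0 : 0 < V := Real.sqrt_pos.1 hsV0
  have hVV : Real.sqrt V ^ 2 = V := Real.sq_sqrt hV0.le
  have hV1 : Real.sqrt V ≤ V := by
    have h1 := mul_le_mul_of_nonneg_left hsV1 hsV0.le
    rw [← sq, hVV, mul_one] at h1
    exact h1
  have hsVP : 50 * (P : ℝ) ≤ η * Real.sqrt V := by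
    have h1 : 50 * (P : ℝ) / η ≤ Real.sqrt V := by linarith
    rw [div_le_iff₀ hη] at h1
    linarith
  have hVP : 50 * (P : ℝ) ≤ η * V := hsVP.trans (mul_le_mul_of_nonneg_left hV1 hη.le)
  obtain ⟨W, hW⟩ : ∃ W : ℝ, W = ∑ p ∈ I, (avg 1 p (fun ν => kf u v p ν ^ 2) - avg 1 p (kf u v p) ^ 2) := ⟨_, rfl⟩
  obtain ⟨m, hm⟩ : ∃ m : ℝ, m = ∑ p ∈ I, avg 1 p (kf u v p) := ⟨_, rfl⟩
  have hWV := hvar u v hu hv I hIp V hVd hVP
  rw [← hW] at hWV
  have hmV := kf_mean hη hP1 hsP1 hv hIp hIx hVd hsVP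
  rw [← hm] at hmV
  -- the modulus
  have hx2 : 2 ≤ x := by
    by_contra hcon
    have h1 : I = ∅ := by
      rw [hI, filter_eq_empty_iff]
      intro p hp hpp
      rw [mem_range] at hp
      have := hpp.two_le
      omega
    rw [hVd, h1, sum_empty] at hV0
    exact lt_irrefl _ hV0
  have hxr : (2 : ℝ) ≤ x := by exact_mod_cast hx2
  have hIc : I.card ≤ x := by
    calc I.card ≤ (Icc 1 x).card := by
          refine card_le_card fun p hp => ?_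
          rw [mem_Icc]
          exact ⟨(hIp p hp).one_lt.le, hIx p hp⟩
      _ = x := by rw [Nat.card_Icc, Nat.add_sub_cancel]
  have hside : ∀ z : ℝ, 0 ≤ z → z ≤ 2 * y → (((1 : ℕ) : ℝ) + 1) * (x : ℝ) ^ (K₀ * z ^ 2) ≤ N := by
    intro z hz0 hz
    refine le_trans ?_ hN
    have hz4 : z ^ 2 ≤ 4 * y ^ 2 := by
      calc z ^ 2 ≤ (2 * y) ^ 2 := pow_le_pow_left₀ hz0 hz 2
        _ = 4 * y ^ 2 := by ring
    have h4 : (((1 : ℕ) : ℝ) + 1) ≤ (x : ℝ) ^ (y ^ 2) := by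
      have h5 : (x : ℝ) ^ (1 : ℝ) ≤ (x : ℝ) ^ (y ^ 2) :=
        Real.rpow_le_rpow_of_exponent_le (by linarith) (one_le_pow₀ hy1)
      rw [Real.rpow_one] at h5
      push_cast
      linarith
    have h5 : (x : ℝ) ^ (K₀ * z ^ 2) ≤ (x : ℝ) ^ (4 * K₀ * y ^ 2) :=
      Real.rpow_le_rpow_of_exponent_le (by linarith) (by
        have := mul_le_mul_of_nonneg_left hz4 hK₀.le
        linarith)
    calc (((1 : ℕ) : ℝ) + 1) * (x : ℝ) ^ (K₀ * z ^ 2) ≤ (x : ℝ) ^ (y ^ 2) * (x : ℝ) ^ (4 * K₀ * y ^ 2) :=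
          mul_le_mul h4 h5 (by positivity) (by positivity)
      _ = (x : ℝ) ^ ((4 * K₀ + 1) * y ^ 2) := by
          rw [← Real.rpow_add (by linarith)]
          congr 1
          ring
  have hsW : Real.sqrt V ≤ 10 * Real.sqrt W := by
    have h1 := (abs_le.1 hWV).1
    have h2 : η * V ≤ 1 / 16 * V := mul_le_mul_of_nonneg_right hη1 hV0.le
    have h3 : V ≤ 10 ^ 2 * W := by linarith
    calc Real.sqrt V ≤ Real.sqrt (10 ^ 2 * W) := Real.sqrt_le_sqrt h3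
      _ = 10 * Real.sqrt W := by
          rw [Real.sqrt_mul (by norm_num : (0 : ℝ) ≤ 10 ^ 2), Real.sqrt_sq (by norm_num : (0 : ℝ) ≤ 10)]
  have hyD : 2 * y ≤ δ₁ * Real.sqrt W := by
    have h1 : 2 * y ≤ 2 * (δ * Real.sqrt V) := by linarith
    have h2 : 2 * (δ * Real.sqrt V) ≤ 2 * (δ * (10 * Real.sqrt W)) :=
      mul_le_mul_of_nonneg_left (mul_le_mul_of_nonneg_left hsW hδ0.le) (by norm_num)
    refine h1.trans (h2.trans (le_of_eq ?_))
    rw [hδ]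
    ring
  obtain ⟨Pr, hPr⟩ : ∃ Pr : ℝ → ℝ, Pr = fun c => kp u v x M N (5 * c) := ⟨_, rfl⟩
  have hanti : Antitone Pr := by
    intro c c' hcc
    rw [hPr]
    exact kp_anti u v x M N (mul_le_mul_of_nonneg_left hcc (by norm_num))
  have hPr1 : ∀ z, y₁ ≤ z → z ≤ δ₁ * Real.sqrt W → z ≤ 2 * y → Real.exp (-((1 + e) * (z ^ 2 / 2))) ≤ Pr (m + z * Real.sqrt W) ∧
      Pr (m + z * Real.sqrt W) ≤ Real.exp (-((1 - e) * (z ^ 2 / 2))) := by
    intro z hz1 hz2 hz3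
    have h1 := hmdp 1 I (fun p => p) (kf u v) (fun p hp => (hIp p hp).one_lt.le)
      (fun p hp p' hp' hne => (Nat.coprime_primes (hIp p hp) (hIp p' hp')).2 hne)
      (fun p _ => kf_per u v p) (fun p hp ν => kf_abs u v hu hv p (hIp p hp) ν)
      W hW z hz1 hz2 x hx2 hIx hIc (fun _ => M) (fun _ => N) (fun _ => hside z (by linarith) hz3)
    rw [← hm, hI, kp_eq] at h1
    rw [hPr]
    exact h1
  have h2 := happ Pr y₁ m W V 5 y (δ₁ * Real.sqrt W) hV0 (by norm_num) hy₁ hanti hPr1 hWV hmV hyy hyD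
  have h3 : Pr (y * Real.sqrt V / 5) = kp u v x M N (y * Real.sqrt V) := by
    rw [hPr]
    show kp u v x M N (5 * (y * Real.sqrt V / 5)) = kp u v x M N (y * Real.sqrt V)
    rw [mul_div_cancel₀ _ (by norm_num : (5 : ℝ) ≠ 0)]
  rw [h3] at h2
  exact h2

end Q69CR
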