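import Pool.Agent.Q69.CR.Bern
import Pool.Agent.Q285.GL.Artin

/-!
# Cramér's theorem and moderate deviations for indices modulo primes
-/

set_option autoImplicit false
set_option linter.unusedSectionVars false

namespace Q69CR.Len

open Finset Pool.Agent.Q285.GL
open Q282LT (zprop avg ZPer zbox mem_zbox)

lemma zbox_one (M : ℤ) (N : ℕ) (P : ℤ → Prop) [DecidablePred P] :
    ((zbox (fun _ : Fin 1 => M) (fun _ : Fin 1 => N)).filter fun ν => P (ν 0)).card = ((Ico M (M + N)).filter P).card := by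
  refine card_nbij' (i := fun ν => ν 0) (j := fun a _ => a) ?_ ?_ ?_ ?_
  · intro ν hν
    rw [mem_coe, mem_filter, mem_zbox] at hν
    rw [mem_coe, mem_filter, mem_Ico]
    exact ⟨hν.1 0, hν.2⟩
  · intro a ha
    rw [mem_coe, mem_filter, mem_Ico] at ha
    rw [mem_coe, mem_filter, mem_zbox]
    exact ⟨fun _ => ha.1, ha.2⟩
  · intro ν _
    funext i
    rw [Subsingleton.elim i 0]
  · intro a _
    rfl

lemma lw01 (S : ℕ → ℕ → Prop) (W₀ : Subgroup ℚˣ) {d r : ℕ} (f : Fin r → MvPolynomial (Fin d) ℤ) (q : ℕ) (ν : Fin d → ℤ) :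
    localWeight (wS S) W₀ f q ν = 0 ∨ localWeight (wS S) W₀ f q ν = 1 := by
  classical
  unfold localWeight
  split_ifs
  · rw [weight_wS]
    split_ifs
    · exact Or.inr rfl
    · exact Or.inl rfl
  · exact Or.inl rfl

lemma prop_eq {d : ℕ} (m : Fin d → ℤ) (L : Fin d → ℕ) (P : (Fin d → ℤ) → Prop) : zprop m L P = proportion m L P := rfl

lemma avg1 (w : ℕ → ℕ → ℝ) (W₀ : Subgroup ℚˣ) {d r : ℕ} (f : Fin r → MvPolynomial (Fin d) ℤ) (q : ℕ) :
    avg d q (localWeight w W₀ f q) = average w W₀ f 1 q := by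
  unfold avg average
  simp only [pow_one]

lemma avg2 (w : ℕ → ℕ → ℝ) (W₀ : Subgroup ℚˣ) {d r : ℕ} (f : Fin r → MvPolynomial (Fin d) ℤ) (q : ℕ) :
    avg d q (fun ν => localWeight w W₀ f q ν ^ 2) = average w W₀ f 2 q := rfl

lemma two_le {x : ℕ} {g : ℕ → ℝ} (h : 0 < ∑ q ∈ (range (x + 1)).filter Nat.Prime, g q) : 2 ≤ x := by
  by_contra hcon
  have h1 : (range (x + 1)).filter Nat.Prime = ∅ := by
    rw [filter_eq_empty_iff]
    intro p hp hpp
    rw [mem_range] at hp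
    have := hpp.two_le
    omega
  rw [h1, sum_empty] at h
  exact lt_irrefl _ h

lemma card_le_x (x : ℕ) : ((range (x + 1)).filter Nat.Prime).card ≤ x := by
  calc ((range (x + 1)).filter Nat.Prime).card ≤ (Icc 1 x).card := by
        refine card_le_card fun p hp => ?_
        rw [mem_filter, mem_range] at hp
        rw [mem_Icc]
        exact ⟨hp.2.one_lt.le, by omega⟩
    _ = x := by rw [Nat.card_Icc, Nat.add_sub_cancel]

/-- sum of the tilted probabilities over the primes up to `x` -/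
noncomputable def tl (P : ℕ → ℝ) (x : ℕ) (t : ℝ) : ℝ := ∑ q ∈ (range (x + 1)).filter Nat.Prime, bth (P q) t

/-- sum of the rates over the primes up to `x` -/
noncomputable def rt (P : ℕ → ℝ) (x : ℕ) (t : ℝ) : ℝ := ∑ q ∈ (range (x + 1)).filter Nat.Prime, brt (P q) t

/-- the variance -/
noncomputable def vr (P : ℕ → ℝ) (x : ℕ) : ℝ := ∑ q ∈ (range (x + 1)).filter Nat.Prime, P q * (1 - P q)

theorem cramer_len (T ε : ℝ) (hT : 0 < T) (hε : 0 < ε) : ∃ K v₀ : ℝ, 0 < K ∧ 1 ≤ v₀ ∧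
    ∀ (d r : ℕ) (f : Fin r → MvPolynomial (Fin d) ℤ) (W₀ : Subgroup ℚˣ) (S : ℕ → ℕ → Prop) (x : ℕ) (P : ℕ → ℝ),
      (∀ q, q.Prime → average (wS S) W₀ f 1 q = P q) →
      ∀ t : ℝ, 0 < t → t ≤ T → v₀ ≤ t ^ 2 * vr P x → ∀ (m : Fin d → ℤ) (L : Fin d → ℕ),
        (∀ i, (d + 1) * (x : ℝ) ^ (K * (t ^ 2 * vr P x)) ≤ L i) →
      (Real.exp (-((1 + ε) * rt P x t)) ≤ proportion m L (fun ν => tl P x t ≤ total (wS S) W₀ f x ν) ∧
        proportion m L (fun ν => tl P x t ≤ total (wS S) W₀ f x ν) ≤ Real.exp (-((1 - ε) * rt P x t))) ∧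
      (Real.exp (-((1 + ε) * rt P x (-t))) ≤ proportion m L (fun ν => total (wS S) W₀ f x ν ≤ tl P x (-t)) ∧
        proportion m L (fun ν => total (wS S) W₀ f x ν ≤ tl P x (-t)) ≤ Real.exp (-((1 - ε) * rt P x (-t)))) := by
  classical
  obtain ⟨K, v₀, hK, hv₀, h⟩ := cramer_b T ε hT hε
  refine ⟨K, v₀, hK, hv₀, ?_⟩
  intro d r f W₀ S x P hP t ht0 ht hv m L hL
  have hI : ∀ p ∈ (range (x + 1)).filter Nat.Prime, p.Prime ∧ p ≤ x := by
    intro p hp
    rw [mem_filter, mem_range] at hp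
    exact ⟨hp.2, by omega⟩
  have hV0 : 0 < vr P x := by
    have h1 : 0 < t ^ 2 * vr P x := by linarith
    exact pos_of_mul_pos_right h1 (sq_nonneg t)
  have h1 := h d ((range (x + 1)).filter Nat.Prime) (fun p => p) (localWeight (wS S) W₀ f)
    (fun p hp => (hI p hp).1.one_lt.le)
    (fun p hp p' hp' hne => (Nat.coprime_primes (hI p hp).1 (hI p' hp').1).2 hne)
    (fun p hp => localWeight_per _ W₀ f (hI p hp).1)
    (fun p _ ν => lw01 S W₀ f p ν) P
    (fun p hp => by rw [avg1]; exact hP p (hI p hp).1) (vr P x) rfl t ht0 ht hv x (two_le hV0)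
    (fun p hp => (hI p hp).2) (card_le_x x) m L hL
  simp only [← total_eq, prop_eq] at h1
  exact h1

/-- moderate deviations for counting functions -/
theorem mdp_b (ε : ℝ) (hε : 0 < ε) : ∃ K y₀ δ : ℝ, 0 < K ∧ 1 ≤ y₀ ∧ 0 < δ ∧
    ∀ (d : ℕ) (f : ℕ → (Fin d → ℤ) → ℝ) (x : ℕ), (∀ b ∈ (range (x + 1)).filter Nat.Prime, ZPer b (f b)) →
      (∀ b ν, f b ν = 0 ∨ f b ν = 1) →
      ∀ P : ℕ → ℝ, (∀ b ∈ (range (x + 1)).filter Nat.Prime, avg d b (f b) = P b) →
      ∀ y : ℝ, y₀ ≤ y → y ≤ δ * Real.sqrt (vr P x) → ∀ (m : Fin d → ℤ) (L : Fin d → ℕ),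
        (∀ i, (d + 1) * (x : ℝ) ^ (K * y ^ 2) ≤ L i) →
      (Real.exp (-((1 + ε) * (y ^ 2 / 2))) ≤ proportion m L (fun ν => ∑ q ∈ (range (x + 1)).filter Nat.Prime, P q +
          y * Real.sqrt (vr P x) ≤ ∑ q ∈ (range (x + 1)).filter Nat.Prime, f q ν) ∧
        proportion m L (fun ν => ∑ q ∈ (range (x + 1)).filter Nat.Prime, P q +
          y * Real.sqrt (vr P x) ≤ ∑ q ∈ (range (x + 1)).filter Nat.Prime, f q ν) ≤ Real.exp (-((1 - ε) * (y ^ 2 / 2)))) ∧
      (Real.exp (-((1 + ε) * (y ^ 2 / 2))) ≤ proportion m L (fun ν => ∑ q ∈ (range (x + 1)).filter Nat.Prime, f q ν ≤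
          ∑ q ∈ (range (x + 1)).filter Nat.Prime, P q - y * Real.sqrt (vr P x)) ∧
        proportion m L (fun ν => ∑ q ∈ (range (x + 1)).filter Nat.Prime, f q ν ≤
          ∑ q ∈ (range (x + 1)).filter Nat.Prime, P q - y * Real.sqrt (vr P x)) ≤ Real.exp (-((1 - ε) * (y ^ 2 / 2)))) := by
  obtain ⟨K, y₀, δ, hK, hy₀, hδ, h⟩ := mdp_two ε hε
  refine ⟨K, y₀, δ, hK, hy₀, hδ, ?_⟩
  intro d f x hf h01 P hP y hy hyV m L hL
  have hI : ∀ p ∈ (range (x + 1)).filter Nat.Prime, p.Prime ∧ p ≤ x := by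
    intro p hp
    rw [mem_filter, mem_range] at hp
    exact ⟨hp.2, by omega⟩
  have hV0 : 0 < vr P x := by
    have h1 : 0 < δ * Real.sqrt (vr P x) := by linarith
    exact Real.sqrt_pos.1 (pos_of_mul_pos_right h1 hδ.le)
  exact h d ((range (x + 1)).filter Nat.Prime) (fun p => p) f
    (fun p hp => (hI p hp).1.one_lt.le)
    (fun p hp p' hp' hne => (Nat.coprime_primes (hI p hp).1 (hI p' hp').1).2 hne) hf
    (fun p _ ν => by
      rcases h01 p ν with h1 | h1 <;> rw [h1] <;> norm_num)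
    (∑ q ∈ (range (x + 1)).filter Nat.Prime, P q) (vr P x)
    (sum_congr rfl fun p hp => (hP p hp).symm)
    (by
      unfold vr
      refine sum_congr rfl fun p hp => ?_
      rw [sq_avg (hI p hp).1.one_lt.le (h01 p), hP p hp]
      ring) y hy hyV x (two_le hV0) (fun p hp => (hI p hp).2) (card_le_x x) m L hL

theorem mdp_len (ε : ℝ) (hε : 0 < ε) : ∃ K y₀ δ : ℝ, 0 < K ∧ 1 ≤ y₀ ∧ 0 < δ ∧
    ∀ (d r : ℕ) (f : Fin r → MvPolynomial (Fin d) ℤ) (W₀ : Subgroup ℚˣ) (S : ℕ → ℕ → Prop) (x : ℕ) (P : ℕ → ℝ),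
      (∀ q, q.Prime → average (wS S) W₀ f 1 q = P q) →
      ∀ y : ℝ, y₀ ≤ y → y ≤ δ * Real.sqrt (vr P x) → ∀ (m : Fin d → ℤ) (L : Fin d → ℕ),
        (∀ i, (d + 1) * (x : ℝ) ^ (K * y ^ 2) ≤ L i) →
      (Real.exp (-((1 + ε) * (y ^ 2 / 2))) ≤ proportion m L (fun ν => ∑ q ∈ (range (x + 1)).filter Nat.Prime, P q +
          y * Real.sqrt (vr P x) ≤ total (wS S) W₀ f x ν) ∧
        proportion m L (fun ν => ∑ q ∈ (range (x + 1)).filter Nat.Prime, P q +
          y * Real.sqrt (vr P x) ≤ total (wS S) W₀ f x ν) ≤ Real.exp (-((1 - ε) * (y ^ 2 / 2)))) ∧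
      (Real.exp (-((1 + ε) * (y ^ 2 / 2))) ≤ proportion m L (fun ν => total (wS S) W₀ f x ν ≤
          ∑ q ∈ (range (x + 1)).filter Nat.Prime, P q - y * Real.sqrt (vr P x)) ∧
        proportion m L (fun ν => total (wS S) W₀ f x ν ≤
          ∑ q ∈ (range (x + 1)).filter Nat.Prime, P q - y * Real.sqrt (vr P x)) ≤ Real.exp (-((1 - ε) * (y ^ 2 / 2)))) := by
  classical
  obtain ⟨K, y₀, δ, hK, hy₀, hδ, h⟩ := mdp_b ε hε
  refine ⟨K, y₀, δ, hK, hy₀, hδ, ?_⟩
  intro d r f W₀ S x P hP y hy hyV m L hL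
  have h1 := h d (localWeight (wS S) W₀ f) x (fun p hp => localWeight_per _ W₀ f (mem_filter.1 hp).2)
    (fun p ν => lw01 S W₀ f p ν) P (fun p hp => by rw [avg1]; exact hP p (mem_filter.1 hp).2) y hy hyV m L hL
  simp only [← total_eq] at h1
  exact h1

/-! ### Artin's case -/

open Classical in
/-- the indicator function of the residues which are primitive roots modulo `q` -/
noncomputable def ar (q : ℕ) (ν : Fin 1 → ℤ) : ℝ := if PrimRoot q (ν 0) then 1 else 0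

lemma ar01 (q : ℕ) (ν : Fin 1 → ℤ) : ar q ν = 0 ∨ ar q ν = 1 := by
  unfold ar
  split_ifs
  · exact Or.inr rfl
  · exact Or.inl rfl

lemma ar_per (q : ℕ) : ZPer q (ar q) := by
  intro ν ν' h
  have h1 : ((ν 0 : ℤ) : ZMod q) = ((ν' 0 : ℤ) : ZMod q) := by
    have := (ZMod.intCast_zmod_eq_zero_iff_dvd (ν 0 - ν' 0) q).2 (h 0)
    push_cast at this
    exact sub_eq_zero.1 this
  have h2 : PrimRoot q (ν 0) ↔ PrimRoot q (ν' 0) := by
    unfold PrimRoot
    rw [h1]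
  unfold ar
  by_cases h3 : PrimRoot q (ν 0)
  · rw [if_pos h3, if_pos (h2.1 h3)]
  · rw [if_neg h3, if_neg fun h4 => h3 (h2.2 h4)]

lemma ar_sum (x : ℕ) (ν : Fin 1 → ℤ) : ∑ q ∈ (range (x + 1)).filter Nat.Prime, ar q ν = (artin (ν 0) x : ℝ) := by
  classical
  unfold ar artin
  rw [← filter_filter, card_filter]
  push_cast
  exact sum_congr rfl fun q _ => by split_ifs <;> rfl

lemma ar_avg {q : ℕ} (hq : q.Prime) : avg 1 q (ar q) = (Nat.totient (q - 1) : ℝ) / q := by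
  classical
  have e : avg 1 q (ar q) = average (wS fun _ j => j = 1) ⊥ fX 1 q := by
    rw [← avg1]
    unfold avg
    congr 1
    refine sum_congr rfl fun ν hν => ?_
    have hν0 : ν 0 < q := by
      have := Fintype.mem_piFinset.1 hν 0
      exact mem_range.1 this
    by_cases h0 : ν 0 = 0
    · have h1 : ¬ PrimRoot q (((ν 0 : ℕ) : ℤ)) := by
        rintro ⟨u, hu, _⟩
        have : Fact q.Prime := ⟨hq⟩
        rw [h0] at hu
        simp only [Nat.cast_zero, Int.cast_zero] at hu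
        exact u.ne_zero hu
      have h2 : localWeight (wS fun _ j => j = 1) ⊥ fX q (fun i => (ν i : ℤ)) = 0 := by
        refine localWeight_zero _ _ _ _ ?_
        intro h3
        have h4 := h3 0
        unfold fX at h4
        rw [MvPolynomial.eval_X, h0] at h4
        exact h4 rfl
      rw [h2]
      unfold ar
      rw [if_neg h1]
    · have h3 : (ν 0 : ℤ) ≠ 0 := by exact_mod_cast h0
      have h4 : ∀ i, MvPolynomial.eval (fun i => (ν i : ℤ)) (fX i) ≠ 0 := by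
        intro i
        unfold fX
        rw [MvPolynomial.eval_X]
        exact h3
      rw [localWeight_eq _ _ _ hq h4, gen_fX, weight_wS]
      unfold ar
      simp only [primRoot_iff hq h3]
  rw [e, average_fX _ _ hq one_pos, dens_artin hq]

theorem cramer_artin (T ε : ℝ) (hT : 0 < T) (hε : 0 < ε) : ∃ K v₀ : ℝ, 0 < K ∧ 1 ≤ v₀ ∧
    ∀ (x : ℕ) (P : ℕ → ℝ), (∀ q, P q = (Nat.totient (q - 1) : ℝ) / q) →
      ∀ t : ℝ, 0 < t → t ≤ T → v₀ ≤ t ^ 2 * vr P x → ∀ (m : ℤ) (L : ℕ), (x : ℝ) ^ (K * (t ^ 2 * vr P x)) ≤ L →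
      (Real.exp (-((1 + ε) * rt P x t)) ≤ share m L (fun n => tl P x t ≤ artin n x) ∧
        share m L (fun n => tl P x t ≤ artin n x) ≤ Real.exp (-((1 - ε) * rt P x t))) ∧
      (Real.exp (-((1 + ε) * rt P x (-t))) ≤ share m L (fun n => (artin n x : ℝ) ≤ tl P x (-t)) ∧
        share m L (fun n => (artin n x : ℝ) ≤ tl P x (-t)) ≤ Real.exp (-((1 - ε) * rt P x (-t)))) := by
  classical
  obtain ⟨K, v₀, hK, hv₀, h⟩ := cramer_b T ε hT hε
  refine ⟨K + 1, v₀, by positivity, hv₀, ?_⟩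
  intro x P hP t ht0 ht hv m L hL
  have hI : ∀ p ∈ (range (x + 1)).filter Nat.Prime, p.Prime ∧ p ≤ x := by
    intro p hp
    rw [mem_filter, mem_range] at hp
    exact ⟨hp.2, by omega⟩
  have hV0 : 0 < vr P x := by
    have h1 : 0 < t ^ 2 * vr P x := by linarith
    exact pos_of_mul_pos_right h1 (sq_nonneg t)
  have hx := two_le hV0
  have hxr : (2 : ℝ) ≤ x := by exact_mod_cast hx
  have h1 := h 1 ((range (x + 1)).filter Nat.Prime) (fun p => p) ar
    (fun p hp => (hI p hp).1.one_lt.le)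
    (fun p hp p' hp' hne => (Nat.coprime_primes (hI p hp).1 (hI p' hp').1).2 hne)
    (fun p _ => ar_per p) (fun p _ ν => ar01 p ν) P
    (fun p hp => by rw [hP]; exact ar_avg (hI p hp).1) (vr P x) rfl t ht0 ht hv x hx
    (fun p hp => (hI p hp).2) (card_le_x x) (fun _ => m) (fun _ => L) (fun _ => by
      refine le_trans ?_ hL
      have h4 : (((1 : ℕ) : ℝ) + 1) ≤ (x : ℝ) ^ (t ^ 2 * vr P x) := by
        have h5 : (x : ℝ) ^ (1 : ℝ) ≤ (x : ℝ) ^ (t ^ 2 * vr P x) :=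
          Real.rpow_le_rpow_of_exponent_le (by linarith) (hv₀.trans hv)
        rw [Real.rpow_one] at h5
        push_cast
        linarith
      calc (((1 : ℕ) : ℝ) + 1) * (x : ℝ) ^ (K * (t ^ 2 * vr P x)) ≤
            (x : ℝ) ^ (t ^ 2 * vr P x) * (x : ℝ) ^ (K * (t ^ 2 * vr P x)) :=
            mul_le_mul_of_nonneg_right h4 (by positivity)
        _ = (x : ℝ) ^ ((K + 1) * (t ^ 2 * vr P x)) := by
            rw [← Real.rpow_add (by linarith)]
            congr 1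
            ring)
  have e : ∀ Q : ℤ → Prop, zprop (fun _ : Fin 1 => m) (fun _ : Fin 1 => L) (fun ν => Q (ν 0)) = share m L Q := by
    intro Q
    unfold zprop share
    rw [Fin.prod_univ_one, zbox_one m L Q]
  have e1 : (fun ν : Fin 1 → ℤ => ∑ b ∈ (range (x + 1)).filter Nat.Prime, bth (P b) t ≤
      ∑ b ∈ (range (x + 1)).filter Nat.Prime, ar b ν) = fun ν => (fun n : ℤ => tl P x t ≤ (artin n x : ℝ)) (ν 0) := by
    funext ν
    rw [ar_sum x ν]
    rfl
  have e2 : (fun ν : Fin 1 → ℤ => ∑ b ∈ (range (x + 1)).filter Nat.Prime, ar b ν ≤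
      ∑ b ∈ (range (x + 1)).filter Nat.Prime, bth (P b) (-t)) = fun ν => (fun n : ℤ => (artin n x : ℝ) ≤ tl P x (-t)) (ν 0) := by
    funext ν
    rw [ar_sum x ν]
    rfl
  rw [e1, e2, e (fun n : ℤ => tl P x t ≤ (artin n x : ℝ)), e (fun n : ℤ => (artin n x : ℝ) ≤ tl P x (-t))] at h1
  exact h1

theorem mdp_artin (ε : ℝ) (hε : 0 < ε) : ∃ K y₀ δ : ℝ, 0 < K ∧ 1 ≤ y₀ ∧ 0 < δ ∧
    ∀ (x : ℕ) (P : ℕ → ℝ), (∀ q, P q = (Nat.totient (q - 1) : ℝ) / q) →
      ∀ y : ℝ, y₀ ≤ y → y ≤ δ * Real.sqrt (vr P x) → ∀ (m : ℤ) (L : ℕ), (x : ℝ) ^ (K * y ^ 2) ≤ L →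
      (Real.exp (-((1 + ε) * (y ^ 2 / 2))) ≤ share m L (fun n => ∑ q ∈ (range (x + 1)).filter Nat.Prime, P q +
          y * Real.sqrt (vr P x) ≤ artin n x) ∧
        share m L (fun n => ∑ q ∈ (range (x + 1)).filter Nat.Prime, P q +
          y * Real.sqrt (vr P x) ≤ artin n x) ≤ Real.exp (-((1 - ε) * (y ^ 2 / 2)))) ∧
      (Real.exp (-((1 + ε) * (y ^ 2 / 2))) ≤ share m L (fun n => (artin n x : ℝ) ≤
          ∑ q ∈ (range (x + 1)).filter Nat.Prime, P q - y * Real.sqrt (vr P x)) ∧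
        share m L (fun n => (artin n x : ℝ) ≤
          ∑ q ∈ (range (x + 1)).filter Nat.Prime, P q - y * Real.sqrt (vr P x)) ≤ Real.exp (-((1 - ε) * (y ^ 2 / 2)))) := by
  classical
  obtain ⟨K, y₀, δ, hK, hy₀, hδ, h⟩ := mdp_b ε hε
  refine ⟨K + 1, y₀, δ, by positivity, hy₀, hδ, ?_⟩
  intro x P hP y hy hyV m L hL
  have hV0 : 0 < vr P x := by
    have h1 : 0 < δ * Real.sqrt (vr P x) := by linarith
    exact Real.sqrt_pos.1 (pos_of_mul_pos_right h1 hδ.le)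
  have hx := two_le hV0
  have hxr : (2 : ℝ) ≤ x := by exact_mod_cast hx
  have h1 := h 1 ar x (fun p _ => ar_per p) (fun p ν => ar01 p ν) P
    (fun p hp => by rw [hP]; exact ar_avg (mem_filter.1 hp).2) y hy hyV (fun _ => m) (fun _ => L) (fun _ => by
      refine le_trans ?_ hL
      have h4 : (((1 : ℕ) : ℝ) + 1) ≤ (x : ℝ) ^ (y ^ 2) := by
        have h5 : (x : ℝ) ^ (1 : ℝ) ≤ (x : ℝ) ^ (y ^ 2) :=
          Real.rpow_le_rpow_of_exponent_le (by linarith) (one_le_pow₀ (hy₀.trans hy))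
        rw [Real.rpow_one] at h5
        push_cast
        linarith
      calc (((1 : ℕ) : ℝ) + 1) * (x : ℝ) ^ (K * y ^ 2) ≤ (x : ℝ) ^ (y ^ 2) * (x : ℝ) ^ (K * y ^ 2) :=
            mul_le_mul_of_nonneg_right h4 (by positivity)
        _ = (x : ℝ) ^ ((K + 1) * y ^ 2) := by
            rw [← Real.rpow_add (by linarith)]
            congr 1
            ring)
  have e : ∀ Q : ℤ → Prop, proportion (fun _ : Fin 1 => m) (fun _ : Fin 1 => L) (fun ν => Q (ν 0)) = share m L Q := by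
    intro Q
    rw [← prop_eq]
    unfold zprop share
    rw [Fin.prod_univ_one, zbox_one m L Q]
  have e1 : (fun ν : Fin 1 → ℤ => ∑ b ∈ (range (x + 1)).filter Nat.Prime, P b + y * Real.sqrt (vr P x) ≤
      ∑ b ∈ (range (x + 1)).filter Nat.Prime, ar b ν) =
      fun ν => (fun n : ℤ => ∑ b ∈ (range (x + 1)).filter Nat.Prime, P b + y * Real.sqrt (vr P x) ≤ (artin n x : ℝ)) (ν 0) := by
    funext ν
    rw [ar_sum x ν]
  have e2 : (fun ν : Fin 1 → ℤ => ∑ b ∈ (range (x + 1)).filter Nat.Prime, ar b ν ≤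
      ∑ b ∈ (range (x + 1)).filter Nat.Prime, P b - y * Real.sqrt (vr P x)) =
      fun ν => (fun n : ℤ => (artin n x : ℝ) ≤ ∑ b ∈ (range (x + 1)).filter Nat.Prime, P b - y * Real.sqrt (vr P x)) (ν 0) := by
    funext ν
    rw [ar_sum x ν]
  rw [e1, e2, e (fun n : ℤ => ∑ b ∈ (range (x + 1)).filter Nat.Prime, P b + y * Real.sqrt (vr P x) ≤ (artin n x : ℝ)),
    e (fun n : ℤ => (artin n x : ℝ) ≤ ∑ b ∈ (range (x + 1)).filter Nat.Prime, P b - y * Real.sqrt (vr P x))] at h1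
  exact h1

/-- the variance in Artin's case tends to infinity -/
lemma vr_artin : Filter.Tendsto (fun x : ℕ => vr (fun q => (Nat.totient (q - 1) : ℝ) / q) x) Filter.atTop Filter.atTop := by
  classical
  rw [Filter.tendsto_atTop]
  intro V
  obtain ⟨x₀, hx₀⟩ := mass_tendsto (2 * V)
  filter_upwards [Filter.eventually_ge_atTop x₀] with x hx
  have h1 := hx₀ x hx
  have h2 := variance_ge (fun _ j => j = 1) ⊥ x
  rw [modelVariance_fX] at h2
  have h3 : ∑ q ∈ (range (x + 1)).filter Nat.Prime, dens (fun _ j => j = 1) ⊥ q * (1 - dens (fun _ j => j = 1) ⊥ q) =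
      vr (fun q => (Nat.totient (q - 1) : ℝ) / q) x := by
    unfold vr
    exact sum_congr rfl fun q hq => by rw [dens_artin (mem_filter.1 hq).2]
  rw [h3] at h2
  linarith

end Q69CR.Len
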