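import Pool.Agent.Q69.CR.Func

/-!
# Estimates in the model
-/

set_option autoImplicit false
set_option linter.unusedSectionVars false

namespace Q69CR

open Finset
open Q282LT
open Q282.BP (bx mem_bx card_bx bx_mean mean_mul_period)
open Pool.Agent.TH894.NE (box mem_box card_box Per mean mean_mul mean_mono mean_add mean_const mean_prod)

/-- functions of residues to coprime moduli with mean zero, bounded by 2 -/
structure Sys (d : ℕ) (I : Finset ℕ) (q : ℕ → ℕ) (F : ℕ → (Fin d → ℕ) → ℝ) : Prop where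
  hq : ∀ a ∈ I, 1 ≤ q a
  hco : ∀ a ∈ I, ∀ b ∈ I, a ≠ b → Nat.Coprime (q a) (q b)
  hF : ∀ a ∈ I, Per (q a) (F a)
  h0 : ∀ a ∈ I, mean d (q a) (F a) = 0
  hb : ∀ a ∈ I, ∀ n, |F a n| ≤ 2

/-- the average in the model of a function of the sum -/
noncomputable def Em (d : ℕ) (I : Finset ℕ) (q : ℕ → ℕ) (F : ℕ → (Fin d → ℕ) → ℝ) (g : ℝ → ℝ) : ℝ :=
  mean d (∏ a ∈ I, q a) (fun n => g (∑ a ∈ I, F a n))

/-- the variance in the model -/
noncomputable def Vr (d : ℕ) (I : Finset ℕ) (q : ℕ → ℕ) (F : ℕ → (Fin d → ℕ) → ℝ) : ℝ := ∑ a ∈ I, va d q F a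

variable {d : ℕ} {I : Finset ℕ} {q : ℕ → ℕ} {F : ℕ → (Fin d → ℕ) → ℝ}

lemma Em_mono {g g' : ℝ → ℝ} (h : ∀ s, g s ≤ g' s) : Em d I q F g ≤ Em d I q F g' := mean_mono fun n => h _

lemma Em_add (g g' : ℝ → ℝ) : Em d I q F (fun s => g s + g' s) = Em d I q F g + Em d I q F g' := mean_add _ _

lemma Em_mul (c : ℝ) (g : ℝ → ℝ) : Em d I q F (fun s => c * g s) = c * Em d I q F g := mean_mul _ _

namespace Sys

variable (S : Sys d I q F)
include S

lemma exp (t : ℝ) : Em d I q F (fun s => Real.exp (t * s)) = Real.exp (Psi d I q F t) := exp_sum S.hq S.hco S.hF S.h0 t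

lemma V_nonneg : 0 ≤ Vr d I q F := sum_nonneg fun a ha => by
  unfold va
  have := mean_mono (d := d) (q := q a) (F := fun _ => 0) (G := fun n => F a n ^ 2) (fun n => sq_nonneg _)
  rwa [mean_const d (q a) (S.hq a ha)] at this

lemma V_le : Vr d I q F ≤ 4 * I.card := by
  have h1 : ∀ a ∈ I, va d q F a ≤ 4 := by
    intro a ha
    unfold va
    have := mean_mono (d := d) (q := q a) (F := fun n => F a n ^ 2) (G := fun _ => 4) (fun n => by
      have h2 := S.hb a ha n
      rw [← sq_abs]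
      nlinarith [abs_nonneg (F a n)])
    rwa [mean_const d (q a) (S.hq a ha)] at this
  calc Vr d I q F ≤ ∑ a ∈ I, (4 : ℝ) := sum_le_sum h1
    _ = 4 * I.card := by rw [sum_const, nsmul_eq_mul, mul_comm]

lemma mu2_bounds {T : ℝ} (t : ℝ) (ht : |t| ≤ T) :
    Real.exp (-(4 * T)) * Vr d I q F ≤ mu2 d I q F t ∧ mu2 d I q F t ≤ Real.exp (2 * T) * Vr d I q F := by
  constructor
  · refine le_trans (mul_le_mul_of_nonneg_right (Real.exp_le_exp.2 ?_) S.V_nonneg) (mu2_ge S.hq S.h0 S.hb t)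
    linarith
  · refine (mu2_le S.hq S.h0 S.hb t).trans (mul_le_mul_of_nonneg_right (Real.exp_le_exp.2 ?_) S.V_nonneg)
    linarith

lemma Psi_le {T u : ℝ} (hu : |u| ≤ T) : Psi d I q F u ≤ Real.exp (2 * T) * Vr d I q F * u ^ 2 := by
  have hT0 : 0 ≤ T := (abs_nonneg _).trans hu
  have h := quad (P := Psi d I q F) (m := mu1 d I q F) (s := mu2 d I q F) (T := T) (C := Real.exp (2 * T) * Vr d I q F)
    (Psi_deriv S.hq S.h0) (mu1_deriv S.hq S.h0)
    (fun t ht => le_trans (mul_nonneg (Real.exp_pos _).le S.V_nonneg) (S.mu2_bounds t ht).1)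
    (fun t ht => (S.mu2_bounds t ht).2) (t := 0) (h := u) (by rw [abs_zero]; exact hT0) (by rw [zero_add]; exact hu)
  rw [zero_add, Psi_zero S.hq, mu1_zero S.h0] at h
  linarith

lemma exp_abs {T u : ℝ} (hu0 : 0 ≤ u) (hu : u ≤ T) :
    Em d I q F (fun s => Real.exp (u * |s|)) ≤ 2 * Real.exp (Real.exp (2 * T) * Vr d I q F * u ^ 2) := by
  have h1 : Em d I q F (fun s => Real.exp (u * |s|)) ≤ Em d I q F (fun s => Real.exp (u * s) + Real.exp (-u * s)) := by
    refine Em_mono fun s => ?_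
    rcases le_total 0 s with h | h
    · rw [abs_of_nonneg h]
      linarith [Real.exp_pos (-u * s)]
    · rw [abs_of_nonpos h]
      have : u * -s = -u * s := by ring
      rw [this]
      linarith [Real.exp_pos (u * s)]
  rw [Em_add, S.exp, S.exp] at h1
  have h2 := Real.exp_le_exp.2 (S.Psi_le (T := T) (u := u) (by rw [abs_of_nonneg hu0]; exact hu))
  have h3 := Real.exp_le_exp.2 (S.Psi_le (T := T) (u := -u) (by rw [abs_neg, abs_of_nonneg hu0]; exact hu))
  rw [neg_sq] at h3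
  linarith

/-- the average of the nonnegative polynomial -/
lemma A_le {T t : ℝ} (k : ℕ) (ht0 : 0 ≤ t) (ht : 2 * t ≤ T) :
    Em d I q F (fun s => A k (t * s)) ≤ Real.exp (Psi d I q F t) +
      4 * Real.exp (Real.exp (2 * T) * Vr d I q F * (2 * t) ^ 2 - (k + 1)) := by
  have h1 : Em d I q F (fun s => A k (t * s)) ≤
      Em d I q F (fun s => Real.exp (t * s) + 2 * Real.exp (-(k + 1 : ℝ)) * Real.exp (2 * t * |s|)) := by
    refine Em_mono fun s => ?_
    have h2 := A_close k (t * s)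
    have h3 : 2 * Real.exp (2 * |t * s| - (k + 1)) = 2 * Real.exp (-(k + 1 : ℝ)) * Real.exp (2 * t * |s|) := by
      rw [mul_assoc 2, ← Real.exp_add, abs_mul, abs_of_nonneg ht0]
      congr 2
      ring
    rw [h3] at h2
    linarith [(abs_le.1 h2).2]
  rw [Em_add, S.exp, Em_mul] at h1
  have h4 := S.exp_abs (T := T) (u := 2 * t) (by linarith) ht
  have h5 : 2 * Real.exp (-(k + 1 : ℝ)) * Em d I q F (fun s => Real.exp (2 * t * |s|)) ≤
      2 * Real.exp (-(k + 1 : ℝ)) * (2 * Real.exp (Real.exp (2 * T) * Vr d I q F * (2 * t) ^ 2)) :=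
    mul_le_mul_of_nonneg_left h4 (by positivity)
  have h6 : 2 * Real.exp (-(k + 1 : ℝ)) * (2 * Real.exp (Real.exp (2 * T) * Vr d I q F * (2 * t) ^ 2)) =
      4 * Real.exp (Real.exp (2 * T) * Vr d I q F * (2 * t) ^ 2 - (k + 1)) := by
    rw [sub_eq_add_neg, Real.exp_add]
    ring
  linarith

omit S in
lemma sq_le_exp (z : ℝ) : z ^ 2 ≤ 2 * (Real.exp z + Real.exp (-z)) := by
  have h1 := Real.quadratic_le_exp_of_nonneg (abs_nonneg z)
  rw [sq_abs] at h1
  have h2 : 0 ≤ |z| := abs_nonneg z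
  rcases abs_choice z with h | h
  · rw [h] at h1 h2
    linarith [Real.exp_pos (-z)]
  · rw [h] at h1 h2
    linarith [Real.exp_pos z]

omit S in
lemma sq_le_exp_abs (z : ℝ) : z ^ 2 ≤ 2 * Real.exp |z| := by
  have h1 := Real.quadratic_le_exp_of_nonneg (abs_nonneg z)
  rw [sq_abs] at h1
  linarith [abs_nonneg z]

/-- the second moment around the tilted mean -/
lemma second {T t : ℝ} (ht0 : 0 < t) (ht : 2 * t ≤ T) (hv : 1 ≤ t ^ 2 * Vr d I q F) :
    Em d I q F (fun s => (s - mu1 d I q F t) ^ 2 * Real.exp (t * s)) ≤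
      4 * Vr d I q F * Real.exp (Real.exp (2 * T)) * Real.exp (Psi d I q F t) := by
  obtain ⟨V, hV⟩ : ∃ V, V = Vr d I q F := ⟨_, rfl⟩
  rw [← hV] at hv ⊢
  have hV0 : 0 < V := by
    by_contra h
    push Not at h
    have : t ^ 2 * V ≤ 0 := mul_nonpos_of_nonneg_of_nonpos (sq_nonneg t) h
    linarith
  obtain ⟨h, hh⟩ : ∃ h : ℝ, h = 1 / Real.sqrt V := ⟨_, rfl⟩
  have hsV : 0 < Real.sqrt V := Real.sqrt_pos.2 hV0
  have hh0 : 0 < h := by rw [hh]; positivity
  have hh2 : V * h ^ 2 = 1 := by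
    rw [hh, div_pow, Real.sq_sqrt hV0.le]
    field_simp
  have hht : h ≤ t := by
    have h1 : h ^ 2 ≤ t ^ 2 := by
      have h2 : V * h ^ 2 ≤ V * t ^ 2 := by
        rw [hh2]
        linarith
      exact le_of_mul_le_mul_left h2 hV0
    exact (pow_le_pow_iff_left₀ hh0.le ht0.le (by norm_num)).1 h1
  obtain ⟨m, hm⟩ : ∃ m, m = mu1 d I q F t := ⟨_, rfl⟩
  rw [← hm]
  have h1 : ∀ s : ℝ, (s - m) ^ 2 * Real.exp (t * s) ≤
      (2 * V * Real.exp (-(h * m))) * Real.exp ((t + h) * s) + (2 * V * Real.exp (h * m)) * Real.exp ((t - h) * s) := by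
    intro s
    have h2 := sq_le_exp (h * (s - m))
    have h3 : (s - m) ^ 2 = V * (h * (s - m)) ^ 2 := by
      rw [mul_pow, ← mul_assoc, hh2, one_mul]
    have e1 : Real.exp (h * (s - m)) * Real.exp (t * s) = Real.exp (-(h * m)) * Real.exp ((t + h) * s) := by
      rw [← Real.exp_add, ← Real.exp_add]
      congr 1
      ring
    have e2 : Real.exp (-(h * (s - m))) * Real.exp (t * s) = Real.exp (h * m) * Real.exp ((t - h) * s) := by
      rw [← Real.exp_add, ← Real.exp_add]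
      congr 1
      ring
    calc (s - m) ^ 2 * Real.exp (t * s) = V * (h * (s - m)) ^ 2 * Real.exp (t * s) := by rw [h3]
      _ ≤ V * (2 * (Real.exp (h * (s - m)) + Real.exp (-(h * (s - m))))) * Real.exp (t * s) :=
          mul_le_mul_of_nonneg_right (mul_le_mul_of_nonneg_left h2 hV0.le) (Real.exp_pos _).le
      _ = 2 * V * (Real.exp (h * (s - m)) * Real.exp (t * s)) + 2 * V * (Real.exp (-(h * (s - m))) * Real.exp (t * s)) := by ring
      _ = _ := by
          rw [e1, e2]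
          ring
  have h4 : Em d I q F (fun s => (s - m) ^ 2 * Real.exp (t * s)) ≤
      Em d I q F (fun s => (2 * V * Real.exp (-(h * m))) * Real.exp ((t + h) * s) + (2 * V * Real.exp (h * m)) * Real.exp ((t - h) * s)) :=
    Em_mono h1
  rw [Em_add, Em_mul, Em_mul, S.exp, S.exp] at h4
  have hq1 : ∀ h' : ℝ, |h'| ≤ h → h' ^ 2 = h ^ 2 → Psi d I q F (t + h') ≤ Psi d I q F t + h' * m + Real.exp (2 * T) := by
    intro h' hh' hsq
    have h5 := quad (P := Psi d I q F) (m := mu1 d I q F) (s := mu2 d I q F) (T := T) (C := Real.exp (2 * T) * Vr d I q F)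
      (Psi_deriv S.hq S.h0) (mu1_deriv S.hq S.h0)
      (fun t ht => le_trans (mul_nonneg (Real.exp_pos _).le S.V_nonneg) (S.mu2_bounds t ht).1)
      (fun t ht => (S.mu2_bounds t ht).2) (t := t) (h := h') (by rw [abs_of_pos ht0]; linarith)
      (by
        have := abs_le.1 hh'
        rw [abs_le]
        constructor <;> linarith)
    rw [← hm, ← hV, mul_assoc, hsq, hh2, mul_one] at h5
    exact h5
  have h5 := Real.exp_le_exp.2 (hq1 h (by rw [abs_of_pos hh0]) rfl)
  have h6 := Real.exp_le_exp.2 (hq1 (-h) (by rw [abs_neg, abs_of_pos hh0]) (neg_sq h))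
  rw [← sub_eq_add_neg] at h6
  have h7 : 2 * V * Real.exp (-(h * m)) * Real.exp (Psi d I q F (t + h)) ≤ 2 * V * Real.exp (Real.exp (2 * T)) * Real.exp (Psi d I q F t) := by
    calc 2 * V * Real.exp (-(h * m)) * Real.exp (Psi d I q F (t + h)) ≤
          2 * V * Real.exp (-(h * m)) * Real.exp (Psi d I q F t + h * m + Real.exp (2 * T)) :=
          mul_le_mul_of_nonneg_left h5 (by positivity)
      _ = 2 * V * (Real.exp (-(h * m)) * Real.exp (Psi d I q F t + h * m + Real.exp (2 * T))) := by ring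
      _ = _ := by
          rw [← Real.exp_add, mul_assoc (2 * V), ← Real.exp_add]
          congr 2
          ring
  have h8 : 2 * V * Real.exp (h * m) * Real.exp (Psi d I q F (t - h)) ≤ 2 * V * Real.exp (Real.exp (2 * T)) * Real.exp (Psi d I q F t) := by
    calc 2 * V * Real.exp (h * m) * Real.exp (Psi d I q F (t - h)) ≤
          2 * V * Real.exp (h * m) * Real.exp (Psi d I q F t + -h * m + Real.exp (2 * T)) :=
          mul_le_mul_of_nonneg_left h6 (by positivity)
      _ = 2 * V * (Real.exp (h * m) * Real.exp (Psi d I q F t + -h * m + Real.exp (2 * T))) := by ring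
      _ = _ := by
          rw [← Real.exp_add, mul_assoc (2 * V), ← Real.exp_add]
          congr 2
          ring
  linarith

/-- the average of the nonnegative polynomial over the window -/
lemma window {T t R : ℝ} (k : ℕ) (ht0 : 0 < t) (ht : 3 * t ≤ T) (hv : 1 ≤ t ^ 2 * Vr d I q F)
    (hR : R = 16 * Real.exp (Real.exp (2 * T)) * Vr d I q F) :
    3 / 4 * Real.exp (Psi d I q F t) - (8 + 4 * (Real.exp (2 * T)) ^ 2 * (t ^ 2 * Vr d I q F)) *
        Real.exp (Real.exp (2 * T) * Vr d I q F * (3 * t) ^ 2 - (k + 1)) ≤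
      Em d I q F (fun s => (1 - (s - mu1 d I q F t) ^ 2 / R) * A k (t * s)) := by
  obtain ⟨V, hV⟩ : ∃ V, V = Vr d I q F := ⟨_, rfl⟩
  rw [← hV] at hv hR ⊢
  have hV0 : 0 < V := by
    by_contra h
    push Not at h
    have : t ^ 2 * V ≤ 0 := mul_nonpos_of_nonneg_of_nonpos (sq_nonneg t) h
    linarith
  obtain ⟨C, hC⟩ : ∃ C, C = Real.exp (2 * T) := ⟨_, rfl⟩
  have hT0 : 0 ≤ T := by linarith
  have hC1 : 1 ≤ C := by
    rw [hC]
    exact Real.one_le_exp (by linarith)
  obtain ⟨m, hm⟩ : ∃ m, m = mu1 d I q F t := ⟨_, rfl⟩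
  have hm0 : 0 ≤ m ∧ m ≤ C * V * t := by
    have h1 := incr (m := mu1 d I q F) (s := mu2 d I q F) (T := T) (c := 0) (C := Real.exp (2 * T) * Vr d I q F)
      (mu1_deriv S.hq S.h0) (fun t ht => le_trans (mul_nonneg (Real.exp_pos _).le S.V_nonneg) (S.mu2_bounds t ht).1)
      (fun t ht => (S.mu2_bounds t ht).2) (x := 0) (y := t) (by linarith) ht0.le (by linarith)
    rw [mu1_zero S.h0, ← hm, ← hV, ← hC] at h1
    constructor
    · linarith [h1.1]
    · linarith [h1.2]
  rw [← hm]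
  rw [← hC] at hR ⊢
  have hR1 : 16 * V ≤ R := by
    rw [hR]
    have : 1 ≤ Real.exp C := Real.one_le_exp (by linarith)
    nlinarith
  have hR0 : 0 < R := by linarith
  -- the size of the factor
  have hW : ∀ s : ℝ, |1 - (s - m) ^ 2 / R| ≤ (2 + C ^ 2 * (t ^ 2 * V)) * Real.exp (t * |s|) := by
    intro s
    have h1 : |1 - (s - m) ^ 2 / R| ≤ 1 + (s - m) ^ 2 / R := by
      have : 0 ≤ (s - m) ^ 2 / R := by positivity
      rw [abs_le]
      constructor <;> linarith
    have h2 : (s - m) ^ 2 ≤ 2 * s ^ 2 + 2 * m ^ 2 := by nlinarith [sq_nonneg (s + m)]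
    have h3 : s ^ 2 ≤ 2 * V * Real.exp (t * |s|) := by
      have h4 := sq_le_exp_abs (t * s)
      rw [abs_mul, abs_of_pos ht0, mul_pow] at h4
      have h5 : s ^ 2 ≤ V * (t ^ 2 * s ^ 2) := by nlinarith [sq_nonneg s]
      nlinarith
    have h4 : m ^ 2 ≤ C ^ 2 * (t ^ 2 * V) * V := by
      calc m ^ 2 ≤ (C * V * t) ^ 2 := pow_le_pow_left₀ hm0.1 hm0.2 2
        _ = _ := by ring
    have h5 : (s - m) ^ 2 / R ≤ Real.exp (t * |s|) + C ^ 2 * (t ^ 2 * V) := by
      rw [div_le_iff₀ hR0]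
      have h6 : (Real.exp (t * |s|) + C ^ 2 * (t ^ 2 * V)) * (16 * V) ≤ (Real.exp (t * |s|) + C ^ 2 * (t ^ 2 * V)) * R := by
        refine mul_le_mul_of_nonneg_left hR1 ?_
        positivity
      have h7 : 0 ≤ C ^ 2 * (t ^ 2 * V) * V := by positivity
      have h8 : 0 ≤ V * Real.exp (t * |s|) := by positivity
      nlinarith
    have h6 : 1 ≤ Real.exp (t * |s|) := Real.one_le_exp (by positivity)
    have h7 : 0 ≤ C ^ 2 * (t ^ 2 * V) := by positivity
    nlinarith
  have hlow : ∀ s : ℝ, Real.exp (t * s) + (-(1 / R)) * ((s - m) ^ 2 * Real.exp (t * s)) +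
      (-(2 * (2 + C ^ 2 * (t ^ 2 * V)) * Real.exp (-(k + 1 : ℝ)))) * Real.exp (3 * t * |s|) ≤
      (1 - (s - m) ^ 2 / R) * A k (t * s) := by
    intro s
    have h1 := A_close k (t * s)
    have h2 : |(1 - (s - m) ^ 2 / R) * (A k (t * s) - Real.exp (t * s))| ≤
        (2 + C ^ 2 * (t ^ 2 * V)) * Real.exp (t * |s|) * (2 * Real.exp (2 * |t * s| - (k + 1))) := by
      rw [abs_mul]
      exact mul_le_mul (hW s) h1 (abs_nonneg _) (by positivity)
    have h3 : (2 + C ^ 2 * (t ^ 2 * V)) * Real.exp (t * |s|) * (2 * Real.exp (2 * |t * s| - (k + 1))) =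
        2 * (2 + C ^ 2 * (t ^ 2 * V)) * Real.exp (-(k + 1 : ℝ)) * Real.exp (3 * t * |s|) := by
      rw [abs_mul, abs_of_pos ht0]
      have e1 : Real.exp (t * |s|) * Real.exp (2 * (t * |s|) - (k + 1)) = Real.exp (-(k + 1 : ℝ)) * Real.exp (3 * t * |s|) := by
        rw [← Real.exp_add, ← Real.exp_add]
        congr 1
        ring
      linear_combination (2 * (2 + C ^ 2 * (t ^ 2 * V))) * e1
    rw [h3] at h2
    have h4 := (abs_le.1 h2).1
    have h5 : (1 - (s - m) ^ 2 / R) * A k (t * s) = Real.exp (t * s) + (-(1 / R)) * ((s - m) ^ 2 * Real.exp (t * s)) +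
        (1 - (s - m) ^ 2 / R) * (A k (t * s) - Real.exp (t * s)) := by ring
    rw [h5]
    linarith
  have h1 := Em_mono (d := d) (I := I) (q := q) (F := F) hlow
  rw [Em_add, Em_add, Em_mul, Em_mul, S.exp] at h1
  have h2 := S.second (T := T) ht0 (by linarith) (by rw [← hV]; exact hv)
  rw [← hm, ← hV, ← hC] at h2
  have h3 := S.exp_abs (T := T) (u := 3 * t) (by linarith) ht
  rw [← hV, ← hC] at h3
  have h4 : 1 / R * Em d I q F (fun s => (s - m) ^ 2 * Real.exp (t * s)) ≤ 1 / 4 * Real.exp (Psi d I q F t) := by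
    calc 1 / R * Em d I q F (fun s => (s - m) ^ 2 * Real.exp (t * s)) ≤
          1 / R * (4 * V * Real.exp C * Real.exp (Psi d I q F t)) := mul_le_mul_of_nonneg_left h2 (by positivity)
      _ = 1 / 4 * Real.exp (Psi d I q F t) := by
          rw [hR]
          field_simp
          ring
  have h5 : 2 * (2 + C ^ 2 * (t ^ 2 * V)) * Real.exp (-(k + 1 : ℝ)) * Em d I q F (fun s => Real.exp (3 * t * |s|)) ≤
      (8 + 4 * C ^ 2 * (t ^ 2 * V)) * Real.exp (C * V * (3 * t) ^ 2 - (k + 1)) := by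
    calc 2 * (2 + C ^ 2 * (t ^ 2 * V)) * Real.exp (-(k + 1 : ℝ)) * Em d I q F (fun s => Real.exp (3 * t * |s|)) ≤
          2 * (2 + C ^ 2 * (t ^ 2 * V)) * Real.exp (-(k + 1 : ℝ)) * (2 * Real.exp (C * V * (3 * t) ^ 2)) :=
          mul_le_mul_of_nonneg_left h3 (by positivity)
      _ = _ := by
          rw [sub_eq_add_neg, Real.exp_add]
          ring
  linarith

end Sys

end Q69CR
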