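import Pool.Agent.Q69.CR.Cramer
import Pool.Agent.Q282.CL.Don
import Pool.Agent.Q282.LT.PoisZ

/-!
# Moderate deviations of sums over the first primes of functions of the residues
-/

set_option autoImplicit false
set_option linter.unusedSectionVars false

namespace Q69CR

open Finset Filter
open Q282LT (va zbox zprop zbox_card)
open Q282.CL (mn bn mem_PP_bn sum_nth card_PP_bn inv_sum_le log_div_sqrt mean_av mn_eq abs_av_le_const)
open Q282.BP (bx mem_bx card_bx PP)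
open Pool.Agent.TH894.NE (box mem_box card_box Per mean mean_mul mean_mono mean_add mean_const mean_prod)

/-- the normalised function of the residues -/
noncomputable def nf {d : ℕ} (H : (p : ℕ) → (Fin d → ZMod p) → ℝ) (B : ℝ) (N : Fin d → ℤ) (p : ℕ) (n : Fin d → ℕ) : ℝ :=
  (H p (fun i => ((N i + (n i : ℤ) : ℤ) : ZMod p)) - mn H p) / B

lemma mean_nf {d : ℕ} (G : (p : ℕ) → (Fin d → ZMod p) → ℝ) (N : Fin d → ℤ) (p : ℕ) (hp : p.Prime) :
    mean d p (fun n => G p (fun i => ((N i + (n i : ℤ) : ℤ) : ZMod p))) = mn G p := by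
  haveI : Fact p.Prime := ⟨hp⟩
  rw [mn_eq]
  exact mean_av (Equiv.refl (Fin d)) p N (G p)

lemma mn_abs {d : ℕ} {H : (p : ℕ) → (Fin d → ZMod p) → ℝ} {B : ℝ} (hH : ∀ p : ℕ, p.Prime → ∀ u, |H p u| ≤ B) (p : ℕ) (hp : p.Prime) :
    |mn H p| ≤ B := by
  haveI : Fact p.Prime := ⟨hp⟩
  rw [mn_eq]
  exact abs_av_le_const (hH p hp)

lemma nf_sys {d : ℕ} {H : (p : ℕ) → (Fin d → ZMod p) → ℝ} {B : ℝ} (hB : 0 < B) (hH : ∀ p : ℕ, p.Prime → ∀ u, |H p u| ≤ B)
    (N : Fin d → ℤ) (n : ℕ) : Sys d (PP (bn n)) (fun p => p) (nf H B N) := by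
  refine ⟨fun p hp => (mem_PP_bn.1 hp).1.one_lt.le, fun p hp p' hp' hne =>
    (Nat.coprime_primes (mem_PP_bn.1 hp).1 (mem_PP_bn.1 hp').1).2 hne, fun p hp m => ?_, fun p hp => ?_, fun p hp m => ?_⟩
  · show (H p _ - mn H p) / B = (H p _ - mn H p) / B
    congr 3
    funext i
    rw [Int.cast_add, Int.cast_add, Int.cast_natCast, Int.cast_natCast, ZMod.natCast_mod]
  · have hp' := (mem_PP_bn.1 hp).1
    have e : nf H B N p = fun n => 1 / B * (H p (fun i => ((N i + (n i : ℤ) : ℤ) : ZMod p)) + -mn H p) := by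
      funext n
      unfold nf
      ring
    rw [e, mean_mul, mean_add, mean_nf H N p hp', mean_const d p hp'.one_lt.le]
    ring
  · have hp' := (mem_PP_bn.1 hp).1
    unfold nf
    rw [abs_div, abs_of_pos hB, div_le_iff₀ hB]
    have h1 := hH p hp' (fun i => ((N i + (m i : ℤ) : ℤ) : ZMod p))
    have h2 := mn_abs hH p hp'
    exact (abs_sub _ _).trans (by linarith)

lemma va_nf {d : ℕ} {H : (p : ℕ) → (Fin d → ZMod p) → ℝ} {B : ℝ} (hB : 0 < B)
    (N : Fin d → ℤ) (p : ℕ) (hp : p.Prime) :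
    va d (fun p => p) (nf H B N) p = (mn (fun p u => H p u ^ 2) p - mn H p ^ 2) / B ^ 2 := by
  unfold va
  have e : (fun n => nf H B N p n ^ 2) = fun n => 1 / B ^ 2 * ((fun p u => H p u ^ 2) p (fun i => ((N i + (n i : ℤ) : ℤ) : ZMod p)) +
      (-(2 * mn H p) * H p (fun i => ((N i + (n i : ℤ) : ℤ) : ZMod p)) + mn H p ^ 2)) := by
    funext n
    unfold nf
    field_simp
    ring
  rw [e, mean_mul, mean_add, mean_add, mean_mul, mean_nf (fun p u => H p u ^ 2) N p hp, mean_nf H N p hp,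
    mean_const d p hp.one_lt.le]
  ring

lemma n1 {e : ℝ} (h0 : 0 < e) (h1 : e ≤ 1) : (1 + 3 * (e / 16)) ^ 2 ≤ 1 + e / 2 := by nlinarith

lemma n2 {e : ℝ} (h0 : 0 < e) (h1 : e ≤ 1) : (1 + e / 4) * (1 + e / 2) ≤ 1 + e := by nlinarith

lemma n3 {η : ℝ} (h0 : 0 < η) (h1 : η ≤ 1 / 16) : 1 + η ≤ (1 + 3 * η) * (1 - η) := by nlinarith

lemma n4 {η : ℝ} (h0 : 0 < η) : (1 - 2 * η) * (1 + η) ≤ 1 - η := by nlinarith

lemma n5 (e : ℝ) : 1 - e / 4 ≤ (1 - 2 * (e / 16)) ^ 2 := by nlinarith [sq_nonneg e]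

lemma n6 {e : ℝ} (h0 : 0 < e) : 1 - e ≤ (1 - e / 4) * (1 - e / 4) := by nlinarith [sq_nonneg e]

lemma n7 {η : ℝ} (h0 : 0 < η) (h1 : η ≤ 1 / 16) : (1 - η) ^ 2 ≤ 1 - η := by nlinarith

lemma n8 {η : ℝ} (h0 : 0 < η) : 1 + η ≤ (1 + η) ^ 2 := by nlinarith

/-- **Moderate deviations of sums over the first primes.** -/
theorem mdp_primes (d : ℕ) (B : ℝ) (hB : 1 ≤ B) (ε : ℝ) (hε : 0 < ε) : ∃ K y₀ δ : ℝ, 0 < K ∧ 1 ≤ y₀ ∧ 0 < δ ∧
    ∀ H : (p : ℕ) → (Fin d → ZMod p) → ℝ, (∀ p : ℕ, p.Prime → ∀ u, |H p u| ≤ B) →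
      (∀ p : ℕ, p.Prime → |mn H p| ≤ B / p) → (∀ p : ℕ, p.Prime → |mn (fun p u => H p u ^ 2) p - 1| ≤ B / p) →
      ∀ (n : ℕ) (y : ℝ), y₀ ≤ y → y ≤ δ * Real.sqrt n → ∀ (N : Fin d → ℤ) (L : Fin d → ℕ),
        (∀ i, (Nat.nth Nat.Prime n : ℝ) ^ (K * y ^ 2) ≤ L i) →
      Real.exp (-((1 + ε) * (y ^ 2 / 2))) ≤
        zprop N L (fun t => y * Real.sqrt n ≤ ∑ k ∈ range n, H (Nat.nth Nat.Prime k) (fun i => (t i : ZMod _))) ∧
      zprop N L (fun t => y * Real.sqrt n ≤ ∑ k ∈ range n, H (Nat.nth Nat.Prime k) (fun i => (t i : ZMod _))) ≤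
        Real.exp (-((1 - ε) * (y ^ 2 / 2))) := by
  classical
  have hB0 : 0 < B := by linarith
  obtain ⟨e, he⟩ : ∃ e, e = min ε 1 := ⟨_, rfl⟩
  have he0 : 0 < e := by rw [he]; positivity
  have he1 : e ≤ 1 := by rw [he]; exact min_le_right _ _
  have heε : e ≤ ε := by rw [he]; exact min_le_left _ _
  obtain ⟨η, hη⟩ : ∃ η, η = e / 16 := ⟨_, rfl⟩
  have hη0 : 0 < η := by rw [hη]; positivity
  have hη1 : η ≤ 1 / 16 := by rw [hη]; linarith
  obtain ⟨K₀, y₁, δ₁, hK₀, hy₁, hδ₁, hmdp⟩ := mdp (e / 4) (by linarith)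
  obtain ⟨n₀, hn₀⟩ : ∃ n₀ : ℕ, ∀ n : ℕ, n₀ ≤ n → (1 + Real.log n) / Real.sqrt n ≤ η / (B + B ^ 2) := by
    have h1 := log_div_sqrt.eventually (eventually_lt_nhds (by positivity : (0 : ℝ) < η / (B + B ^ 2)))
    obtain ⟨n₀, hn₀⟩ := eventually_atTop.1 h1
    exact ⟨n₀, fun n hn => (hn₀ n hn).le⟩
  obtain ⟨δ, hδ⟩ : ∃ δ, δ = δ₁ / (4 * B) := ⟨_, rfl⟩
  have hδ0 : 0 < δ := by rw [hδ]; positivity
  refine ⟨d + 4 * K₀, max (2 * y₁) (δ * Real.sqrt (n₀ + 1)), δ, by positivity, by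
    refine le_trans ?_ (le_max_left _ _)
    linarith, hδ0, ?_⟩
  intro H hH h2 h3 n y hy hyn N L hL
  have hy2 : 2 * y₁ ≤ y := (le_max_left _ _).trans hy
  have hy1 : 1 ≤ y := by linarith
  have hn : n₀ + 1 ≤ n := by
    have h4 : δ * Real.sqrt (n₀ + 1) ≤ δ * Real.sqrt n := ((le_max_right _ _).trans hy).trans hyn
    have h5 : Real.sqrt (n₀ + 1) ≤ Real.sqrt n := le_of_mul_le_mul_left h4 hδ0
    have h6 := (Real.sqrt_le_sqrt_iff (Nat.cast_nonneg n)).1 h5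
    exact_mod_cast h6
  have hnr : (1 : ℝ) ≤ n := by exact_mod_cast (by omega : 1 ≤ n)
  have hsn : 1 ≤ Real.sqrt n := Real.one_le_sqrt.2 hnr
  have hsn0 : 0 < Real.sqrt n := by linarith
  have hnn : Real.sqrt n ^ 2 = n := Real.sq_sqrt (by linarith)
  have hlog : (B + B ^ 2) * (1 + Real.log n) ≤ η * Real.sqrt n := by
    have h4 := hn₀ n (by omega)
    rw [div_le_div_iff₀ hsn0 (by positivity)] at h4
    linarith
  have hlog0 : 0 ≤ 1 + Real.log n := by
    have := Real.log_nonneg hnr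
    linarith
  -- the mean
  obtain ⟨M, hM⟩ : ∃ M, M = ∑ p ∈ PP (bn n), mn H p := ⟨_, rfl⟩
  have hMb : |M| ≤ η * Real.sqrt n := by
    rw [hM]
    refine (abs_sum_le_sum_abs _ _).trans ?_
    have h4 : ∑ p ∈ PP (bn n), |mn H p| ≤ ∑ p ∈ PP (bn n), B * (1 / (p : ℝ)) := by
      refine sum_le_sum fun p hp => ?_
      have h5 := h2 p (mem_PP_bn.1 hp).1
      rw [mul_one_div]
      exact h5
    refine h4.trans ?_
    rw [← mul_sum]
    have h5 := mul_le_mul_of_nonneg_left (inv_sum_le n) hB0.le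
    have h6 : B * (1 + Real.log n) ≤ (B + B ^ 2) * (1 + Real.log n) :=
      mul_le_mul_of_nonneg_right (by linarith [sq_nonneg B]) hlog0
    linarith
  -- the variance
  have S := nf_sys hB0 hH N n
  obtain ⟨V, hV⟩ : ∃ V, V = Vr d (PP (bn n)) (fun p => p) (nf H B N) := ⟨_, rfl⟩
  have hVB : |V * B ^ 2 - n| ≤ η * n := by
    have h4 : V * B ^ 2 - n = ∑ p ∈ PP (bn n), ((mn (fun p u => H p u ^ 2) p - 1) - mn H p ^ 2) := by
      rw [hV]
      unfold Vr
      rw [sum_mul]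
      have h5 : (n : ℝ) = ∑ p ∈ PP (bn n), (1 : ℝ) := by
        rw [sum_const, card_PP_bn, nsmul_eq_mul, mul_one]
      rw [h5, ← sum_sub_distrib]
      refine sum_congr rfl fun p hp => ?_
      rw [va_nf hB0 N p (mem_PP_bn.1 hp).1]
      field_simp
      ring
    rw [h4]
    refine (abs_sum_le_sum_abs _ _).trans ?_
    have h5 : ∑ p ∈ PP (bn n), |(mn (fun p u => H p u ^ 2) p - 1) - mn H p ^ 2| ≤ ∑ p ∈ PP (bn n), (B + B ^ 2) * (1 / (p : ℝ)) := by
      refine sum_le_sum fun p hp => ?_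
      have hp' := (mem_PP_bn.1 hp).1
      have hpr : (1 : ℝ) ≤ p := by exact_mod_cast hp'.one_lt.le
      have h6 := h3 p hp'
      have h7 := h2 p hp'
      have h8 : mn H p ^ 2 ≤ B ^ 2 / p := by
        rw [← sq_abs]
        calc |mn H p| ^ 2 ≤ (B / p) ^ 2 := pow_le_pow_left₀ (abs_nonneg _) h7 2
          _ = B ^ 2 / p * (1 / p) := by ring
          _ ≤ B ^ 2 / p * 1 := mul_le_mul_of_nonneg_left (by rw [div_le_one (by linarith)]; exact hpr) (by positivity)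
          _ = B ^ 2 / p := mul_one _
      calc |(mn (fun p u => H p u ^ 2) p - 1) - mn H p ^ 2| ≤ |mn (fun p u => H p u ^ 2) p - 1| + |mn H p ^ 2| := abs_sub _ _
        _ ≤ B / p + B ^ 2 / p := by
            rw [abs_of_nonneg (sq_nonneg (mn H p))]
            linarith
        _ = (B + B ^ 2) * (1 / (p : ℝ)) := by ring
    refine h5.trans ?_
    rw [← mul_sum]
    have h6 := mul_le_mul_of_nonneg_left (inv_sum_le n) (by positivity : 0 ≤ B + B ^ 2)
    have h7 : η * Real.sqrt n ≤ η * n := by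
      refine mul_le_mul_of_nonneg_left ?_ hη0.le
      have h8 := mul_le_mul_of_nonneg_left hsn hsn0.le
      rw [← sq, hnn, mul_one] at h8
      exact h8
    linarith
  have hV0 : 0 < V := by
    have h4 := (abs_le.1 hVB).1
    have h6 : η * n ≤ 1 / 16 * n := mul_le_mul_of_nonneg_right hη1 (by linarith)
    have h5 : 0 < V * B ^ 2 := by linarith
    exact pos_of_mul_pos_left h5 (by positivity)
  have hsV : Real.sqrt V * B = Real.sqrt (V * B ^ 2) := by
    rw [Real.sqrt_mul hV0.le, Real.sqrt_sq hB0.le]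
  have hsV1 : (1 - η) * Real.sqrt n ≤ Real.sqrt V * B := by
    rw [hsV]
    refine Real.le_sqrt_of_sq_le ?_
    rw [mul_pow, hnn]
    have h4 := (abs_le.1 hVB).1
    have h5 := n7 hη0 hη1
    have h6 := mul_le_mul_of_nonneg_right h5 (by linarith : (0 : ℝ) ≤ n)
    linarith
  have hsV2 : Real.sqrt V * B ≤ (1 + η) * Real.sqrt n := by
    rw [hsV, Real.sqrt_le_left (by positivity), mul_pow, hnn]
    have h4 := (abs_le.1 hVB).2
    have h5 := n8 hη0
    have h6 := mul_le_mul_of_nonneg_right h5 (by linarith : (0 : ℝ) ≤ n)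
    linarith
  have hsV0 : 0 < Real.sqrt V := Real.sqrt_pos.2 hV0
  -- the modulus
  obtain ⟨Y, hY⟩ : ∃ Y, Y = Nat.nth Nat.Prime n := ⟨_, rfl⟩
  have hYn : n + 2 ≤ Y := by rw [hY]; exact Nat.add_two_le_nth_prime n
  have hY2 : 2 ≤ Y := by omega
  have hYr : (2 : ℝ) ≤ Y := by exact_mod_cast hY2
  have hqY : ∀ p ∈ PP (bn n), p ≤ Y := fun p hp => by
    rw [hY]
    exact (mem_PP_bn.1 hp).2.le
  have hside : ∀ z : ℝ, z ^ 2 ≤ 4 * y ^ 2 → ∀ i, (d + 1) * (Y : ℝ) ^ (K₀ * z ^ 2) ≤ L i := by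
    intro z hz i
    refine le_trans ?_ (hL i)
    rw [← hY]
    have h4 : ((d : ℝ) + 1) ≤ (Y : ℝ) ^ ((d : ℝ) * y ^ 2) := by
      have h5 : ((d : ℝ) + 1) ≤ 2 ^ d := by
        have : d + 1 ≤ 2 ^ d := Nat.lt_two_pow_self
        exact_mod_cast this
      have h6 : (2 : ℝ) ^ d ≤ (Y : ℝ) ^ d := pow_le_pow_left₀ (by norm_num) hYr d
      have h7 : (Y : ℝ) ^ d ≤ (Y : ℝ) ^ ((d : ℝ) * y ^ 2) := by
        rw [← Real.rpow_natCast]
        refine Real.rpow_le_rpow_of_exponent_le (by linarith) ?_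
        have h8 : (0 : ℝ) ≤ d := Nat.cast_nonneg d
        have h9 : 1 ≤ y ^ 2 := one_le_pow₀ hy1
        exact le_mul_of_one_le_right h8 h9
      linarith
    have h5 : (Y : ℝ) ^ (K₀ * z ^ 2) ≤ (Y : ℝ) ^ (4 * K₀ * y ^ 2) :=
      Real.rpow_le_rpow_of_exponent_le (by linarith) (by
        have := mul_le_mul_of_nonneg_left hz hK₀.le
        linarith)
    calc ((d : ℝ) + 1) * (Y : ℝ) ^ (K₀ * z ^ 2) ≤ (Y : ℝ) ^ ((d : ℝ) * y ^ 2) * (Y : ℝ) ^ (4 * K₀ * y ^ 2) :=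
          mul_le_mul h4 h5 (by positivity) (by positivity)
      _ = (Y : ℝ) ^ ((d + 4 * K₀) * y ^ 2) := by
          rw [← Real.rpow_add (by linarith)]
          congr 1
          ring
  -- the events
  have hev : ∀ c : ℝ, zprop N L (fun t => c ≤ ∑ k ∈ range n, H (Nat.nth Nat.Prime k) (fun i => (t i : ZMod _))) =
      pr L (PP (bn n)) (nf H B N) (fun s => c ≤ B * s + M) := by
    intro c
    unfold zprop pr
    rw [zbox_card]
    congr 2
    refine congrArg Finset.card (filter_congr fun m _ => ?_)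
    have h4 : ∑ k ∈ range n, H (Nat.nth Nat.Prime k) (fun i => (((fun i => N i + (m i : ℤ)) i : ℤ) : ZMod _)) =
        B * (∑ p ∈ PP (bn n), nf H B N p m) + M := by
      rw [sum_nth n (fun p => H p (fun i => (((fun i => N i + (m i : ℤ)) i : ℤ) : ZMod p))), hM, mul_sum, ← sum_add_distrib]
      refine sum_congr rfl fun p _ => ?_
      unfold nf
      field_simp
      ring
    rw [h4]
  rw [hev]
  have hMy : |M| ≤ η * y * Real.sqrt n := by
    refine hMb.trans ?_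
    have : η * Real.sqrt n * 1 ≤ η * Real.sqrt n * y := mul_le_mul_of_nonneg_left hy1 (by positivity)
    linarith
  have hMy' := abs_le.1 hMy
  have hys : 0 < y * Real.sqrt n := by positivity
  obtain ⟨w, hw⟩ : ∃ w, w = η * y := ⟨_, rfl⟩
  have hw0 : 0 < w := by rw [hw]; positivity
  have hw1 : w ≤ 1 / 16 * y := by
    rw [hw]
    exact mul_le_mul_of_nonneg_right hη1 (by linarith)
  have hVsq : 2 * y ≤ δ₁ * Real.sqrt V := by
    have h5 : 2 * y ≤ δ₁ * (Real.sqrt n / (2 * B)) := by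
      have h6 : y ≤ δ₁ / (4 * B) * Real.sqrt n := by rw [← hδ]; exact hyn
      calc 2 * y ≤ 2 * (δ₁ / (4 * B) * Real.sqrt n) := by linarith
        _ = _ := by ring
    have h6 : Real.sqrt n / (2 * B) ≤ Real.sqrt V := by
      rw [div_le_iff₀ (by positivity)]
      have h8 : 1 / 2 * Real.sqrt n ≤ (1 - η) * Real.sqrt n := mul_le_mul_of_nonneg_right (by linarith) hsn0.le
      linarith
    exact h5.trans (mul_le_mul_of_nonneg_left h6 hδ₁.le)
  constructor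
  · -- the lower bound
    obtain ⟨z, hz⟩ : ∃ z, z = (1 + 3 * η) * y := ⟨_, rfl⟩
    have hzw : z = y + 3 * w := by rw [hz, hw]; ring
    have hz1 : y₁ ≤ z := by rw [hzw]; linarith
    have hz2 : z ≤ 2 * y := by rw [hzw]; linarith
    have hz0 : 0 < z := by linarith
    have hz4 : z ^ 2 ≤ 4 * y ^ 2 := by
      calc z ^ 2 ≤ (2 * y) ^ 2 := pow_le_pow_left₀ hz0.le hz2 2
        _ = 4 * y ^ 2 := by ring
    have h4 := (hmdp d (PP (bn n)) (fun p => p) (nf H B N) S z hz1 (by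
      rw [← hV]
      exact hz2.trans hVsq) Y hY2 hqY (by rw [card_PP_bn]; omega) L (hside z hz4)).1
    rw [← hV] at h4
    refine le_trans ?_ (h4.trans (pr_mono fun s hs => ?_))
    · refine Real.exp_le_exp.2 ?_
      have h5 : z ^ 2 ≤ (1 + e / 2) * y ^ 2 := by
        rw [hz, mul_pow]
        refine mul_le_mul_of_nonneg_right ?_ (sq_nonneg y)
        rw [hη]
        exact n1 he0 he1
      have h6 : (1 + e / 4) * (1 + e / 2) ≤ 1 + ε := (n2 he0 he1).trans (by linarith)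
      have h7 : (1 + e / 4) * z ^ 2 ≤ (1 + e / 4) * ((1 + e / 2) * y ^ 2) := mul_le_mul_of_nonneg_left h5 (by linarith)
      have h8 : (1 + e / 4) * (1 + e / 2) * y ^ 2 ≤ (1 + ε) * y ^ 2 := mul_le_mul_of_nonneg_right h6 (sq_nonneg y)
      linarith
    · have h5 : z * ((1 - η) * Real.sqrt n) ≤ z * (Real.sqrt V * B) := mul_le_mul_of_nonneg_left hsV1 hz0.le
      have h6 : z * Real.sqrt V * B ≤ B * s := by
        have := mul_le_mul_of_nonneg_left hs hB0.le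
        linarith
      have h7 : z * ((1 - η) * Real.sqrt n) = (1 + 3 * η) * (1 - η) * (y * Real.sqrt n) := by rw [hz]; ring
      have h8 : (1 + η) * (y * Real.sqrt n) ≤ (1 + 3 * η) * (1 - η) * (y * Real.sqrt n) := by
        exact mul_le_mul_of_nonneg_right (n3 hη0 hη1) hys.le
      linarith [hMy'.1]
  · -- the upper bound
    obtain ⟨z, hz⟩ : ∃ z, z = (1 - 2 * η) * y := ⟨_, rfl⟩
    have hzw : z = y - 2 * w := by rw [hz, hw]; ring
    have hz1 : y₁ ≤ z := by rw [hzw]; linarith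
    have hz2 : z ≤ 2 * y := by rw [hzw]; linarith
    have hz0 : 0 < z := by linarith
    have hz4 : z ^ 2 ≤ 4 * y ^ 2 := by
      calc z ^ 2 ≤ (2 * y) ^ 2 := pow_le_pow_left₀ hz0.le hz2 2
        _ = 4 * y ^ 2 := by ring
    have h4 := (hmdp d (PP (bn n)) (fun p => p) (nf H B N) S z hz1 (by
      rw [← hV]
      exact hz2.trans hVsq) Y hY2 hqY (by rw [card_PP_bn]; omega) L (hside z hz4)).2
    rw [← hV] at h4
    refine le_trans (pr_mono fun s hs => ?_) (h4.trans ?_)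
    · have h5 : z * (Real.sqrt V * B) ≤ z * ((1 + η) * Real.sqrt n) := mul_le_mul_of_nonneg_left hsV2 hz0.le
      have h7 : z * ((1 + η) * Real.sqrt n) = (1 - 2 * η) * (1 + η) * (y * Real.sqrt n) := by rw [hz]; ring
      have h8 : (1 - 2 * η) * (1 + η) * (y * Real.sqrt n) ≤ (1 - η) * (y * Real.sqrt n) := by
        exact mul_le_mul_of_nonneg_right (n4 hη0) hys.le
      have h9 : z * Real.sqrt V * B ≤ s * B := by linarith [hMy'.2]
      exact le_of_mul_le_mul_right h9 hB0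
    · refine Real.exp_le_exp.2 ?_
      have h5 : (1 - e / 4) * y ^ 2 ≤ z ^ 2 := by
        rw [hz, mul_pow]
        refine mul_le_mul_of_nonneg_right ?_ (sq_nonneg y)
        rw [hη]
        exact n5 e
      have h6 : 1 - ε ≤ (1 - e / 4) * (1 - e / 4) := le_trans (by linarith) (n6 he0)
      have h7 : (1 - e / 4) * ((1 - e / 4) * y ^ 2) ≤ (1 - e / 4) * z ^ 2 := mul_le_mul_of_nonneg_left h5 (by linarith)
      have h8 : (1 - ε) * y ^ 2 ≤ (1 - e / 4) * (1 - e / 4) * y ^ 2 := mul_le_mul_of_nonneg_right h6 (sq_nonneg y)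
      linarith

end Q69CR
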