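import Pool.Agent.Q282.LT.Shift

/-!
# Exponential moments of sums of functions of residues
-/

set_option autoImplicit false
set_option linter.unusedSectionVars false

namespace Q69CR

open Finset
open Q282LT
open Pool.Agent.TH894.NE (box mem_box card_box Per mean mean_mul mean_mono mean_add mean_const mean_prod)

/-- exponential moments -/
noncomputable def ph (d q : ℕ) (F : (Fin d → ℕ) → ℝ) (j : ℕ) (t : ℝ) : ℝ := mean d q fun n => F n ^ j * Real.exp (t * F n)

lemma ph_deriv (d q : ℕ) (F : (Fin d → ℕ) → ℝ) (j : ℕ) (t : ℝ) : HasDerivAt (ph d q F j) (ph d q F (j + 1) t) t := by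
  unfold ph Pool.Agent.TH894.NE.mean
  refine HasDerivAt.const_mul _ (HasDerivAt.fun_sum fun n _ => ?_)
  have h1 : HasDerivAt (fun t : ℝ => t * F n) (F n) t := by
    have := (hasDerivAt_id t).mul_const (F n)
    rw [one_mul] at this
    exact this
  have h2 := (h1.exp).const_mul (F n ^ j)
  have h3 : F n ^ j * (Real.exp (t * F n) * F n) = F n ^ (j + 1) * Real.exp (t * F n) := by ring
  rw [h3] at h2
  exact h2

variable {d q : ℕ} {F : (Fin d → ℕ) → ℝ}

lemma ph_zero_ge (hq : 1 ≤ q) (h0 : mean d q F = 0) (t : ℝ) : 1 ≤ ph d q F 0 t := by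
  have h1 : mean d q (fun n => 1 + t * F n) ≤ ph d q F 0 t := by
    unfold ph
    refine mean_mono fun n => ?_
    rw [pow_zero, one_mul]
    have := Real.add_one_le_exp (t * F n)
    linarith
  rw [mean_add, mean_mul, mean_const d q hq, h0, mul_zero, add_zero] at h1
  exact h1

lemma ph_zero_le (hq : 1 ≤ q) (hb : ∀ n, |F n| ≤ 2) (t : ℝ) : ph d q F 0 t ≤ Real.exp (2 * |t|) := by
  rw [← mean_const d q hq (Real.exp (2 * |t|))]
  unfold ph
  refine mean_mono fun n => ?_
  rw [pow_zero, one_mul]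
  refine Real.exp_le_exp.2 ?_
  calc t * F n ≤ |t * F n| := le_abs_self _
    _ = |F n| * |t| := by rw [abs_mul, mul_comm]
    _ ≤ 2 * |t| := mul_le_mul_of_nonneg_right (hb n) (abs_nonneg _)

lemma ph_zero_pos (hq : 1 ≤ q) (h0 : mean d q F = 0) (t : ℝ) : 0 < ph d q F 0 t := lt_of_lt_of_le one_pos (ph_zero_ge hq h0 t)

lemma ph_two_le (hb : ∀ n, |F n| ≤ 2) (t : ℝ) :
    ph d q F 2 t ≤ Real.exp (2 * |t|) * mean d q (fun n => F n ^ 2) := by
  rw [← mean_mul]
  unfold ph
  refine mean_mono fun n => ?_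
  rw [mul_comm]
  refine mul_le_mul_of_nonneg_right (Real.exp_le_exp.2 ?_) (sq_nonneg _)
  calc t * F n ≤ |t * F n| := le_abs_self _
    _ = |F n| * |t| := by rw [abs_mul, mul_comm]
    _ ≤ 2 * |t| := mul_le_mul_of_nonneg_right (hb n) (abs_nonneg _)

/-- the variance under the tilted law, from below -/
lemma ph_var_ge (hq : 1 ≤ q) (h0 : mean d q F = 0) (hb : ∀ n, |F n| ≤ 2) (t : ℝ) :
    Real.exp (-(2 * |t|)) * mean d q (fun n => F n ^ 2) ≤ ph d q F 2 t - ph d q F 1 t ^ 2 / ph d q F 0 t := by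
  have hp := ph_zero_pos hq h0 t
  obtain ⟨c, hc⟩ : ∃ c : ℝ, c = ph d q F 1 t / ph d q F 0 t := ⟨_, rfl⟩
  have h1 : mean d q (fun n => (F n - c) ^ 2 * Real.exp (t * F n)) = ph d q F 2 t - ph d q F 1 t ^ 2 / ph d q F 0 t := by
    have e : (fun n => (F n - c) ^ 2 * Real.exp (t * F n)) = fun n => F n ^ 2 * Real.exp (t * F n) +
        ((-(2 * c)) * (F n ^ 1 * Real.exp (t * F n)) + c ^ 2 * (F n ^ 0 * Real.exp (t * F n))) := by
      funext n
      ring
    rw [e, mean_add, mean_add, mean_mul, mean_mul]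
    show ph d q F 2 t + (-(2 * c) * ph d q F 1 t + c ^ 2 * ph d q F 0 t) = _
    rw [hc]
    field_simp
    ring
  have h2 : mean d q (fun n => Real.exp (-(2 * |t|)) * (F n - c) ^ 2) ≤ mean d q (fun n => (F n - c) ^ 2 * Real.exp (t * F n)) := by
    refine mean_mono fun n => ?_
    rw [mul_comm]
    refine mul_le_mul_of_nonneg_left (Real.exp_le_exp.2 ?_) (sq_nonneg _)
    have h3 : |t * F n| ≤ 2 * |t| := by
      rw [abs_mul, mul_comm]
      exact mul_le_mul_of_nonneg_right (hb n) (abs_nonneg _)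
    linarith [(abs_le.1 h3).1]
  have h4 : mean d q (fun n => Real.exp (-(2 * |t|)) * (F n - c) ^ 2) =
      Real.exp (-(2 * |t|)) * (mean d q (fun n => F n ^ 2) + c ^ 2) := by
    have e : (fun n => (F n - c) ^ 2) = fun n => F n ^ 2 + ((-(2 * c)) * F n + c ^ 2) := by
      funext n
      ring
    rw [mean_mul, e, mean_add, mean_add, mean_mul, mean_const d q hq, h0]
    ring
  rw [← h1]
  refine le_trans ?_ (h4.symm.le.trans h2)
  refine mul_le_mul_of_nonneg_left ?_ (Real.exp_pos _).le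
  linarith [sq_nonneg c]

/-! ### Sums over the moduli -/

/-- the logarithm of the moment generating function -/
noncomputable def Psi (d : ℕ) (I : Finset ℕ) (q : ℕ → ℕ) (F : ℕ → (Fin d → ℕ) → ℝ) (t : ℝ) : ℝ :=
  ∑ a ∈ I, Real.log (ph d (q a) (F a) 0 t)

/-- its derivative, the mean under the tilted law -/
noncomputable def mu1 (d : ℕ) (I : Finset ℕ) (q : ℕ → ℕ) (F : ℕ → (Fin d → ℕ) → ℝ) (t : ℝ) : ℝ :=
  ∑ a ∈ I, ph d (q a) (F a) 1 t / ph d (q a) (F a) 0 t

/-- its second derivative, the variance under the tilted law -/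
noncomputable def mu2 (d : ℕ) (I : Finset ℕ) (q : ℕ → ℕ) (F : ℕ → (Fin d → ℕ) → ℝ) (t : ℝ) : ℝ :=
  ∑ a ∈ I, (ph d (q a) (F a) 2 t * ph d (q a) (F a) 0 t - ph d (q a) (F a) 1 t * ph d (q a) (F a) 1 t) / ph d (q a) (F a) 0 t ^ 2

variable {I : Finset ℕ} {qq : ℕ → ℕ} {G : ℕ → (Fin d → ℕ) → ℝ}

lemma Psi_deriv (hq : ∀ a ∈ I, 1 ≤ qq a) (h0 : ∀ a ∈ I, mean d (qq a) (G a) = 0) (t : ℝ) :
    HasDerivAt (Psi d I qq G) (mu1 d I qq G t) t := by
  unfold Psi mu1
  refine HasDerivAt.fun_sum fun a ha => ?_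
  exact (ph_deriv d (qq a) (G a) 0 t).log (ph_zero_pos (hq a ha) (h0 a ha) t).ne'

lemma mu1_deriv (hq : ∀ a ∈ I, 1 ≤ qq a) (h0 : ∀ a ∈ I, mean d (qq a) (G a) = 0) (t : ℝ) :
    HasDerivAt (mu1 d I qq G) (mu2 d I qq G t) t := by
  unfold mu1 mu2
  refine HasDerivAt.fun_sum fun a ha => ?_
  exact (ph_deriv d (qq a) (G a) 1 t).div (ph_deriv d (qq a) (G a) 0 t) (ph_zero_pos (hq a ha) (h0 a ha) t).ne'

lemma mu2_le (hq : ∀ a ∈ I, 1 ≤ qq a) (h0 : ∀ a ∈ I, mean d (qq a) (G a) = 0) (hb : ∀ a ∈ I, ∀ n, |G a n| ≤ 2) (t : ℝ) :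
    mu2 d I qq G t ≤ Real.exp (2 * |t|) * ∑ a ∈ I, va d qq G a := by
  unfold mu2
  rw [mul_sum]
  refine sum_le_sum fun a ha => ?_
  have hp := ph_zero_pos (hq a ha) (h0 a ha) t
  have h1 := ph_zero_ge (hq a ha) (h0 a ha) t
  have h2 := ph_two_le (q := qq a) (hb a ha) t
  have h3 : 0 ≤ Real.exp (2 * |t|) * va d qq G a := by
    unfold va
    refine mul_nonneg (Real.exp_pos _).le ?_
    have := mean_mono (d := d) (q := qq a) (F := fun _ => 0) (G := fun n => G a n ^ 2) (fun n => sq_nonneg _)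
    rwa [mean_const d (qq a) (hq a ha)] at this
  rw [div_le_iff₀ (by positivity)]
  have h4 : ph d (qq a) (G a) 2 t * ph d (qq a) (G a) 0 t ≤ Real.exp (2 * |t|) * va d qq G a * ph d (qq a) (G a) 0 t :=
    mul_le_mul_of_nonneg_right h2 hp.le
  have h5 : Real.exp (2 * |t|) * va d qq G a * ph d (qq a) (G a) 0 t ≤
      Real.exp (2 * |t|) * va d qq G a * ph d (qq a) (G a) 0 t ^ 2 := by
    refine mul_le_mul_of_nonneg_left ?_ h3
    nlinarith
  have h6 := mul_self_nonneg (ph d (qq a) (G a) 1 t)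
  linarith

lemma mu2_ge (hq : ∀ a ∈ I, 1 ≤ qq a) (h0 : ∀ a ∈ I, mean d (qq a) (G a) = 0) (hb : ∀ a ∈ I, ∀ n, |G a n| ≤ 2) (t : ℝ) :
    Real.exp (-(4 * |t|)) * ∑ a ∈ I, va d qq G a ≤ mu2 d I qq G t := by
  unfold mu2
  rw [mul_sum]
  refine sum_le_sum fun a ha => ?_
  have hp := ph_zero_pos (hq a ha) (h0 a ha) t
  have h1 := ph_zero_le (hq a ha) (hb a ha) t
  have h2 := ph_var_ge (hq a ha) (h0 a ha) (hb a ha) t
  have h3 : 0 ≤ va d qq G a := by
    unfold va
    have := mean_mono (d := d) (q := qq a) (F := fun _ => 0) (G := fun n => G a n ^ 2) (fun n => sq_nonneg _)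
    rwa [mean_const d (qq a) (hq a ha)] at this
  have h4 : (ph d (qq a) (G a) 2 t * ph d (qq a) (G a) 0 t - ph d (qq a) (G a) 1 t * ph d (qq a) (G a) 1 t) / ph d (qq a) (G a) 0 t ^ 2 =
      (ph d (qq a) (G a) 2 t - ph d (qq a) (G a) 1 t ^ 2 / ph d (qq a) (G a) 0 t) / ph d (qq a) (G a) 0 t := by
    field_simp
  rw [h4, le_div_iff₀ hp]
  refine le_trans ?_ h2
  show Real.exp (-(4 * |t|)) * va d qq G a * ph d (qq a) (G a) 0 t ≤ Real.exp (-(2 * |t|)) * va d qq G a
  calc Real.exp (-(4 * |t|)) * va d qq G a * ph d (qq a) (G a) 0 t ≤ Real.exp (-(4 * |t|)) * va d qq G a * Real.exp (2 * |t|) :=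
        mul_le_mul_of_nonneg_left h1 (mul_nonneg (Real.exp_pos _).le h3)
    _ = Real.exp (-(2 * |t|)) * va d qq G a := by
        rw [mul_right_comm, ← Real.exp_add]
        congr 2
        ring

lemma Psi_zero (hq : ∀ a ∈ I, 1 ≤ qq a) : Psi d I qq G 0 = 0 := by
  unfold Psi
  refine sum_eq_zero fun a ha => ?_
  have h1 : ph d (qq a) (G a) 0 0 = 1 := by
    unfold ph
    rw [← mean_const d (qq a) (hq a ha) 1]
    congr 1
    funext n
    rw [pow_zero, zero_mul, Real.exp_zero, one_mul]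
  rw [h1, Real.log_one]

lemma mu1_zero (h0 : ∀ a ∈ I, mean d (qq a) (G a) = 0) : mu1 d I qq G 0 = 0 := by
  unfold mu1
  refine sum_eq_zero fun a ha => ?_
  have h1 : ph d (qq a) (G a) 1 0 = 0 := by
    refine Eq.trans ?_ (h0 a ha)
    unfold ph
    congr 1
    funext n
    rw [pow_one, zero_mul, Real.exp_zero, mul_one]
  rw [h1, zero_div]

/-- the exponential moments of the sum -/
lemma exp_sum (hq : ∀ a ∈ I, 1 ≤ qq a) (hco : ∀ a ∈ I, ∀ b ∈ I, a ≠ b → Nat.Coprime (qq a) (qq b))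
    (hF : ∀ a ∈ I, Per (qq a) (G a)) (h0 : ∀ a ∈ I, mean d (qq a) (G a) = 0) (t : ℝ) :
    mean d (∏ a ∈ I, qq a) (fun n => Real.exp (t * ∑ a ∈ I, G a n)) = Real.exp (Psi d I qq G t) := by
  have h1 : (fun n : Fin d → ℕ => Real.exp (t * ∑ a ∈ I, G a n)) = fun n => ∏ a ∈ I, Real.exp (t * G a n) := by
    funext n
    rw [mul_sum, Real.exp_sum]
  rw [h1, mean_prod I qq hq hco (fun a n => Real.exp (t * G a n)) (fun a ha n => by
    show Real.exp (t * G a n) = Real.exp (t * G a fun i => n i % qq a)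
    rw [← hF a ha n])]
  unfold Psi
  rw [Real.exp_sum]
  refine prod_congr rfl fun a ha => ?_
  rw [Real.exp_log (ph_zero_pos (hq a ha) (h0 a ha) t)]
  unfold ph
  congr 1
  funext n
  rw [pow_zero, one_mul]

/-! ### Calculus -/

section real

variable {P m s : ℝ → ℝ} {T c C : ℝ}

lemma incr (hm : ∀ t, HasDerivAt m (s t) t) (hc : ∀ t, |t| ≤ T → c ≤ s t) (hC : ∀ t, |t| ≤ T → s t ≤ C)
    {x y : ℝ} (hx : -T ≤ x) (hxy : x ≤ y) (hy : y ≤ T) : c * (y - x) ≤ m y - m x ∧ m y - m x ≤ C * (y - x) := by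
  have hdiff : Differentiable ℝ m := fun t => (hm t).differentiableAt
  have habs : ∀ t ∈ interior (Set.Icc x y), |t| ≤ T := by
    intro t ht
    rw [interior_Icc] at ht
    rw [abs_le]
    exact ⟨hx.trans ht.1.le, ht.2.le.trans hy⟩
  constructor
  · exact (convex_Icc x y).mul_sub_le_image_sub_of_le_deriv hdiff.continuous.continuousOn hdiff.differentiableOn
      (fun t ht => by rw [(hm t).deriv]; exact hc t (habs t ht)) x (Set.left_mem_Icc.2 hxy) y (Set.right_mem_Icc.2 hxy) hxy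
  · exact (convex_Icc x y).image_sub_le_mul_sub_of_deriv_le hdiff.continuous.continuousOn hdiff.differentiableOn
      (fun t ht => by rw [(hm t).deriv]; exact hC t (habs t ht)) x (Set.left_mem_Icc.2 hxy) y (Set.right_mem_Icc.2 hxy) hxy

lemma quad (hP : ∀ t, HasDerivAt P (m t) t) (hm : ∀ t, HasDerivAt m (s t) t) (hc : ∀ t, |t| ≤ T → 0 ≤ s t)
    (hC : ∀ t, |t| ≤ T → s t ≤ C) {t h : ℝ} (ht : |t| ≤ T) (hth : |t + h| ≤ T) :
    P (t + h) ≤ P t + h * m t + C * h ^ 2 := by
  have hg : ∀ u, HasDerivAt (fun u => P u - u * m t) (m u - m t) u := by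
    intro u
    have h1 := (hP u).sub ((hasDerivAt_id u).mul_const (m t))
    rw [one_mul] at h1
    exact h1
  have hdiff : Differentiable ℝ fun u => P u - u * m t := fun u => (hg u).differentiableAt
  rw [abs_le] at ht hth
  rcases le_total 0 h with h0 | h0
  · have h1 := (convex_Icc t (t + h)).image_sub_le_mul_sub_of_deriv_le (C := C * h) hdiff.continuous.continuousOn
      hdiff.differentiableOn (fun u hu => by
        rw [(hg u).deriv]
        rw [interior_Icc] at hu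
        have h2 := (incr hm hc hC ht.1 hu.1.le (hu.2.le.trans hth.2)).2
        have hC0 : 0 ≤ C := (hc t (abs_le.2 ht)).trans (hC t (abs_le.2 ht))
        have h3 : C * (u - t) ≤ C * h := mul_le_mul_of_nonneg_left (by linarith [hu.2]) hC0
        linarith) t (Set.left_mem_Icc.2 (by linarith)) (t + h) (Set.right_mem_Icc.2 (by linarith)) (by linarith)
    have h4 : P (t + h) - (t + h) * m t - (P t - t * m t) ≤ C * h * (t + h - t) := h1
    nlinarith
  · have h1 := (convex_Icc (t + h) t).mul_sub_le_image_sub_of_le_deriv (C := C * h) hdiff.continuous.continuousOn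
      hdiff.differentiableOn (fun u hu => by
        rw [(hg u).deriv]
        rw [interior_Icc] at hu
        have h2 := (incr hm hc hC (hth.1.trans hu.1.le) hu.2.le ht.2).2
        have hC0 : 0 ≤ C := (hc t (abs_le.2 ht)).trans (hC t (abs_le.2 ht))
        have h3 : C * h ≤ C * (u - t) := mul_le_mul_of_nonneg_left (by linarith [hu.1]) hC0
        linarith) (t + h) (Set.left_mem_Icc.2 (by linarith)) t (Set.right_mem_Icc.2 (by linarith)) (by linarith)
    have h4 : C * h * (t - (t + h)) ≤ P t - t * m t - (P (t + h) - (t + h) * m t) := h1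
    nlinarith

lemma rate_bounds (hP : ∀ t, HasDerivAt P (m t) t) (hm : ∀ t, HasDerivAt m (s t) t) (hP0 : P 0 = 0)
    (hc : ∀ t, |t| ≤ T → c ≤ s t) (hC : ∀ t, |t| ≤ T → s t ≤ C) {t : ℝ} (ht0 : 0 ≤ t) (ht : t ≤ T) :
    c * t ^ 2 / 2 ≤ t * m t - P t ∧ t * m t - P t ≤ C * t ^ 2 / 2 := by
  have hg : ∀ e u : ℝ, HasDerivAt (fun u => u * m u - P u - e * u ^ 2 / 2) (u * s u - e * u) u := by
    intro e u
    have h1 := ((hasDerivAt_id u).mul (hm u)).sub (hP u)
    have h2 := ((hasDerivAt_pow 2 u).const_mul e).div_const 2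
    have h3 := h1.sub h2
    have e1 : 1 * m u + id u * s u - m u - e * (((2 : ℕ) : ℝ) * u ^ (2 - 1)) / 2 = u * s u - e * u := by
      simp only [id]
      push_cast
      ring
    rw [e1] at h3
    exact h3
  have hdiff : ∀ e : ℝ, Differentiable ℝ fun u => u * m u - P u - e * u ^ 2 / 2 := fun e u => (hg e u).differentiableAt
  constructor
  · have h1 := (convex_Icc 0 t).mul_sub_le_image_sub_of_le_deriv (C := 0) (hdiff c).continuous.continuousOn
      (hdiff c).differentiableOn (fun u hu => by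
        rw [(hg c u).deriv]
        rw [interior_Icc] at hu
        have h2 := hc u (by rw [abs_of_pos hu.1]; exact hu.2.le.trans ht)
        nlinarith [hu.1]) 0 (Set.left_mem_Icc.2 ht0) t (Set.right_mem_Icc.2 ht0) ht0
    simp only [hP0] at h1
    linarith
  · have h1 := (convex_Icc 0 t).image_sub_le_mul_sub_of_deriv_le (C := 0) (hdiff C).continuous.continuousOn
      (hdiff C).differentiableOn (fun u hu => by
        rw [(hg C u).deriv]
        rw [interior_Icc] at hu
        have h2 := hC u (by rw [abs_of_pos hu.1]; exact hu.2.le.trans ht)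
        nlinarith [hu.1]) 0 (Set.left_mem_Icc.2 ht0) t (Set.right_mem_Icc.2 ht0) ht0
    simp only [hP0] at h1
    linarith

lemma rate_incr (hP : ∀ t, HasDerivAt P (m t) t) (hm : ∀ t, HasDerivAt m (s t) t)
    (hC0 : 0 ≤ C) (hC : ∀ t, |t| ≤ T → s t ≤ C) {x y : ℝ} (hx : 0 ≤ x) (hxy : x ≤ y) (hy : y ≤ T) :
    (y * m y - P y) - (x * m x - P x) ≤ C * y * (y - x) := by
  have hg : ∀ u : ℝ, HasDerivAt (fun u => u * m u - P u) (u * s u) u := by
    intro u
    have h1 := ((hasDerivAt_id u).mul (hm u)).sub (hP u)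
    have e1 : 1 * m u + id u * s u - m u = u * s u := by
      simp only [id]
      ring
    rw [e1] at h1
    exact h1
  have hdiff : Differentiable ℝ fun u => u * m u - P u := fun u => (hg u).differentiableAt
  exact (convex_Icc x y).image_sub_le_mul_sub_of_deriv_le (C := C * y) hdiff.continuous.continuousOn
    hdiff.differentiableOn (fun u hu => by
      rw [(hg u).deriv]
      rw [interior_Icc] at hu
      have h0 : 0 < u := lt_of_le_of_lt hx hu.1
      have h2 := hC u (by rw [abs_of_pos h0]; exact hu.2.le.trans hy)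
      have h3 : u * s u ≤ u * C := mul_le_mul_of_nonneg_left h2 h0.le
      have h4 : u * C ≤ y * C := mul_le_mul_of_nonneg_right hu.2.le hC0
      linarith) x (Set.left_mem_Icc.2 hxy) y (Set.right_mem_Icc.2 hxy) hxy

end real

end Q69CR
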